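import Pool.Agent.V11286.MV.Rot

/-! Combination of the factorisations `A = B ^ v * D`. -/

set_option linter.unusedSectionVars false

namespace MV286

open MvPolynomial

variable {K : Type*} [Field K] {σ : Type*}

theorem split_of_ode {A D E : MvPolynomial σ K} {c : K} {v : ℕ} (hv : v ≠ 0) (hA : A ≠ 0)
    (h : D ^ v = C c * A ^ (v - 1) * E) :
    ∃ B D' : MvPolynomial σ K, A = B ^ v * D' ∧ D' ∣ C c * E := by
  obtain ⟨B, D1, g, hrel, hg1, hg2⟩ := UniqueFactorizationMonoid.exists_reduced_factors A hA D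
  have hg0 : g ≠ 0 := by rintro rfl; rw [zero_mul] at hg1; exact hA hg1.symm
  have hB0 : B ≠ 0 := by rintro rfl; rw [mul_zero] at hg1; exact hA hg1.symm
  obtain ⟨w, rfl⟩ := Nat.exists_eq_succ_of_ne_zero hv
  simp only [Nat.succ_eq_add_one, Nat.add_sub_cancel] at h ⊢
  have h1 : g * D1 ^ (w + 1) = C c * B ^ w * E := by
    apply mul_left_cancel₀ (pow_ne_zero w hg0)
    rw [← hg1, ← hg2] at h
    calc g ^ w * (g * D1 ^ (w + 1)) = (g * D1) ^ (w + 1) := by rw [mul_pow, pow_succ]; ring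
      _ = g ^ w * (C c * B ^ w * E) := by rw [h, mul_pow]; ring
  have h2 : A * D1 ^ (w + 1) = B ^ (w + 1) * (C c * E) := by
    calc A * D1 ^ (w + 1) = B * (g * D1 ^ (w + 1)) := by rw [← hg1]; ring
      _ = B ^ (w + 1) * (C c * E) := by rw [h1, pow_succ]; ring
  have h3 : B ^ (w + 1) ∣ A * D1 ^ (w + 1) := ⟨_, h2⟩
  have h4 : B ^ (w + 1) ∣ A := (IsRelPrime.pow hrel).dvd_of_dvd_mul_right h3
  obtain ⟨D', hD'⟩ := h4
  refine ⟨B, D', hD', ⟨D1 ^ (w + 1), ?_⟩⟩
  apply mul_left_cancel₀ (pow_ne_zero (w + 1) hB0)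
  rw [← h2, hD']; ring

theorem combine2 {A B₁ B₂ D₁ D₂ : MvPolynomial σ K} {v : ℕ} (hA : A ≠ 0) (hv : v ≠ 0)
    (h1 : A = B₁ ^ v * D₁) (h2 : A = B₂ ^ v * D₂) :
    ∃ B D : MvPolynomial σ K, A = B ^ v * D ∧ D ∣ D₁ ∧ D ∣ D₂ := by
  have hB1 : B₁ ≠ 0 := by
    rintro rfl
    rw [zero_pow hv, zero_mul] at h1
    exact hA h1
  obtain ⟨b₁, b₂, g, hrel, hg1, hg2⟩ :=
    UniqueFactorizationMonoid.exists_reduced_factors B₁ hB1 B₂
  have hg0 : g ≠ 0 := by rintro rfl; rw [zero_mul] at hg1; exact hB1 hg1.symm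
  have hb10 : b₁ ≠ 0 := by rintro rfl; rw [mul_zero] at hg1; exact hB1 hg1.symm
  have h3 : b₁ ^ v * D₁ = b₂ ^ v * D₂ := by
    apply mul_left_cancel₀ (pow_ne_zero v hg0)
    rw [← mul_assoc, ← mul_assoc, ← mul_pow, ← mul_pow, hg1, hg2, ← h1, ← h2]
  have h4 : b₁ ^ v ∣ b₂ ^ v * D₂ := ⟨D₁, h3.symm⟩
  have h5 : b₁ ^ v ∣ D₂ := (IsRelPrime.pow hrel).dvd_of_dvd_mul_left h4
  obtain ⟨D, rfl⟩ := h5
  have h6 : D₁ = b₂ ^ v * D := by
    apply mul_left_cancel₀ (pow_ne_zero v hb10)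
    rw [h3]; ring
  refine ⟨B₁ * b₂, D, ?_, ⟨b₂ ^ v, by rw [h6]; ring⟩, ⟨b₁ ^ v, by ring⟩⟩
  rw [h1, h6]; ring

theorem degreeOf_eq_zero_of_dvd {A B : MvPolynomial σ K} (hB : B ≠ 0) (h : A ∣ B) {j : σ}
    (hj : B.degreeOf j = 0) : A.degreeOf j = 0 := by
  obtain ⟨D, rfl⟩ := h
  have hA : A ≠ 0 := left_ne_zero_of_mul hB
  have hD : D ≠ 0 := right_ne_zero_of_mul hB
  rw [degreeOf_mul_eq hA hD] at hj
  omega

theorem all_vars [Fintype σ] [DecidableEq σ] {A : MvPolynomial σ K} {v : ℕ} (hA : A ≠ 0)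
    (hv : v ≠ 0)
    (h : ∀ j, ∃ B D : MvPolynomial σ K, A = B ^ v * D ∧ D.degreeOf j = 0) :
    ∃ B D : MvPolynomial σ K, A = B ^ v * D ∧ ∀ j, D.degreeOf j = 0 := by
  have key : ∀ s : Finset σ,
      ∃ B D : MvPolynomial σ K, A = B ^ v * D ∧ ∀ j ∈ s, D.degreeOf j = 0 := by
    intro s
    induction s using Finset.induction_on with
    | empty => exact ⟨1, A, by simp, by simp⟩
    | insert a s _ ih =>
      obtain ⟨B₁, D₁, h1, h1'⟩ := ih
      obtain ⟨B₂, D₂, h2, h2'⟩ := h a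
      obtain ⟨B, D, h3, hd1, hd2⟩ := combine2 hA hv h1 h2
      refine ⟨B, D, h3, ?_⟩
      have hD1 : D₁ ≠ 0 := by rintro rfl; rw [mul_zero] at h1; exact hA h1
      have hD2 : D₂ ≠ 0 := by rintro rfl; rw [mul_zero] at h2; exact hA h2
      intro j hj
      rcases Finset.mem_insert.1 hj with rfl | hj
      · exact degreeOf_eq_zero_of_dvd hD2 hd2 h2'
      · exact degreeOf_eq_zero_of_dvd hD1 hd1 (h1' j hj)
  obtain ⟨B, D, h1, h2⟩ := key Finset.univ
  exact ⟨B, D, h1, fun j => h2 j (Finset.mem_univ j)⟩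

theorem const_of_degreeOf {D : MvPolynomial σ K} (h : ∀ j, D.degreeOf j = 0) :
    ∃ c : K, D = C c := by
  classical
  refine ⟨coeff 0 D, ?_⟩
  ext m
  rw [coeff_C]
  split_ifs with hm
  · rw [← hm]
  · rw [← notMem_support_iff]
    intro hms
    apply hm
    ext j
    have h3 := monomial_le_degreeOf j hms
    rw [h j] at h3
    have h4 : m j = 0 := by omega
    simp [h4]

/-- degree in each variable does not increase under derivation -/
theorem degreeOf_pderiv_le [DecidableEq σ] (i j : σ) (A : MvPolynomial σ K) :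
    (pderiv i A).degreeOf j ≤ A.degreeOf j := by
  rw [degreeOf_le_iff]
  intro m hm
  rw [MvPolynomial.as_sum A, map_sum] at hm
  have h1 := MvPolynomial.support_sum hm
  rw [Finset.mem_biUnion] at h1
  obtain ⟨s, hs, hms⟩ := h1
  rw [pderiv_monomial] at hms
  have h2 := MvPolynomial.support_monomial_subset hms
  rw [Finset.mem_singleton] at h2
  rw [h2]
  have h3 := monomial_le_degreeOf j hs
  simp only [Finsupp.coe_tsub, Pi.sub_apply]
  omega

open Polynomial in
theorem sb_pderiv {p : ℕ} [Fact p.Prime] [CharP K p] {β n : ℕ} (hβ : β ≠ 0)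
    (A : MvPolynomial (Fin (n + 1)) K) :
    sb K (p ^ β) (n + 1) (MvPolynomial.pderiv (Fin.last n) A)
      = derivative (sb K (p ^ β) (n + 1) A) := by
  induction A using MvPolynomial.induction_on with
  | C a => rw [MvPolynomial.pderiv_C, sb_C, derivative_C, map_zero]
  | add A B hA hB => rw [map_add, map_add, map_add, derivative_add, hA, hB]
  | mul_X A i hA =>
    rw [Derivation.leibniz, map_add, smul_eq_mul, smul_eq_mul, map_mul, map_mul, hA, map_mul,
      derivative_mul]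
    have h1 : sb K (p ^ β) (n + 1) (MvPolynomial.pderiv (Fin.last n) (MvPolynomial.X i))
        = derivative (sb K (p ^ β) (n + 1) (MvPolynomial.X i)) := by
      rw [sb_X]
      by_cases hi : i = Fin.last n
      · rw [hi, MvPolynomial.pderiv_X_self]
        simp
      · rw [MvPolynomial.pderiv_X_of_ne hi, map_zero, derivative_X_pow]
        have h2 : (i.rev : ℕ) ≠ 0 := by
          intro h
          apply hi
          rw [Fin.val_rev] at h
          apply Fin.ext
          rw [Fin.val_last]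
          have := i.2
          omega
        have h3 : (((p ^ β) ^ (i.rev : ℕ) : ℕ) : K) = 0 := by
          push_cast
          rw [CharP.cast_eq_zero K p, zero_pow hβ, zero_pow h2]
        rw [h3]; simp
    rw [h1]; ring

end MV286
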