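import Pool.Agent.V11286.MV.Climb

/-! The common structure theorem. -/

set_option linter.unusedSectionVars false

namespace MV286

open Polynomial

variable {K : Type*} [Field K] [Fintype K] {p : ℕ} [hp : Fact p.Prime] [CharP K p]
  [PerfectRing K p]

theorem common {F : K[X]} {v r₁ R κ e : ℕ} {β₁ β₂ : K}
    (hq : Fintype.card K = p ^ e) (hκe : κ ≤ e) (hκ : 1 ≤ κ) (hrv : r₁ * v + 1 = p ^ κ)
    (hF : 0 < F.natDegree)
    (hRd : (F * (1 + C β₁ * F ^ r₁ + C β₂ * F ^ (r₁ * (p ^ κ + 1)))).natDegree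
      ≤ F.natDegree * (R + 1))
    (hR2 : 2 ≤ R) (hd : R * F.natDegree < Fintype.card K)
    (hT : ∀ a : K, (F * (1 + C β₁ * F ^ r₁ + C β₂ * F ^ (r₁ * (p ^ κ + 1)))).eval a = 0)
    (hRj : ∀ j, 1 ≤ j → j < κ → p ^ j + 1 ≤ R * (v % p ^ j))
    (hΨ0 : 1 + C β₁ * F ^ r₁ + C β₂ * F ^ (r₁ * (p ^ κ + 1)) ≠ 0) :
    ∃ P N ρ₀ ρ₁ : K[X], F = P ^ v * N ^ p ^ κ ∧ P = ρ₀ ^ p ^ κ + X * ρ₁ ^ p ^ κ ∧
      P ≠ 0 ∧ N ≠ 0 ∧ ρ₁ ≠ 0 ∧ IsCoprime ρ₀ ρ₁ ∧ derivative P = ρ₁ ^ p ^ κ ∧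
      P + (X ^ (Fintype.card K) - X) * derivative P
        = - (C β₁ * (P * F ^ r₁) + C β₂ * (P * F ^ (r₁ * (p ^ κ + 1)))) := by
  have hp0 : 0 < p := hp.out.pos
  have hκ0 : κ ≠ 0 := by omega
  have hF0 : F ≠ 0 := by rintro rfl; simp at hF
  have hr0 : r₁ ≠ 0 := by
    rintro rfl
    rw [zero_mul, zero_add] at hrv
    have := Nat.one_lt_pow hκ0 hp.out.one_lt
    omega
  have hv1 : (v : K) * r₁ = -1 := by
    have h1 : ((r₁ * v + 1 : ℕ) : K) = 0 := by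
      rw [hrv]; push_cast; rw [CharP.cast_eq_zero K p, zero_pow hκ0]
    push_cast at h1
    linear_combination h1
  have hv2 : (v : K) * ((r₁ * (p ^ κ + 1) : ℕ) : K) = -1 := by
    push_cast
    rw [CharP.cast_eq_zero K p, zero_pow hκ0]
    linear_combination hv1
  have hv0 : (v : K) ≠ 0 := by
    intro h; rw [h, zero_mul] at hv1
    exact one_ne_zero (neg_eq_zero.1 hv1.symm)
  have hode := ode_of_values hF hv1 hv2 hRd hR2 hd hT
  set Ψ := 1 + C β₁ * F ^ r₁ + C β₂ * F ^ (r₁ * (p ^ κ + 1)) with hΨ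
  obtain ⟨s, hs⟩ := Nat.exists_eq_succ_of_ne_zero hr0
  obtain ⟨t, ht⟩ := Nat.exists_eq_succ_of_ne_zero
    (show r₁ * (p ^ κ + 1) ≠ 0 from mul_ne_zero hr0 (Nat.succ_ne_zero _))
  have hΨS : Ψ = 1 + F * (C β₁ * F ^ s + C β₂ * F ^ t) := by
    rw [hΨ, ht]
    conv_lhs => rw [hs]
    rw [pow_succ, pow_succ]; ring
  obtain ⟨P, hPF, hPsq, hP0, hFP, hA⟩ := exists_P0 hF0 hv0 hΨS hode
  have hA' : P + (X ^ (Fintype.card K) - X) * derivative P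
        = - (C β₁ * (P * F ^ r₁) + C β₂ * (P * F ^ (r₁ * (p ^ κ + 1)))) := by
    rw [hA, hΨ]; ring
  have hP2 := derivative2_P hF0 hv1 hv2 hFP hA'
  have hclimb : ∀ j, 1 ≤ j → j ≤ κ → ∃ N ρ₀ ρ₁ : K[X], F = P ^ (v % p ^ j) * N ^ p ^ j ∧
      P = ρ₀ ^ p ^ j + X * ρ₁ ^ p ^ j := by
    intro j hj
    induction j, hj using Nat.le_induction with
    | base => intro _; exact climb_base hPsq hP0 hFP hP2
    | succ j hj ih =>
      intro hjκ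
      exact climb_step hq hκe hrv hj hjκ hF0 hPsq hP0 hA' hd (hRj j hj hjκ) (ih (by omega))
  obtain ⟨N, ρ₀, ρ₁, h1, h2⟩ := hclimb κ hκ le_rfl
  have hvlt : v < p ^ κ := by
    rw [← hrv]
    have : v ≤ r₁ * v := Nat.le_mul_of_pos_left v (Nat.pos_of_ne_zero hr0)
    omega
  rw [Nat.mod_eq_of_lt hvlt] at h1
  have hP' := derivative_form hκ0 h2
  refine ⟨P, N, ρ₀, ρ₁, h1, h2, hP0, ?_, ?_, coprime_form hκ0 hPsq h2, hP', hA'⟩
  · rintro rfl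
    rw [zero_pow (pow_ne_zero _ hp0.ne'), mul_zero] at h1
    exact hF0 h1
  · rintro rfl
    rw [zero_pow (pow_ne_zero _ hp0.ne')] at hP'
    rw [hP', mul_zero, zero_mul] at hFP
    have hF' : derivative F = 0 := (mul_eq_zero.1 hFP).resolve_right hP0
    rw [hF', mul_zero] at hode
    have h3 : C (v : K) * (F * Ψ) = 0 := by linear_combination hode
    rcases mul_eq_zero.1 h3 with h | h
    · exact hv0 (C_eq_zero.1 h)
    · rcases mul_eq_zero.1 h with h | h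
      · exact hF0 h
      · exact hΨ0 h

end MV286
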