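import Pool.Agent.V11286.MV.Double
import Pool.Agent.V11286.MV.Common
import Pool.Agent.V11286.MV.Comb

/-! Root extraction up to associates, radicals, and divisors of `C N * ϖ ^ v`. -/

set_option linter.unusedSectionVars false

namespace MV286

open Polynomial

variable {K : Type*} [Field K]

theorem assoc_root {A B : K[X]} {m : ℕ} (hm : m ≠ 0) (h : Associated (A ^ m) (B ^ m)) :
    Associated A B :=
  associated_of_dvd_dvd
    ((UniqueFactorizationMonoid.pow_dvd_pow_iff_dvd hm).1 h.dvd)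
    ((UniqueFactorizationMonoid.pow_dvd_pow_iff_dvd hm).1 h.symm.dvd)

theorem assoc_coprime_root {N n : K[X]} {d w : ℕ} (hn : n ≠ 0) (hw : 1 < w)
    (hcop : Nat.Coprime d w) (h : Associated (N ^ d) (n ^ w)) :
    ∃ N₁ : K[X], Associated N (N₁ ^ w) := by
  have hN : N ≠ 0 := by
    intro hN0
    have hd : d ≠ 0 := by
      intro hd
      rw [hd, Nat.coprime_zero_left] at hcop
      omega
    rw [hN0, zero_pow hd] at h
    have h0 : n ^ w = 0 := (Associated.eq_zero_iff h).1 (Eq.refl (0 : K[X]))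
    exact pow_ne_zero w hn h0
  obtain ⟨α, hα', hα⟩ := Nat.exists_mul_mod_eq_one_of_coprime hcop hw
  obtain ⟨l, hl⟩ : ∃ l, d * α = w * l + 1 := by
    refine ⟨d * α / w, ?_⟩
    have h1 := Nat.div_add_mod (d * α) w
    rw [hα] at h1
    exact h1.symm
  have e1 : N * (N ^ l) ^ w = (N ^ d) ^ α := by
    have e3 : N ^ (l * w + 1) = (N ^ l) ^ w * N := by rw [pow_succ, pow_mul]
    have e4 : (N ^ d) ^ α = N ^ (d * α) := (pow_mul N d α).symm
    rw [e4, hl, mul_comm w l, e3, mul_comm]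
  have e2 : (n ^ α) ^ w = (n ^ w) ^ α := pow_right_comm n α w
  have h3 : Associated (N * (N ^ l) ^ w) ((n ^ α) ^ w) := by
    rw [e1, e2]
    exact Associated.pow_pow h
  have hdv : (N ^ l) ^ w ∣ (n ^ α) ^ w := (dvd_mul_left _ _).trans h3.dvd
  have h4 : N ^ l ∣ n ^ α :=
    (UniqueFactorizationMonoid.pow_dvd_pow_iff_dvd (by omega : w ≠ 0)).1 hdv
  obtain ⟨N₁, hN₁⟩ := h4
  refine ⟨N₁, ?_⟩
  have h5 : (n ^ α) ^ w = (N ^ l) ^ w * N₁ ^ w := by rw [hN₁, mul_pow]
  rw [h5, mul_comm N] at h3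
  have h6 : (N ^ l) ^ w ≠ 0 := pow_ne_zero _ (pow_ne_zero _ hN)
  exact Associated.of_mul_left h3 (Associated.refl _) h6

theorem assoc_C {A B : K[X]} (h : Associated A B) : ∃ c : K, c ≠ 0 ∧ A = C c * B := by
  obtain ⟨u, hu⟩ := h.symm
  obtain ⟨c, hc, hcu⟩ := isUnit_iff.1 u.isUnit
  exact ⟨c, hc.ne_zero, by rw [hcu, ← hu]; ring⟩

theorem exists_radical {σ : Type*} {A : MvPolynomial σ K} (hA : A ≠ 0) :
    ∃ (g : MvPolynomial σ K) (k : ℕ), IsRadical g ∧ g ∣ A ∧ A ∣ g ^ k := by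
  classical
  let : StrongNormalizationMonoid (MvPolynomial σ K) :=
    UniqueFactorizationMonoid.strongNormalizationMonoid
  obtain ⟨k, hk⟩ := UniqueFactorizationMonoid.exists_dvd_radical_self_pow hA
  exact ⟨UniqueFactorizationMonoid.radical A, k, UniqueFactorizationMonoid.isRadical_radical,
    UniqueFactorizationMonoid.radical_dvd_self, hk⟩

/-- the divisors of `C N * ϖ ^ v` -/
theorem dvd_C_mul_pow {N : K[X]} {ϖ G : K[X][X]} {v : ℕ} (hN : N ≠ 0) (hϖ : Prime ϖ)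
    (hϖd : ϖ.natDegree = 1) (hG : G ∣ C N * ϖ ^ v) :
    ∃ m : K[X], G = C m * ϖ ^ G.natDegree := by
  have hprod : C N * ϖ ^ v ≠ 0 := mul_ne_zero (C_ne_zero.2 hN) (pow_ne_zero _ hϖ.ne_zero)
  have hG0 : G ≠ 0 := ne_zero_of_dvd_ne_zero hprod hG
  obtain ⟨i, G3, h1, h2⟩ := WfDvdMonoid.max_power_factor hG0 hϖ.irreducible
  have hG30 : G3 ≠ 0 := by rintro rfl; exact h1 (dvd_zero _)
  have h3 : G3 ∣ C N * ϖ ^ v := (Dvd.intro_left _ h2.symm).trans hG
  have h4 : IsRelPrime G3 (ϖ ^ v) := by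
    apply IsRelPrime.pow_right
    exact (hϖ.irreducible.isRelPrime_iff_not_dvd.2 h1).symm
  have h5 : G3 ∣ C N := h4.dvd_of_dvd_mul_right h3
  have h6 : G3.natDegree = 0 := by
    have := natDegree_le_of_dvd h5 (C_ne_zero.2 hN)
    rw [natDegree_C] at this
    omega
  obtain ⟨m, hm⟩ := natDegree_eq_zero.1 h6
  have h7 : G.natDegree = i := by
    rw [h2, natDegree_mul (pow_ne_zero _ hϖ.ne_zero) hG30, natDegree_pow, hϖd, h6]; ring
  exact ⟨m, by rw [h7, hm, mul_comm, ← h2]⟩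

theorem rot_radical {p : ℕ} [hp : Fact p.Prime] [CharP K p] [PerfectRing K p] {β n : ℕ}
    {g : MvPolynomial (Fin (n + 1)) K} (hg : IsRadical g) : IsRadical (rot K p β n g) := by
  intro k y hy
  obtain ⟨y', rfl⟩ := (rot_bijective (K := K) (p := p) β n).2 y
  rw [← map_pow] at hy
  obtain ⟨z, hz⟩ := hy
  obtain ⟨z', rfl⟩ := (rot_bijective (K := K) (p := p) β n).2 z
  rw [← map_mul] at hz
  have h1 := (rot_bijective (K := K) (p := p) β n).1 hz
  have h2 : g ∣ y' ^ k := ⟨z', h1⟩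
  exact map_dvd _ (hg k y' h2)

/-- the radical of a rotation invariant polynomial is rotation invariant up to a constant -/
theorem rot_radical_inv {p : ℕ} [hp : Fact p.Prime] [CharP K p] [PerfectRing K p] {β n k : ℕ}
    {A g : MvPolynomial (Fin (n + 1)) K} (hA0 : A ≠ 0) (hA : rot K p β n A = A) (hg : IsRadical g)
    (hgA : g ∣ A) (hAg : A ∣ g ^ k) : ∃ c : K, c ≠ 0 ∧ g = MvPolynomial.C c * rot K p β n g := by
  have h1 : rot K p β n g ∣ g := by
    apply rot_radical hg k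
    refine dvd_trans ?_ hAg
    rw [← hA]
    exact map_dvd _ hgA
  have hg0 : g ≠ 0 := ne_zero_of_dvd_ne_zero hA0 hgA
  obtain ⟨u, hu⟩ := h1
  have hrg0 : rot K p β n g ≠ 0 := by
    intro h; rw [h, zero_mul] at hu; exact hg0 hu
  have hu0 : u ≠ 0 := by rintro rfl; rw [mul_zero] at hu; exact hg0 hu
  have hsum : ∑ j, (rot K p β n g).degreeOf j = ∑ j, g.degreeOf j := by
    rw [← (Equiv.ofBijective _ (rfun_bijective n)).sum_comp]
    apply Finset.sum_congr rfl
    intro j _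
    exact degreeOf_rot β n g j
  have hsum2 : ∑ j, g.degreeOf j = ∑ j, (rot K p β n g).degreeOf j + ∑ j, u.degreeOf j := by
    rw [← Finset.sum_add_distrib]
    apply Finset.sum_congr rfl
    intro j _
    conv_lhs => rw [hu]
    rw [MvPolynomial.degreeOf_mul_eq hrg0 hu0]
  have hsum3 : ∑ j, u.degreeOf j = 0 := by omega
  have hudeg : ∀ j, u.degreeOf j = 0 := fun j =>
    Finset.sum_eq_zero_iff.1 hsum3 j (Finset.mem_univ j)
  obtain ⟨c, rfl⟩ := const_of_degreeOf hudeg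
  refine ⟨c, ?_, ?_⟩
  · rintro rfl; exact hu0 (by simp)
  · conv_lhs => rw [hu]
    ring

end MV286
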