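import Pool.Agent.V11286.MV.Assoc

/-! The one dimensional case. -/

set_option linter.unusedSectionVars false

namespace MV286

open Polynomial

variable {K : Type*} [Field K] [Fintype K] {p : ℕ} [hp : Fact p.Prime] [CharP K p]
  [PerfectRing K p]

/-- structure theorem in the one dimensional case -/
theorem caseI_struct {κ n v r : ℕ} (hq : Fintype.card K = (p ^ κ) ^ (n + 1)) (hκ : 1 ≤ κ)
    (hrv : r * v + 1 = p ^ κ) (hr : 2 ≤ r) (hmin : ∀ j, 1 ≤ j → j < κ → ¬ r ∣ p ^ j - 1)
    {F : K[X]} (hF : 0 < F.natDegree) (hval : ∀ a : K, F.eval a = 0 ∨ (F.eval a) ^ r = 1)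
    (hdeg : r * F.natDegree < Fintype.card K) :
    ∃ P N ρ₀ ρ₁ : K[X], F = P ^ v * N ^ p ^ κ ∧ P = ρ₀ ^ p ^ κ + X * ρ₁ ^ p ^ κ ∧
      P ≠ 0 ∧ N ≠ 0 ∧ ρ₁ ≠ 0 ∧ IsCoprime ρ₀ ρ₁ ∧
      ρ₀ + X ^ (p ^ κ) ^ n * ρ₁ = P * N ^ r := by
  have hp0 : 0 < p := hp.out.pos
  have hκ0 : κ ≠ 0 := by omega
  have hv0 : v ≠ 0 := by
    rintro rfl
    have := Nat.one_lt_pow hκ0 hp.out.one_lt
    omega
  have hstruct := common (K := K) (p := p) (F := F) (v := v) (r₁ := r) (R := r)
    (κ := κ) (e := κ * (n + 1)) (β₁ := -1) (β₂ := 0) (by rw [hq, ← pow_mul])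
    (Nat.le_mul_of_pos_right κ (Nat.succ_pos n)) hκ hrv hF
    (by
      have h1 : (1 + C (-1 : K) * F ^ r + C (0 : K) * F ^ (r * (p ^ κ + 1))).natDegree
          ≤ r * F.natDegree := by
        rw [C_0, zero_mul, add_zero]
        refine (natDegree_add_le _ _).trans (max_le ?_ ?_)
        · rw [natDegree_one]; exact Nat.zero_le _
        · exact (natDegree_C_mul_le _ _).trans natDegree_pow_le
      refine (natDegree_mul_le.trans (Nat.add_le_add_left h1 _)).trans (le_of_eq ?_)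
      ring)
    hr hdeg
    (by
      intro a
      rw [C_0, zero_mul, add_zero, eval_mul, eval_add, eval_one, eval_mul, eval_C, eval_pow]
      rcases hval a with h | h
      · rw [h, zero_mul]
      · rw [h]; ring)
    (by
      intro j hj1 hj2
      obtain ⟨c, hc⟩ := exp_arith (j := j) hrv hj2.le
      have hpj : 2 ≤ p ^ j := by
        calc 2 ≤ p := hp.out.two_le
          _ ≤ p ^ j := Nat.le_self_pow (by omega) p
      have hc2 : 2 ≤ c := by
        by_contra hlt
        have hc01 : c = 0 ∨ c = 1 := by omega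
        rcases hc01 with rfl | rfl
        · omega
        · apply hmin j hj1 hj2
          exact ⟨v % p ^ j, by omega⟩
      have : 2 * p ^ j ≤ c * p ^ j := Nat.mul_le_mul_right _ hc2
      omega)
    (by
      intro h0
      rw [C_0, zero_mul, add_zero] at h0
      have h1 : F ^ r = 1 := by
        rw [C_neg, C_1] at h0
        linear_combination - h0
      have h2 := congrArg natDegree h1
      rw [natDegree_pow, natDegree_one] at h2
      rcases Nat.mul_eq_zero.1 h2 with h | h <;> omega)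
  obtain ⟨P, N, ρ₀, ρ₁, hFP, hPρ, hP0, hN0, hρ₁0, hcop, hP', hA⟩ := hstruct
  refine ⟨P, N, ρ₀, ρ₁, hFP, hPρ, hP0, hN0, hρ₁0, hcop, ?_⟩
  apply pow_char_pow_inj (p := p) κ
  have h1 : (ρ₀ + X ^ (p ^ κ) ^ n * ρ₁) ^ p ^ κ
      = P + (X ^ (Fintype.card K) - X) * derivative P := by
    rw [add_pow_char_pow, mul_pow, pow_pow_succ', ← hq, hP']
    conv_rhs => rw [hPρ]
    ring
  have h2 : P * F ^ r = (P * N ^ r) ^ p ^ κ := by
    rw [hFP, mul_pow, mul_pow, ← pow_mul, ← pow_mul, ← pow_mul, mul_comm v r,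
      mul_comm (p ^ κ) r, ← mul_assoc, ← pow_succ', hrv]
  rw [h1, hA, C_0, zero_mul, add_zero, h2, C_neg, C_1]
  ring

omit [Fintype K] [PerfectRing K p] hp [CharP K p] in
theorem isUnit_of_sq_dvd {M M' : Type*} [CommRing M] [CommRing M'] (e : M ≃+* M') {g : M}
    (hg : Squarefree g) {π : M'} (h : π ^ 2 ∣ e g) : IsUnit π := by
  obtain ⟨z, hz⟩ := h
  have h2 : (e.symm π) * (e.symm π) ∣ g := by
    refine ⟨e.symm z, ?_⟩
    rw [← map_mul, ← map_mul, ← sq, ← hz, RingEquiv.symm_apply_apply]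
  have h3 : IsUnit (e.symm π) := hg _ h2
  have h4 : IsUnit (e (e.symm π)) := h3.map e
  rwa [RingEquiv.apply_symm_apply] at h4

omit [Fintype K] [PerfectRing K p] hp [CharP K p] in
theorem radical_part {n k v : ℕ} {A g : MvPolynomial (Fin (n + 1)) K}
    (e : MvPolynomial (Fin (n + 1)) K ≃+* (MvPolynomial (Fin n) K)[X]) (hA0 : A ≠ 0)
    (hgrad : IsRadical g) (hgA : g ∣ A) (hAg : A ∣ g ^ k)
    {π : (MvPolynomial (Fin n) K)[X]} (hπ : Prime π) (hπd : π.natDegree = 1)
    (hπ2 : π ^ 2 ∣ e A) (hAdeg : (e A).natDegree = v) :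
    ∃ h' : MvPolynomial (Fin (n + 1)) K, A = g * h' ∧ g ≠ 0 ∧ h' ≠ 0 ∧ 1 ≤ (e g).natDegree ∧
      (e g).natDegree < v ∧ (e g).natDegree + (e h').natDegree = v := by
  obtain ⟨h', hh'⟩ := hgA
  have hg0 : g ≠ 0 := by rintro rfl; rw [zero_mul] at hh'; exact hA0 hh'
  have hh0 : h' ≠ 0 := by rintro rfl; rw [mul_zero] at hh'; exact hA0 hh'
  have hfg0 : e g ≠ 0 := by
    intro h; exact hg0 ((map_eq_zero_iff e e.injective).1 h)
  have hfh0 : e h' ≠ 0 := by
    intro h; exact hh0 ((map_eq_zero_iff e e.injective).1 h)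
  have hfsA : e A = e g * e h' := by rw [hh', map_mul]
  have hπg : π ∣ e g := by
    obtain ⟨z, hz⟩ := hAg
    have h0 : e A ∣ e g ^ k := ⟨e z, by rw [← map_pow, hz, map_mul]⟩
    have h1 : π ∣ e g ^ k := (dvd_pow_self π two_ne_zero).trans (hπ2.trans h0)
    exact hπ.dvd_of_dvd_pow h1
  have hπh : π ∣ e h' := by
    by_contra hnd
    rw [hfsA] at hπ2
    have h1 : π ^ 2 ∣ e g := hπ.pow_dvd_of_dvd_mul_right 2 hnd hπ2
    exact hπ.not_isUnit (isUnit_of_sq_dvd e (hgrad.squarefree hg0) h1)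
  have hsumdeg : (e g).natDegree + (e h').natDegree = v := by
    rw [← hAdeg, hfsA, natDegree_mul hfg0 hfh0]
  have h1 := natDegree_le_of_dvd hπg hfg0
  have h2 := natDegree_le_of_dvd hπh hfh0
  exact ⟨h', hh', hg0, hh0, by omega, by omega, hsumdeg⟩

theorem caseI_descend {κ n v r : ℕ} (hq : Fintype.card K = (p ^ κ) ^ (n + 1)) (hκ : 1 ≤ κ)
    (hrv : r * v + 1 = p ^ κ) (hr : 2 ≤ r) (hmin : ∀ j, 1 ≤ j → j < κ → ¬ r ∣ p ^ j - 1)
    (hv : 1 < v)
    {F : K[X]} (hF : 0 < F.natDegree) (hval : ∀ a : K, F.eval a = 0 ∨ (F.eval a) ^ r = 1)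
    (hdeg : r * F.natDegree < Fintype.card K) :
    ∃ (γ w : ℕ) (c : K) (F₁ : K[X]), v = γ * w ∧ 1 < w ∧ F = C c * F₁ ^ w := by
  have hp0 : 0 < p := hp.out.pos
  have hb0 : 0 < p ^ κ := pow_pos hp0 κ
  have hκ0 : κ ≠ 0 := by omega
  have hv0 : v ≠ 0 := by omega
  have hF0 : F ≠ 0 := by rintro rfl; simp at hF
  have hvQ : v < p ^ κ := by
    have : v ≤ r * v := Nat.le_mul_of_pos_left v (by omega)
    omega
  have hFq : F.natDegree < Fintype.card K := by
    have : F.natDegree ≤ r * F.natDegree := Nat.le_mul_of_pos_left _ (by omega)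
    omega
  obtain ⟨P, N, ρ₀, ρ₁, hFP, hPρ, hP0, hN0, hρ₁0, hcop, hL⟩ :=
    caseI_struct hq hκ hrv hr hmin hF hval hdeg
  have hFL : F = N * (X ^ (p ^ κ) ^ n * ρ₁ + ρ₀) ^ v := by
    rw [add_comm, hL, mul_pow, ← pow_mul, hFP, ← hrv, pow_succ]; ring
  -- the invariant lift
  have hfix : ∀ a : K, (F.eval a) ^ p ^ κ = F.eval a := by
    intro a
    rcases hval a with h | h
    · rw [h, zero_pow hb0.ne']
    · rw [← hrv, pow_succ, pow_mul, h, one_pow, one_mul]
  obtain ⟨A, hA, hAF, hArot⟩ := exists_inv_lift (p := p) (β := κ) (n := n) hq hFq hfix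
  have hA0 : A ≠ 0 := by
    rintro rfl
    rw [map_zero] at hAF
    exact hF0 hAF.symm
  set fs := MvPolynomial.finSuccEquiv K n with hfs
  set μ := (sb K (p ^ κ) n).toRingHom with hμ
  have hbox : ∀ i, Box (p ^ κ) ((fs A).coeff i) := by
    intro i k
    exact lt_of_le_of_lt (MvPolynomial.degreeOf_coeff_finSuccEquiv A k i) (hA _)
  -- the top expansion
  have hmap : (fs A).map μ = C N * (C ρ₁ * X + C ρ₀) ^ v := by
    apply eval_X_pow_inj (M := (p ^ κ) ^ n)
    · intro i
      rw [coeff_map]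
      exact natDegree_sb_lt hb0 (hbox i)
    · intro i
      rw [coeff_C_mul, coeff_lin_pow]
      by_cases hi : i ≤ v
      · have hd0 := natDegree_form0 hκ0 hPρ
        have hd1 := natDegree_form1 hκ0 hPρ
        have hFd : F.natDegree = v * P.natDegree + p ^ κ * N.natDegree := by
          rw [hFP, natDegree_mul (pow_ne_zero _ hP0) (pow_ne_zero _ hN0), natDegree_pow,
            natDegree_pow]
        have h1 : (N * (ρ₁ ^ i * ρ₀ ^ (v - i) * ((v.choose i : ℕ) : K[X]))).natDegree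
            ≤ N.natDegree + (i * ρ₁.natDegree + (v - i) * ρ₀.natDegree) := by
          refine natDegree_mul_le.trans (Nat.add_le_add_left ?_ _)
          refine natDegree_mul_le.trans ?_
          rw [natDegree_natCast, add_zero]
          exact natDegree_mul_le.trans (add_le_add natDegree_pow_le natDegree_pow_le)
        refine lt_of_le_of_lt h1 ?_
        have h2 : p ^ κ * (N.natDegree + (i * ρ₁.natDegree + (v - i) * ρ₀.natDegree))
            < p ^ κ * (p ^ κ) ^ n := by
          calc p ^ κ * (N.natDegree + (i * ρ₁.natDegree + (v - i) * ρ₀.natDegree))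
              = p ^ κ * N.natDegree + (i * (p ^ κ * ρ₁.natDegree)
                + (v - i) * (p ^ κ * ρ₀.natDegree)) := by ring
            _ ≤ p ^ κ * N.natDegree + (i * P.natDegree + (v - i) * P.natDegree) :=
                Nat.add_le_add_left (add_le_add (Nat.mul_le_mul_left _ hd1)
                  (Nat.mul_le_mul_left _ hd0)) _
            _ = F.natDegree := by
                rw [hFd, ← Nat.add_mul]
                have : i + (v - i) = v := by omega
                rw [this]; ring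
            _ < Fintype.card K := hFq
            _ = p ^ κ * (p ^ κ) ^ n := by rw [hq, pow_succ']
        exact Nat.lt_of_mul_lt_mul_left h2
      · rw [Nat.choose_eq_zero_of_lt (by omega), Nat.cast_zero, mul_zero, mul_zero, natDegree_zero]
        exact pow_pos hb0 _
    · rw [← sb_succ, hAF, eval_mul, eval_C, eval_pow, eval_add, eval_mul, eval_C, eval_X, eval_C,
        hFL]
      ring
  -- degree
  have hμinj : ∀ i, μ ((fs A).coeff i) = 0 → (fs A).coeff i = 0 := by
    intro i hi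
    apply sb_inj (hbox i) (B := 0)
    · intro k; rw [MvPolynomial.degreeOf_zero]; exact hb0
    · rw [map_zero]; exact hi
  have hlin0 : (C ρ₁ * X + C ρ₀ : K[X][X]) ≠ 0 := by
    intro h
    have := natDegree_linear (b := ρ₀) hρ₁0
    rw [h, natDegree_zero] at this
    omega
  have hΦdeg : (C N * (C ρ₁ * X + C ρ₀) ^ v : K[X][X]).natDegree = v := by
    rw [natDegree_C_mul hN0, natDegree_pow, natDegree_linear hρ₁0, mul_one]
  have hAdeg : (fs A).natDegree = v := by
    apply le_antisymm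
    · rw [natDegree_le_iff_coeff_eq_zero]
      intro i hi
      apply hμinj
      rw [← coeff_map, hmap]
      apply coeff_eq_zero_of_natDegree_lt
      rw [hΦdeg]; exact hi
    · rw [← hΦdeg, ← hmap]
      exact natDegree_map_le
  have hAall : ∀ j, A.degreeOf j = v := by
    intro j
    rw [degreeOf_inv hArot j, ← MvPolynomial.natDegree_finSuccEquiv]
    exact hAdeg
  have hCD : CDeg v (fs A) := by
    intro i k
    refine (MvPolynomial.degreeOf_coeff_finSuccEquiv A k i).trans ?_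
    rw [hAall]
  obtain ⟨π, hπ, hπd, hπ2⟩ := exists_sq_factor hrv hr hv hmin hN0 hρ₁0 hCD hmap
  -- the radical
  obtain ⟨g, k, hgrad, hgA, hAg⟩ := exists_radical hA0
  obtain ⟨c, hc0, hgc⟩ := rot_radical_inv hA0 hArot hgrad hgA hAg
  obtain ⟨h', hh', hg0, hh0, hDpos, hDv, hsumdeg⟩ :=
    radical_part fs.toRingEquiv hA0 hgrad hgA hAg hπ hπd hπ2 hAdeg
  change 1 ≤ (fs g).natDegree at hDpos
  change (fs g).natDegree < v at hDv
  change (fs g).natDegree + (fs h').natDegree = v at hsumdeg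
  have hfsA : fs A = fs g * fs h' := by rw [hh', map_mul]
  set D := (fs g).natDegree with hD
  -- factorisation of the image
  have hprod : (fs g).map μ * (fs h').map μ = C N * (C ρ₁ * X + C ρ₀) ^ v := by
    rw [← Polynomial.map_mul, ← hfsA, hmap]
  have hprod0 : (C N * (C ρ₁ * X + C ρ₀) ^ v : K[X][X]) ≠ 0 :=
    mul_ne_zero (C_ne_zero.2 hN0) (pow_ne_zero _ hlin0)
  have hG0 : (fs g).map μ ≠ 0 := by
    intro h; rw [h, zero_mul] at hprod; exact hprod0 hprod.symm
  have hH0 : (fs h').map μ ≠ 0 := by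
    intro h; rw [h, mul_zero] at hprod; exact hprod0 hprod.symm
  have hGdeg : ((fs g).map μ).natDegree = D := by
    have h1 : ((fs g).map μ).natDegree ≤ D := natDegree_map_le
    have h2 : ((fs h').map μ).natDegree ≤ (fs h').natDegree := natDegree_map_le
    have h3 : ((fs g).map μ).natDegree + ((fs h').map μ).natDegree = v := by
      rw [← natDegree_mul hG0 hH0, hprod, hΦdeg]
    omega
  have hϖ : Prime (C ρ₁ * X + C ρ₀ : K[X][X]) :=
    (irreducible_C_mul_X_add_C hρ₁0 hcop.symm.isRelPrime).prime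
  obtain ⟨m, hm⟩ := dvd_C_mul_pow hN0 hϖ (natDegree_linear hρ₁0)
    (Dvd.intro _ hprod)
  rw [hGdeg] at hm
  have hm0 : m ≠ 0 := by
    rintro rfl; rw [C_0, zero_mul] at hm; exact hG0 hm
  -- the two evaluations
  have he1 : sb K (p ^ κ) (n + 1) g = m * (P * N ^ r) ^ D := by
    rw [sb_succ]
    change eval _ ((fs g).map μ) = _
    rw [hm, eval_mul, eval_C, eval_pow, eval_add, eval_mul, eval_C, eval_X, eval_C, ← hL]
    ring
  have he2 : sb K (p ^ κ) (n + 1) (rot K p κ n g) = m ^ p ^ κ * P ^ D := by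
    rw [sb_rot]
    have h1 : (fs g).eval₂ ((iterateFrobenius K[X] p κ).comp μ) X
        = ((fs g).map μ).eval₂ (iterateFrobenius K[X] p κ) X := by
      rw [eval₂_map]
    change (fs g).eval₂ ((iterateFrobenius K[X] p κ).comp μ) X = _
    rw [h1, hm, eval₂_mul, eval₂_C, eval₂_pow, eval₂_add, eval₂_mul, eval₂_C, eval₂_X, eval₂_C,
      iterateFrobenius_def, iterateFrobenius_def, iterateFrobenius_def]
    congr 2
    rw [hPρ]; ring
  have he3 : m * (P * N ^ r) ^ D = C c * (m ^ p ^ κ * P ^ D) := by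
    rw [← he1, ← he2]
    conv_lhs => rw [hgc]
    rw [map_mul, sb_C]
  have he4 : (N ^ D) ^ r = C c * (m ^ v) ^ r := by
    have h1 : m * P ^ D ≠ 0 := mul_ne_zero hm0 (pow_ne_zero _ hP0)
    apply mul_left_cancel₀ h1
    have e1 : (N ^ D) ^ r = (N ^ r) ^ D := pow_right_comm _ _ _
    have e2 : m ^ p ^ κ = m * (m ^ v) ^ r := by
      rw [← hrv, pow_succ, mul_comm r v, pow_mul]; ring
    calc m * P ^ D * (N ^ D) ^ r = m * (P * N ^ r) ^ D := by rw [e1, mul_pow]; ring
      _ = m * P ^ D * (C c * (m ^ v) ^ r) := by rw [he3, e2]; ring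
  have hr0 : r ≠ 0 := by omega
  have hassoc : Associated (N ^ D) (m ^ v) := by
    apply assoc_root hr0
    rw [he4]
    exact (associated_isUnit_mul_left_iff (isUnit_C.2 (IsUnit.mk0 c hc0))).2 (Associated.refl _)
  -- divide by the gcd
  set γ := Nat.gcd D v with hγ
  have hγpos : 0 < γ := Nat.gcd_pos_of_pos_right _ (by omega)
  obtain ⟨D', hD'⟩ := Nat.gcd_dvd_left D v
  obtain ⟨w, hw⟩ := Nat.gcd_dvd_right D v
  rw [← hγ] at hD' hw
  have hcopw : Nat.Coprime D' w := by
    have h1 := Nat.coprime_div_gcd_div_gcd (m := D) (n := v) hγpos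
    rw [← hγ] at h1
    have e1 : D / γ = D' := by
      conv_lhs => rw [hD']
      exact Nat.mul_div_cancel_left _ hγpos
    have e2 : v / γ = w := by
      conv_lhs => rw [hw]
      exact Nat.mul_div_cancel_left _ hγpos
    rwa [e1, e2] at h1
  have hγD : γ ≤ D := Nat.gcd_le_left v hDpos
  have hw1 : 1 < w := by
    by_contra hle
    have : γ * w ≤ γ * 1 := Nat.mul_le_mul_left _ (by omega)
    omega
  have hassoc2 : Associated (N ^ D') (m ^ w) := by
    apply assoc_root hγpos.ne'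
    rw [← pow_mul, ← pow_mul, mul_comm D', mul_comm w, ← hD', ← hw]
    exact hassoc
  obtain ⟨N₁, hN₁⟩ := assoc_coprime_root hm0 hw1 hcopw hassoc2
  obtain ⟨c₃, hc₃, hNc⟩ := assoc_C hN₁
  refine ⟨γ, w, c₃ ^ p ^ κ, P ^ γ * N₁ ^ p ^ κ, hw, hw1, ?_⟩
  have e1 : P ^ v = (P ^ γ) ^ w := by rw [← pow_mul, ← hw]
  have e2 : (N₁ ^ w) ^ p ^ κ = (N₁ ^ p ^ κ) ^ w := pow_right_comm N₁ w (p ^ κ)
  have e3 : N ^ p ^ κ = C (c₃ ^ p ^ κ) * (N₁ ^ w) ^ p ^ κ := by
    rw [hNc, mul_pow, ← C_pow]
  rw [hFP, e3, e1, e2, mul_pow (P ^ γ)]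
  ring

/-- The one dimensional case. -/
theorem caseI {κ n : ℕ} (hq : Fintype.card K = (p ^ κ) ^ (n + 1)) (hκ : 1 ≤ κ) :
    ∀ v r : ℕ, r * v + 1 = p ^ κ → 2 ≤ r → (∀ j, 1 ≤ j → j < κ → ¬ r ∣ p ^ j - 1) →
    ∀ F : K[X], 0 < F.natDegree → (∀ a : K, F.eval a = 0 ∨ (F.eval a) ^ r = 1) →
    r * F.natDegree < Fintype.card K → ∃ (c : K) (g : K[X]), F = C c * g ^ v := by
  intro v
  induction v using Nat.strong_induction_on with
  | _ v ih =>
    intro r hrv hr hmin F hF hval hdeg
    have hv0 : v ≠ 0 := by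
      rintro rfl
      have := Nat.one_lt_pow (by omega : κ ≠ 0) hp.out.one_lt
      omega
    by_cases hv1 : v = 1
    · exact ⟨1, F, by rw [hv1, C_1, pow_one, one_mul]⟩
    obtain ⟨γ, w, c, F₁, hγw, hw, hFc⟩ :=
      caseI_descend hq hκ hrv hr hmin (by omega) hF hval hdeg
    have hγ0 : γ ≠ 0 := by rintro rfl; rw [zero_mul] at hγw; exact hv0 hγw
    have hγv : γ < v := by
      have : γ * 1 < γ * w := Nat.mul_lt_mul_of_pos_left hw (by omega)
      omega
    have hc0 : c ≠ 0 := by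
      rintro rfl
      rw [C_0, zero_mul] at hFc
      rw [hFc] at hF
      simp at hF
    have hFdeg : F.natDegree = w * F₁.natDegree := by
      rw [hFc, natDegree_C_mul hc0, natDegree_pow]
    have hFq : F.natDegree < Fintype.card K := by
      have : F.natDegree ≤ r * F.natDegree := Nat.le_mul_of_pos_left _ (by omega)
      omega
    -- a point where F does not vanish
    obtain ⟨a₀, ha₀⟩ : ∃ a₀ : K, F.eval a₀ ≠ 0 := by
      by_contra hne
      push Not at hne
      have := eq_zero_of_eval hFq hne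
      rw [this] at hF
      simp at hF
    have hs : F₁.eval a₀ ≠ 0 := by
      intro h
      apply ha₀
      rw [hFc, eval_mul, eval_pow, h, zero_pow (by omega), mul_zero]
    have hF₁pos : 0 < F₁.natDegree := by
      rw [hFdeg] at hF
      exact Nat.pos_of_mul_pos_left hF
    have hval1 : ∀ a : K, F.eval a ≠ 0 → c ^ r * (F₁.eval a) ^ (r * w) = 1 := by
      intro a ha
      have h1 := (hval a).resolve_left ha
      rw [hFc, eval_mul, eval_C, eval_pow, mul_pow, ← pow_mul, mul_comm w r] at h1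
      exact h1
    set s := F₁.eval a₀ with hsdef
    obtain ⟨c₂, g, hg⟩ := ih γ hγv (r * w) (by rw [← hrv, hγw]; ring)
      (hr.trans (Nat.le_mul_of_pos_right r (by omega)))
      (fun j hj1 hj2 hdvd => hmin j hj1 hj2 ((dvd_mul_right r w).trans hdvd))
      (C s⁻¹ * F₁)
      (by rw [natDegree_C_mul (inv_ne_zero hs)]; exact hF₁pos)
      (by
        intro a
        by_cases ha : F.eval a = 0
        · left
          rw [hFc, eval_mul, eval_C, eval_pow] at ha
          have h1 := (mul_eq_zero.1 ha).resolve_left hc0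
          have h2 : F₁.eval a = 0 := pow_eq_zero_iff (by omega) |>.1 h1
          rw [eval_mul, h2, mul_zero]
        · right
          have h1 := hval1 a ha
          have h2 := hval1 a₀ ha₀
          have hcr : c ^ r ≠ 0 := pow_ne_zero _ hc0
          have h3 : (F₁.eval a) ^ (r * w) = s ^ (r * w) := by
            apply mul_left_cancel₀ hcr
            rw [h1, ← h2]
          rw [eval_mul, eval_C, mul_pow, h3, ← mul_pow, inv_mul_cancel₀ hs, one_pow])
      (by
        rw [natDegree_C_mul (inv_ne_zero hs)]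
        calc r * w * F₁.natDegree = r * F.natDegree := by rw [hFdeg]; ring
          _ < Fintype.card K := hdeg)
    refine ⟨c * (s * c₂) ^ w, g, ?_⟩
    have h1 : F₁ = C (s * c₂) * g ^ γ := by
      rw [C_mul, mul_assoc, ← hg, ← mul_assoc, ← C_mul, mul_inv_cancel₀ hs, C_1, one_mul]
    have h2 : C (c * (s * c₂) ^ w) = C c * C (s * c₂) ^ w := by rw [C_mul, C_pow]
    rw [h2, hFc, h1, mul_pow, ← pow_mul, ← hγw]
    ring

end MV286
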