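import Pool.Agent.V11286.MV.FinalLift

/-! The two dimensional case. -/

set_option linter.unusedSectionVars false

namespace MV286

open Polynomial

variable {K : Type*} [Field K] [Fintype K] {p : ℕ} [hp : Fact p.Prime] [CharP K p]
  [PerfectRing K p]

omit [Fintype K] [PerfectRing K p] in
theorem pow_fix {Q : ℕ} {x : K} (hx : x ^ Q = x) (k : ℕ) : x ^ Q ^ k = x := by
  induction k with
  | zero => simp
  | succ k ih => rw [pow_succ, pow_mul, ih, hx]

omit [Fintype K] [PerfectRing K p] in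
theorem lin_pow {κ : ℕ} {x y : K} (hx : x ^ p ^ κ = x) (hy : y ^ p ^ κ = y) (θ : K) (k : ℕ) :
    (x + y * θ) ^ (p ^ κ) ^ k = x + y * θ ^ (p ^ κ) ^ k := by
  have h1 := pow_fix hx k
  have h2 := pow_fix hy k
  have h3 : (p ^ κ) ^ k = p ^ (κ * k) := by rw [← pow_mul]
  rw [h3] at h1 h2 ⊢
  rw [add_pow_char_pow, mul_pow, h1, h2]

omit [Fintype K] in
theorem key_rel {κ : ℕ} {θ : K} (hθ : θ ^ p ^ κ ≠ θ) (l : ℕ) :
    ∃ c₀ c₁ : K, (∀ x y : K, x ^ p ^ κ = x → y ^ p ^ κ = y →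
      (x + y * θ) ^ (p ^ κ) ^ (l + 1) = c₀ * (x + y * θ) + c₁ * (x + y * θ) ^ p ^ κ) ∧
      (θ ^ (p ^ κ) ^ l ≠ θ → c₀ ≠ 0) := by
  have hne : θ - θ ^ p ^ κ ≠ 0 := sub_ne_zero.2 hθ.symm
  refine ⟨(θ ^ (p ^ κ) ^ (l + 1) - θ ^ p ^ κ) / (θ - θ ^ p ^ κ),
    1 - (θ ^ (p ^ κ) ^ (l + 1) - θ ^ p ^ κ) / (θ - θ ^ p ^ κ), ?_, ?_⟩
  · intro x y hx hy
    have h1 := lin_pow hx hy θ (l + 1)
    have h2 := lin_pow hx hy θ 1
    rw [pow_one] at h2
    rw [h1, h2]
    field_simp
    ring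
  · intro hl h0
    rw [div_eq_zero_iff] at h0
    rcases h0 with h0 | h0
    · apply hl
      have h3 : (θ ^ (p ^ κ) ^ l) ^ p ^ κ = θ ^ p ^ κ := by
        rw [← pow_mul, ← pow_succ]; exact sub_eq_zero.1 h0
      exact iterateFrobenius_inj K p κ (by simpa [iterateFrobenius_def] using h3)
    · exact hne h0

theorem caseII {κ N v r₁ : ℕ} (hq : Fintype.card K = (p ^ κ) ^ N) (hκ : 1 ≤ κ)
    (hrv : r₁ * v + 1 = p ^ κ) {θ : K} (hθ : θ ^ p ^ κ ≠ θ) {F : K[X]} (hF : 0 < F.natDegree)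
    (hval : ∀ a : K, ∃ x y : K, x ^ p ^ κ = x ∧ y ^ p ^ κ = y ∧ F.eval a = (x + y * θ) ^ v)
    (hdeg : r₁ * (p ^ κ + 1) * F.natDegree < Fintype.card K) :
    ∃ (c : K) (g : K[X]), F = C c * g ^ v := by
  have hp0 : 0 < p := hp.out.pos
  have hQ1 : 1 < p ^ κ := Nat.one_lt_pow (by omega) hp.out.one_lt
  have hr0 : r₁ ≠ 0 := by rintro rfl; omega
  have hv0 : v ≠ 0 := by rintro rfl; omega
  have hr1 : 1 ≤ r₁ := Nat.one_le_iff_ne_zero.2 hr0
  have hvQ : v < p ^ κ := by
    have : v ≤ r₁ * v := Nat.le_mul_of_pos_left v hr1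
    omega
  have hF0 : F ≠ 0 := by rintro rfl; simp at hF
  have hN0 : N ≠ 0 := by
    rintro rfl
    rw [pow_zero] at hq
    have := Fintype.one_lt_card (α := K)
    omega
  have hcast : ((v : ℕ) : K) ≠ 0 := by
    intro h
    have h1 : ((r₁ * v + 1 : ℕ) : K) = 0 := by
      rw [hrv]; push_cast; rw [CharP.cast_eq_zero K p, zero_pow (by omega)]
    push_cast at h1
    rw [h, mul_zero, zero_add] at h1
    exact one_ne_zero h1
  have hd1 : (p ^ κ + 1) * F.natDegree ≤ r₁ * (p ^ κ + 1) * F.natDegree := by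
    rw [mul_assoc]
    exact Nat.le_mul_of_pos_left _ hr1
  -- the common structure
  obtain ⟨c₀, c₁, hrel, hc₀⟩ := key_rel (K := K) (p := p) (κ := κ) hθ 1
  rw [pow_one] at hc₀
  have hc₀' : c₀ ≠ 0 := hc₀ hθ
  have hstruct := common (K := K) (p := p) (F := F) (v := v) (r₁ := r₁) (R := r₁ * (p ^ κ + 1))
    (κ := κ) (e := κ * N) (β₁ := c₁ / c₀) (β₂ := -1 / c₀) (by rw [hq, ← pow_mul])
    (Nat.le_mul_of_pos_right κ (Nat.pos_of_ne_zero hN0)) hκ hrv hF
    (by
      have hΨd : (1 + C (c₁ / c₀) * F ^ r₁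
          + C (-1 / c₀) * F ^ (r₁ * (p ^ κ + 1))).natDegree
          ≤ r₁ * (p ^ κ + 1) * F.natDegree := by
        refine (natDegree_add_le _ _).trans (max_le ((natDegree_add_le _ _).trans
          (max_le ?_ ?_)) ?_)
        · rw [natDegree_one]; exact Nat.zero_le _
        · refine (natDegree_C_mul_le _ _).trans (natDegree_pow_le.trans ?_)
          exact Nat.mul_le_mul_right _ (Nat.le_mul_of_pos_right _ (Nat.succ_pos _))
        · exact (natDegree_C_mul_le _ _).trans natDegree_pow_le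
      refine (natDegree_mul_le.trans (Nat.add_le_add_left hΨd _)).trans (le_of_eq ?_)
      ring)
    (by
      have : 1 * (1 + 1) ≤ r₁ * (p ^ κ + 1) := Nat.mul_le_mul hr1 (by omega)
      omega)
    hdeg
    (by
      intro a
      obtain ⟨x, y, hx, hy, hxy⟩ := hval a
      have hr := hrel x y hx hy
      set u := x + y * θ with hu
      rw [eval_mul, eval_add, eval_add, eval_one, eval_mul, eval_C, eval_pow, eval_mul, eval_C,
        eval_pow, hxy]
      by_cases hu0 : u = 0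
      · rw [hu0, zero_pow hv0, zero_mul]
      · have e1 : (u ^ v) ^ r₁ * u = u ^ p ^ κ := by
          rw [← pow_mul, ← pow_succ, mul_comm v r₁, hrv]
        have e2 : (u ^ v) ^ (r₁ * (p ^ κ + 1)) * u = u ^ (p ^ κ) ^ (1 + 1) := by
          rw [← pow_mul, ← pow_succ]
          congr 1
          have : v * (r₁ * (p ^ κ + 1)) + 1 = (r₁ * v) * (r₁ * v + 1 + 1) + 1 := by
            rw [hrv]; ring
          rw [this, ← hrv]; ring
        have e3 : u * (1 + c₁ / c₀ * (u ^ v) ^ r₁ + -1 / c₀ * (u ^ v) ^ (r₁ * (p ^ κ + 1))) = 0 := by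
          have : u * (1 + c₁ / c₀ * (u ^ v) ^ r₁ + -1 / c₀ * (u ^ v) ^ (r₁ * (p ^ κ + 1)))
              = u + c₁ / c₀ * ((u ^ v) ^ r₁ * u)
                + -1 / c₀ * ((u ^ v) ^ (r₁ * (p ^ κ + 1)) * u) := by ring
          rw [this, e1, e2, hr]
          field_simp
          ring
        rw [(mul_eq_zero.1 e3).resolve_left hu0, mul_zero])
    (by
      intro j _ hj2
      have h1 : 1 ≤ v % p ^ j := by
        rw [Nat.one_le_iff_ne_zero]
        intro h0
        have h2 : p ^ j ∣ v := Nat.dvd_of_mod_eq_zero h0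
        have h3 : p ^ j ∣ r₁ * v + 1 := by rw [hrv]; exact pow_dvd_pow p hj2.le
        have h4 : p ^ j ∣ 1 := (Nat.dvd_add_right (dvd_mul_of_dvd_right h2 r₁)).1 h3
        have h5 : 1 < p ^ j := Nat.one_lt_pow (by omega) hp.out.one_lt
        have := Nat.dvd_one.1 h4
        omega
      have h2 : p ^ j ≤ p ^ κ := Nat.pow_le_pow_right hp0 hj2.le
      calc p ^ j + 1 ≤ 1 * (p ^ κ + 1) * 1 := by omega
        _ ≤ r₁ * (p ^ κ + 1) * (v % p ^ j) := Nat.mul_le_mul (Nat.mul_le_mul_right _ hr1) h1)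
    (by
      intro h0
      have h1 : C (-1 / c₀) * F ^ (r₁ * (p ^ κ + 1)) = - (1 + C (c₁ / c₀) * F ^ r₁) := by
        linear_combination h0
      have h2 := congrArg natDegree h1
      rw [natDegree_C_mul (div_ne_zero (neg_ne_zero.2 one_ne_zero) hc₀'), natDegree_pow,
        natDegree_neg] at h2
      have h3 : (1 + C (c₁ / c₀) * F ^ r₁).natDegree ≤ r₁ * F.natDegree := by
        refine (natDegree_add_le _ _).trans (max_le ?_ ?_)
        · rw [natDegree_one]; exact Nat.zero_le _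
        · exact (natDegree_C_mul_le _ _).trans natDegree_pow_le
      rw [← h2] at h3
      have h4 : r₁ * F.natDegree * 1 < r₁ * F.natDegree * (p ^ κ + 1) :=
        Nat.mul_lt_mul_of_pos_left (by omega) (Nat.mul_pos hr1 hF)
      have h5 : r₁ * (p ^ κ + 1) * F.natDegree = r₁ * F.natDegree * (p ^ κ + 1) := by ring
      omega)
  obtain ⟨P, N', ρ₀, ρ₁, hFP, hPρ, hP0, hN'0, hρ₁0, -, hP', -⟩ := hstruct
  set E := (N' * ρ₁ ^ v) ^ p ^ κ with hE
  have hE0 : E ≠ 0 := pow_ne_zero _ (mul_ne_zero hN'0 (pow_ne_zero _ hρ₁0))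
  -- derivative identity
  have hFder : (derivative F) ^ v = C ((v : K) ^ v) * F ^ (v - 1) * E := by
    obtain ⟨w, hw⟩ := Nat.exists_eq_succ_of_ne_zero hv0
    have h1 : derivative F = C (v : K) * P ^ w * ρ₁ ^ p ^ κ * N' ^ p ^ κ := by
      rw [hFP, derivative_mul, derivative_pow_char_pow_eq_zero N' (by omega : κ ≠ 0),
        derivative_pow, hP', hw]
      simp only [Nat.succ_eq_add_one, Nat.add_sub_cancel]
      ring
    rw [h1, hE]
    conv_rhs => rw [hFP]
    have h2 : v - 1 = w := by omega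
    rw [h2, C_pow]
    simp only [mul_pow]
    rw [← pow_mul, ← pow_mul, ← pow_mul, ← pow_mul, ← pow_mul, ← pow_mul, hw]
    simp only [Nat.succ_eq_add_one]
    ring
  -- coefficient formulas
  have hcoefF : ∀ t, p ^ κ ∣ t → F.coeff (v + t) = E.coeff t := by
    intro t ht
    have h1 : F = N' ^ p ^ κ * (C 1 * X * ρ₁ ^ p ^ κ + ρ₀ ^ p ^ κ) ^ v := by
      rw [hFP, hPρ, C_1]; ring
    rw [h1, coeff_form hvQ ht, one_pow, one_mul]
  have hEQ : ∀ t ∈ E.support, p ^ κ ∣ t := by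
    intro t ht
    by_contra hnd
    exact (mem_support_iff.1 ht) (coeff_pow_char _ hnd)
  -- the period of θ
  set f : K → K := fun x => x ^ p ^ κ with hf
  set h := Function.minimalPeriod f θ with hh
  have hiter : ∀ k, f^[k] θ = θ ^ (p ^ κ) ^ k := by
    intro k
    rw [hf, pow_iterate]
  have hperN : Function.IsPeriodicPt f N θ := by
    change f^[N] θ = θ
    rw [hiter, ← hq, FiniteField.pow_card]
  have hdvd : h ∣ N := hperN.minimalPeriod_dvd
  have hh0 : 0 < h := hperN.minimalPeriod_pos (Nat.pos_of_ne_zero hN0)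
  have hθh : θ ^ (p ^ κ) ^ h = θ := by
    rw [← hiter]
    exact Function.isPeriodicPt_minimalPeriod f θ
  have hθl : ∀ l, l ≠ 0 → l < h → θ ^ (p ^ κ) ^ l ≠ θ := by
    intro l hl0 hlh h1
    apply Function.not_isPeriodicPt_of_pos_of_lt_minimalPeriod hl0 hlh
    change f^[l] θ = θ
    rw [hiter]; exact h1
  have hhN : h ≤ N := Nat.le_of_dvd (Nat.pos_of_ne_zero hN0) hdvd
  -- degree bounds
  have hdN : F.natDegree < (p ^ κ) ^ (N - 1) := by
    by_contra hge
    push Not at hge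
    have h1 : (p ^ κ + 1) * (p ^ κ) ^ (N - 1) ≤ (p ^ κ + 1) * F.natDegree :=
      Nat.mul_le_mul_left _ hge
    have h2 : (p ^ κ) ^ N = p ^ κ * (p ^ κ) ^ (N - 1) := by
      rw [← pow_succ']; congr 1; omega
    have h3 : (p ^ κ + 1) * (p ^ κ) ^ (N - 1) = p ^ κ * (p ^ κ) ^ (N - 1) + (p ^ κ) ^ (N - 1) := by
      ring
    rw [hq] at hdeg
    omega
  -- divisibility of the exponents of E
  have hEdvd : ∀ j, 1 ≤ j → j ≤ h → ∀ t ∈ E.support, (p ^ κ) ^ j ∣ t := by
    intro j hj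
    induction j, hj using Nat.le_induction with
    | base => intro _ t ht; rw [pow_one]; exact hEQ t ht
    | succ l hl ih =>
      intro hlh t ht
      obtain ⟨t', ht'⟩ := ih (by omega) t ht
      obtain ⟨d₀, d₁, hrel', hd₀⟩ := key_rel (K := K) (p := p) (κ := κ) hθ l
      have hd₀' : d₀ ≠ 0 := hd₀ (hθl l (by omega) (by omega))
      obtain ⟨G, hG1, hG2, hG3⟩ := exists_reduced_pow (K := K) (p := p) (κ := κ) (N := N)
        (s := l + 1) hq (by omega) (by omega) hdN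
      set Fc := F * (C d₀ + C d₁ * F ^ r₁) ^ v with hFc
      have hFcdeg : Fc.natDegree < Fintype.card K := by
        have h1 : Fc.natDegree ≤ F.natDegree + v * (r₁ * F.natDegree) := by
          refine natDegree_mul_le.trans (Nat.add_le_add_left ?_ _)
          refine natDegree_pow_le.trans (Nat.mul_le_mul_left _ ?_)
          refine (natDegree_add_le _ _).trans (max_le ?_ ?_)
          · rw [natDegree_C]; exact Nat.zero_le _
          · exact (natDegree_C_mul_le _ _).trans natDegree_pow_le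
        have h2 : F.natDegree + v * (r₁ * F.natDegree) = p ^ κ * F.natDegree := by
          rw [← hrv]; ring
        have h3 : (p ^ κ + 1) * F.natDegree = p ^ κ * F.natDegree + F.natDegree := by ring
        omega
      have hFcG : Fc = G := by
        apply eq_of_eval hFcdeg hG2
        intro a
        rw [hG1 a]
        obtain ⟨x, y, hx, hy, hxy⟩ := hval a
        have hr := hrel' x y hx hy
        set u := x + y * θ with hu
        rw [hFc, eval_mul, eval_pow, eval_add, eval_C, eval_mul, eval_C, eval_pow, hxy]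
        have e1 : (u ^ v) ^ r₁ * u = u ^ p ^ κ := by
          rw [← pow_mul, ← pow_succ, mul_comm v r₁, hrv]
        calc u ^ v * (d₀ + d₁ * (u ^ v) ^ r₁) ^ v
            = (d₀ * u + d₁ * ((u ^ v) ^ r₁ * u)) ^ v := by rw [← mul_pow]; ring
          _ = (u ^ (p ^ κ) ^ (l + 1)) ^ v := by rw [e1, ← hr]
          _ = (u ^ v) ^ (p ^ κ) ^ (l + 1) := pow_right_comm _ _ _
      obtain ⟨d₀', hd0⟩ := exists_root_C (K := K) (p := p) d₀ κ
      obtain ⟨d₁', hd1'⟩ := exists_root_C (K := K) (p := p) d₁ κ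
      have hFcform : Fc = N' ^ p ^ κ * (C d₀ * X * ρ₁ ^ p ^ κ
          + (C d₀' * ρ₀ + C d₁' * (P * N' ^ r₁)) ^ p ^ κ) ^ v := by
        have e1 : P * F ^ r₁ = (P * N' ^ r₁) ^ p ^ κ := by
          rw [hFP, mul_pow, mul_pow, ← pow_mul, ← pow_mul, ← pow_mul, mul_comm v r₁,
            mul_comm (p ^ κ) r₁, ← mul_assoc, ← pow_succ', hrv]
        have e2 : (C d₀' * ρ₀ + C d₁' * (P * N' ^ r₁)) ^ p ^ κ
            = C d₀ * ρ₀ ^ p ^ κ + C d₁ * (P * F ^ r₁) := by
          rw [add_pow_char_pow, mul_pow, mul_pow, ← C_pow, ← C_pow, hd0, hd1', e1]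
        have e3 : P * (C d₀ + C d₁ * F ^ r₁) = C d₀ * X * ρ₁ ^ p ^ κ
            + (C d₀' * ρ₀ + C d₁' * (P * N' ^ r₁)) ^ p ^ κ := by
          rw [e2, mul_add]
          conv_lhs => rw [show P * C d₀ = C d₀ * P by ring]
          conv_lhs => enter [1, 2]; rw [hPρ]
          ring
        rw [← e3, hFc, mul_pow]
        conv_lhs => enter [1]; rw [hFP]
        ring
      have hcoef : Fc.coeff (v + t) = d₀ ^ v * E.coeff t := by
        rw [hFcform, coeff_form hvQ (hEQ t ht)]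
      have hsup : v + t ∈ G.support := by
        rw [← hFcG, mem_support_iff, hcoef]
        exact mul_ne_zero (pow_ne_zero _ hd₀') (mem_support_iff.1 ht)
      have h5 := hG3 _ hsup
      rw [Nat.add_sub_cancel] at h5
      have hQl : p ^ κ ≤ (p ^ κ) ^ l := Nat.le_self_pow (by omega) _
      -- `t' % Q = 0`
      have h6 : t' % p ^ κ = 0 := by
        by_contra hne
        have h7 : (v + t) % (p ^ κ) ^ (l + 1) = v + (p ^ κ) ^ l * (t' % p ^ κ) := by
          have e1 : v + t = (v + (p ^ κ) ^ l * (t' % p ^ κ)) + (p ^ κ) ^ (l + 1) * (t' / p ^ κ) := by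
            rw [ht']
            conv_lhs => rw [← Nat.mod_add_div t' (p ^ κ)]
            rw [pow_succ]; ring
          rw [e1, Nat.add_mul_mod_self_left, Nat.mod_eq_of_lt]
          have e2 : t' % p ^ κ + 1 ≤ p ^ κ := Nat.mod_lt _ (by omega)
          calc v + (p ^ κ) ^ l * (t' % p ^ κ) < (p ^ κ) ^ l + (p ^ κ) ^ l * (t' % p ^ κ) := by
                omega
            _ = (p ^ κ) ^ l * (t' % p ^ κ + 1) := by ring
            _ ≤ (p ^ κ) ^ l * p ^ κ := Nat.mul_le_mul_left _ e2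
            _ = (p ^ κ) ^ (l + 1) := by rw [pow_succ]
        rw [h7] at h5
        have h8 : (p ^ κ) ^ l * 1 ≤ (p ^ κ) ^ l * (t' % p ^ κ) :=
          Nat.mul_le_mul_left _ (Nat.one_le_iff_ne_zero.2 hne)
        omega
      obtain ⟨t'', ht''⟩ := Nat.dvd_of_mod_eq_zero h6
      exact ⟨t'', by rw [ht', ht'', pow_succ]; ring⟩
  -- final lift with base Q^h
  obtain ⟨m, hm⟩ := hdvd
  have hm0 : m ≠ 0 := by rintro rfl; rw [mul_zero] at hm; exact hN0 hm
  obtain ⟨n, rfl⟩ := Nat.exists_eq_succ_of_ne_zero hm0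
  have hb : p ^ (κ * h) = (p ^ κ) ^ h := by rw [pow_mul]
  refine final_lift (K := K) (p := p) (β := κ * h) (n := n) (v := v) (E := E)
    (c := (v : K) ^ v) (mul_ne_zero (by omega) hh0.ne') ?_ hv0 ?_ hF0 ?_ ?_ hFder hE0
    (pow_ne_zero _ hcast) ?_ ?_
  · rw [hb, ← pow_mul, hq, hm]
  · rw [hb]; exact lt_of_lt_of_le hvQ (Nat.le_self_pow hh0.ne' _)
  · have h3 : (p ^ κ + 1) * F.natDegree = p ^ κ * F.natDegree + F.natDegree := by ring
    omega
  · intro a
    obtain ⟨x, y, hx, hy, hxy⟩ := hval a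
    rw [hb, hxy, ← pow_mul, mul_comm v, pow_mul, lin_pow hx hy θ h, hθh]
  · intro t ht
    refine ⟨by rw [hb]; exact hEdvd h hh0 le_rfl t ht, ?_⟩
    rw [mem_support_iff, hcoefF t (hEQ t ht)]
    exact mem_support_iff.1 ht
  · intro δ hδ
    have hbpos : 0 < p ^ (κ * h) := pow_pos hp0 _
    have h1 : (v * δ) * (p ^ (κ * h)) ^ n < p ^ (κ * h) * (p ^ (κ * h)) ^ n := by
      calc (v * δ) * (p ^ (κ * h)) ^ n = v * (δ * (p ^ (κ * h)) ^ n) := by ring
        _ ≤ v * F.natDegree := Nat.mul_le_mul_left _ hδ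
        _ ≤ (p ^ κ + 1) * F.natDegree := Nat.mul_le_mul_right _ (by omega)
        _ < Fintype.card K := lt_of_le_of_lt hd1 hdeg
        _ = p ^ (κ * h) * (p ^ (κ * h)) ^ n := by
            rw [hq, hm, ← pow_succ', hb, ← pow_mul (p ^ κ) h]
    exact Nat.lt_of_mul_lt_mul_right h1

end MV286
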