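import Pool.Agent.V11286.MV.Pzero

/-! Climbing from `p` to `Q = p ^ κ`. -/

set_option linter.unusedSectionVars false

namespace MV286

open Polynomial

variable {K : Type*} [Field K] [Fintype K] {p : ℕ} [hp : Fact p.Prime] [CharP K p]
  [PerfectRing K p]

theorem derivative_form {P ρ₀ ρ₁ : K[X]} {j : ℕ} (hj : j ≠ 0)
    (h : P = ρ₀ ^ p ^ j + X * ρ₁ ^ p ^ j) : derivative P = ρ₁ ^ p ^ j := by
  rw [h, derivative_add, derivative_mul, derivative_pow_char_pow_eq_zero _ hj,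
    derivative_pow_char_pow_eq_zero _ hj, derivative_X]
  ring

theorem coprime_form {P ρ₀ ρ₁ : K[X]} {j : ℕ} (hj : j ≠ 0) (hP : Squarefree P)
    (h : P = ρ₀ ^ p ^ j + X * ρ₁ ^ p ^ j) : IsCoprime ρ₀ ρ₁ := by
  apply IsRelPrime.isCoprime
  intro g hg0 hg1
  apply hP g
  have h2 : 2 ≤ p ^ j := by
    calc 2 ≤ p := hp.out.two_le
      _ ≤ p ^ j := Nat.le_self_pow hj p
  have h3 : g ^ p ^ j ∣ P := by
    rw [h]
    exact dvd_add (pow_dvd_pow_of_dvd hg0 _) (dvd_mul_of_dvd_right (pow_dvd_pow_of_dvd hg1 _) _)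
  refine dvd_trans ?_ h3
  rw [← sq]
  exact pow_dvd_pow g h2

theorem natDegree_form0 {P ρ₀ ρ₁ : K[X]} {j : ℕ} (hj : j ≠ 0)
    (h : P = ρ₀ ^ p ^ j + X * ρ₁ ^ p ^ j) : p ^ j * ρ₀.natDegree ≤ P.natDegree := by
  have h1 : ρ₀ ^ p ^ j = P - X * derivative P := by
    rw [derivative_form hj h, h]; ring
  rw [← natDegree_pow, h1]
  refine (natDegree_sub_le _ _).trans (max_le le_rfl ?_)
  rcases Nat.eq_zero_or_pos P.natDegree with h0 | h0
  · rw [derivative_of_natDegree_zero h0]; simp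
  · refine natDegree_mul_le.trans ?_
    have := natDegree_derivative_le P
    rw [natDegree_X]; omega

theorem natDegree_form1 {P ρ₀ ρ₁ : K[X]} {j : ℕ} (hj : j ≠ 0)
    (h : P = ρ₀ ^ p ^ j + X * ρ₁ ^ p ^ j) : p ^ j * ρ₁.natDegree ≤ P.natDegree := by
  rw [← natDegree_pow, ← derivative_form hj h]
  exact (natDegree_derivative_le P).trans (Nat.sub_le _ _)

theorem derivative_eq_zero_of_wronskian {a b : K[X]} (hab : IsCoprime a b)
    (h : derivative a * b = a * derivative b) : derivative a = 0 := by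
  have h1 : a ∣ derivative a * b := ⟨derivative b, h⟩
  have h2 : a ∣ derivative a := hab.dvd_of_dvd_mul_right h1
  by_cases ha : a = 0
  · rw [ha, derivative_zero]
  · exact eq_zero_of_dvd_of_degree_lt h2 (degree_derivative_lt ha)

/-- arithmetic of the exponents -/
theorem exp_arith {p v r₁ κ j : ℕ} (hrv : r₁ * v + 1 = p ^ κ) (hjκ : j ≤ κ) :
    ∃ c, r₁ * (v % p ^ j) + 1 = c * p ^ j := by
  have h1 : p ^ j ∣ r₁ * (v % p ^ j) + 1 := by
    have h2 : p ^ j ∣ r₁ * (v % p ^ j) + 1 + r₁ * (p ^ j * (v / p ^ j)) := by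
      have h3 : r₁ * (v % p ^ j) + 1 + r₁ * (p ^ j * (v / p ^ j)) = p ^ κ := by
        rw [← hrv]
        conv_rhs => rw [← Nat.mod_add_div v (p ^ j)]
        ring
      rw [h3]; exact pow_dvd_pow p hjκ
    have h4 : p ^ j ∣ r₁ * (p ^ j * (v / p ^ j)) := ⟨r₁ * (v / p ^ j), by ring⟩
    exact (Nat.dvd_add_left h4).1 h2
  obtain ⟨c, hc⟩ := h1
  exact ⟨c, by rw [hc]; ring⟩

theorem climb_step {F P : K[X]} {v r₁ R κ e j : ℕ} {β₁ β₂ : K}
    (hq : Fintype.card K = p ^ e) (hκe : κ ≤ e) (hrv : r₁ * v + 1 = p ^ κ)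
    (hj1 : 1 ≤ j) (hjκ : j < κ) (hF0 : F ≠ 0) (hP : Squarefree P) (hP0 : P ≠ 0)
    (hA : P + (X ^ (Fintype.card K) - X) * derivative P
      = - (C β₁ * (P * F ^ r₁) + C β₂ * (P * F ^ (r₁ * (p ^ κ + 1)))))
    (hd : R * F.natDegree < Fintype.card K) (hRj : p ^ j + 1 ≤ R * (v % p ^ j))
    (hS : ∃ N ρ₀ ρ₁ : K[X], F = P ^ (v % p ^ j) * N ^ p ^ j ∧ P = ρ₀ ^ p ^ j + X * ρ₁ ^ p ^ j) :
    ∃ N ρ₀ ρ₁ : K[X], F = P ^ (v % p ^ (j + 1)) * N ^ p ^ (j + 1) ∧
      P = ρ₀ ^ p ^ (j + 1) + X * ρ₁ ^ p ^ (j + 1) := by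
  obtain ⟨N, ρ₀, ρ₁, hFN, hPρ⟩ := hS
  have hj0 : j ≠ 0 := by omega
  have hp0 : 0 < p := hp.out.pos
  have hP' := derivative_form hj0 hPρ
  have hcop := coprime_form hj0 hP hPρ
  have hdeg0 := natDegree_form0 hj0 hPρ
  have hdeg1 := natDegree_form1 hj0 hPρ
  have hN0 : N ≠ 0 := by
    rintro rfl
    rw [zero_pow (pow_ne_zero _ hp0.ne'), mul_zero] at hFN
    exact hF0 hFN
  obtain ⟨c, hc⟩ := exp_arith (j := j) hrv hjκ.le
  obtain ⟨c', hc'⟩ := exp_arith (j := j + 1) hrv hjκ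
  have hmod : v % p ^ (j + 1) = v % p ^ j + p ^ j * (v / p ^ j % p) := Nat.mod_pow_succ
  set a := v / p ^ j % p with ha
  have ha_lt : a < p := Nat.mod_lt _ hp0
  have hcc : c + r₁ * a = p * c' := by
    have h1 : (c + r₁ * a) * p ^ j = (p * c') * p ^ j := by
      calc (c + r₁ * a) * p ^ j = c * p ^ j + r₁ * (p ^ j * a) := by ring
        _ = r₁ * (v % p ^ (j + 1)) + 1 := by rw [← hc, hmod]; ring
        _ = (p * c') * p ^ j := by rw [hc', pow_succ]; ring
    exact Nat.eq_of_mul_eq_mul_right (pow_pos hp0 j) h1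
  have hr1cop : Nat.Coprime r₁ p := by
    rw [Nat.coprime_comm, hp.out.coprime_iff_not_dvd]
    intro hdvd
    have h1 : p ∣ r₁ * v + 1 := by rw [hrv]; exact dvd_pow_self p (by omega)
    have h2 : p ∣ 1 := (Nat.dvd_add_right (dvd_mul_of_dvd_left hdvd v)).1 h1
    exact hp.out.one_lt.ne' (Nat.dvd_one.1 h2)
  -- the polynomial M
  set M := P ^ c * N ^ r₁ with hM
  have hM0 : M ≠ 0 := mul_ne_zero (pow_ne_zero _ hP0) (pow_ne_zero _ hN0)
  have hMpow : M ^ p ^ j = P * F ^ r₁ := by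
    calc M ^ p ^ j = P ^ (c * p ^ j) * (N ^ r₁) ^ p ^ j := by rw [hM, mul_pow, ← pow_mul]
      _ = P ^ (r₁ * (v % p ^ j) + 1) * (N ^ p ^ j) ^ r₁ := by
          rw [← hc]; congr 1; rw [← pow_mul, ← pow_mul, mul_comm]
      _ = P * (P ^ (v % p ^ j) * N ^ p ^ j) ^ r₁ := by
          rw [pow_succ, mul_comm r₁, pow_mul, mul_pow]; ring
      _ = P * F ^ r₁ := by rw [← hFN]
  obtain ⟨β₁', hβ₁⟩ := exists_root_C (K := K) (p := p) β₁ j
  obtain ⟨β₂', hβ₂⟩ := exists_root_C (K := K) (p := p) β₂ j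
  set G := - (C β₁' + C β₂' * (F ^ (r₁ * p ^ (κ - j)))) with hG
  have hG' : derivative G = 0 := by
    have h1 : derivative (F ^ (r₁ * p ^ (κ - j))) = 0 := by
      rw [pow_mul]
      exact derivative_pow_char_pow_eq_zero _ (by omega)
    rw [hG, derivative_neg, derivative_add, derivative_C, derivative_C_mul, h1]; simp
  set T := (X ^ p ^ (e - j) : K[X]) with hT
  have hT' : derivative T = 0 := by
    rw [hT]; exact derivative_pow_char_pow_eq_zero _ (by omega)
  have hTq : T ^ p ^ j = X ^ Fintype.card K := by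
    rw [hT, ← pow_mul, ← pow_add, hq]; congr 2; omega
  have hL : ρ₀ + T * ρ₁ = M * G := by
    apply pow_char_pow_inj (p := p) j
    have h1 : (ρ₀ + T * ρ₁) ^ p ^ j = P + (X ^ (Fintype.card K) - X) * derivative P := by
      rw [add_pow_char_pow, mul_pow, hTq, hP']
      conv_rhs => rw [hPρ]
      ring
    rw [h1, hA, mul_pow, hG]
    have hneg : (-(C β₁' + C β₂' * F ^ (r₁ * p ^ (κ - j)))) ^ p ^ j
        = - (C β₁ + C β₂ * F ^ (r₁ * p ^ κ)) := by
      have h2 : (0 - (C β₁' + C β₂' * F ^ (r₁ * p ^ (κ - j)))) ^ p ^ j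
          = 0 ^ p ^ j - (C β₁' + C β₂' * F ^ (r₁ * p ^ (κ - j))) ^ p ^ j :=
        sub_pow_char_pow _ _ j
      rw [zero_sub, zero_pow (pow_ne_zero _ hp0.ne'), zero_sub, add_pow_char_pow, mul_pow,
        ← C_pow, ← C_pow, hβ₁, hβ₂, ← pow_mul, mul_assoc, ← pow_add,
        Nat.sub_add_cancel hjκ.le] at h2
      exact h2
    rw [hneg, hMpow, mul_add, mul_one, pow_add]; ring
  -- logarithmic derivative
  set w := P * N with hw
  set u := C (c : K) * derivative P * N + C (r₁ : K) * P * derivative N with hu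
  have hw0 : w ≠ 0 := mul_ne_zero hP0 hN0
  have hlog : ∀ (f : K[X]) (k : ℕ), f * derivative (f ^ k) = C (k : K) * f ^ k * derivative f := by
    intro f k
    rcases Nat.eq_zero_or_pos k with h | h
    · subst h; simp
    · obtain ⟨s, rfl⟩ := Nat.exists_eq_succ_of_ne_zero h.ne'
      rw [derivative_pow]; simp only [Nat.succ_eq_add_one, Nat.add_sub_cancel]; ring
  have hwM : w * derivative M = u * M := by
    calc w * derivative M
        = (P * derivative (P ^ c)) * N * N ^ r₁ + (N * derivative (N ^ r₁)) * P * P ^ c := by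
          rw [hM, derivative_mul, hw]; ring
      _ = u * M := by rw [hlog, hlog, hu, hM]; ring
  have hL' : derivative (ρ₀ + T * ρ₁) = derivative ρ₀ + T * derivative ρ₁ := by
    rw [derivative_add, derivative_mul, hT']; ring
  have hwL : w * (derivative ρ₀ + T * derivative ρ₁) = u * (ρ₀ + T * ρ₁) := by
    rw [← hL', hL, derivative_mul, hG']
    calc w * (derivative M * G + M * 0) = (w * derivative M) * G := by ring
      _ = u * (M * G) := by rw [hwM]; ring
  have hsplit : (w * derivative ρ₀ - u * ρ₀) = - (T * (w * derivative ρ₁ - u * ρ₁)) := by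
    linear_combination hwL
  -- degree bounds
  have hFdeg : F.natDegree = (v % p ^ j) * P.natDegree + p ^ j * N.natDegree := by
    rw [hFN, natDegree_mul (pow_ne_zero _ hP0) (pow_ne_zero _ hN0), natDegree_pow, natDegree_pow]
  have hRpos : 1 ≤ R := by
    rcases Nat.eq_zero_or_pos R with h | h
    · rw [h, zero_mul] at hRj; omega
    · exact h
  have hbound : ∀ ρ : K[X], p ^ j * ρ.natDegree ≤ P.natDegree →
      P.natDegree + N.natDegree + ρ.natDegree < p ^ (e - j) := by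
    intro ρ hρ
    have h1 : p ^ j * (P.natDegree + N.natDegree + ρ.natDegree) < p ^ j * p ^ (e - j) := by
      have h2 : p ^ j * p ^ (e - j) = Fintype.card K := by
        rw [hq, ← pow_add]; congr 1; omega
      rw [h2]
      refine lt_of_le_of_lt ?_ hd
      calc p ^ j * (P.natDegree + N.natDegree + ρ.natDegree)
          = p ^ j * P.natDegree + p ^ j * N.natDegree + p ^ j * ρ.natDegree := by ring
        _ ≤ p ^ j * P.natDegree + p ^ j * N.natDegree + P.natDegree := by omega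
        _ = (p ^ j + 1) * P.natDegree + 1 * (p ^ j * N.natDegree) := by ring
        _ ≤ R * (v % p ^ j) * P.natDegree + R * (p ^ j * N.natDegree) :=
            add_le_add (Nat.mul_le_mul_right _ hRj) (Nat.mul_le_mul_right _ hRpos)
        _ = R * F.natDegree := by rw [hFdeg]; ring
    exact Nat.lt_of_mul_lt_mul_left h1
  have hudeg : u.natDegree ≤ P.natDegree + N.natDegree := by
    rw [hu]
    refine (natDegree_add_le _ _).trans (max_le ?_ ?_)
    · refine natDegree_mul_le.trans (Nat.add_le_add_right ?_ _)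
      refine (natDegree_C_mul_le _ _).trans ?_
      exact (natDegree_derivative_le P).trans (Nat.sub_le _ _)
    · refine natDegree_mul_le.trans (add_le_add ?_ ?_)
      · exact natDegree_C_mul_le _ _
      · exact (natDegree_derivative_le N).trans (Nat.sub_le _ _)
  have hwdeg : w.natDegree = P.natDegree + N.natDegree := natDegree_mul hP0 hN0
  have hdegA : ∀ ρ : K[X], p ^ j * ρ.natDegree ≤ P.natDegree →
      (w * derivative ρ - u * ρ).natDegree < p ^ (e - j) := by
    intro ρ hρ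
    refine lt_of_le_of_lt ?_ (hbound ρ hρ)
    refine (natDegree_sub_le _ _).trans (max_le ?_ ?_)
    · refine natDegree_mul_le.trans ?_
      rw [hwdeg]
      exact Nat.add_le_add_left ((natDegree_derivative_le ρ).trans (Nat.sub_le _ _)) _
    · exact natDegree_mul_le.trans (Nat.add_le_add_right hudeg _)
  have hA1 : w * derivative ρ₁ - u * ρ₁ = 0 := by
    by_contra hne
    have h1 := hdegA ρ₀ hdeg0
    rw [hsplit, natDegree_neg, natDegree_mul (by rw [hT]; exact pow_ne_zero _ X_ne_zero) hne,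
      hT, natDegree_X_pow] at h1
    omega
  have hA0 : w * derivative ρ₀ - u * ρ₀ = 0 := by rw [hsplit, hA1]; ring
  have hwr : derivative ρ₀ * ρ₁ = ρ₀ * derivative ρ₁ := by
    apply mul_left_cancel₀ hw0
    linear_combination ρ₁ * hA0 - ρ₀ * hA1
  have hd0 : derivative ρ₀ = 0 := derivative_eq_zero_of_wronskian hcop hwr
  have hd1 : derivative ρ₁ = 0 :=
    derivative_eq_zero_of_wronskian hcop.symm (by linear_combination - hwr)
  have hu0 : u = 0 := by
    rw [hd0, mul_zero, zero_sub, neg_eq_zero] at hA0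
    rw [hd1, mul_zero, zero_sub, neg_eq_zero] at hA1
    rcases mul_eq_zero.1 hA0 with h | h
    · exact h
    · rcases mul_eq_zero.1 hA1 with h' | h'
      · exact h'
      · exfalso
        rw [h, h', zero_pow (pow_ne_zero _ hp0.ne')] at hPρ
        apply hP0
        rw [hPρ]; ring
  have hM' : derivative M = 0 := by
    rw [hu0, zero_mul] at hwM
    exact (mul_eq_zero.1 hwM).resolve_left hw0
  obtain ⟨Z, hZ⟩ := exists_pow_of_derivative_eq_zero (p := p) hM'
  obtain ⟨σ₀, hσ₀⟩ := exists_pow_of_derivative_eq_zero (p := p) hd0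
  obtain ⟨σ₁, hσ₁⟩ := exists_pow_of_derivative_eq_zero (p := p) hd1
  obtain ⟨W, hW⟩ := lemL hP hP0 ha_lt hcc hr1cop hp.out.one_lt (hM ▸ hZ)
  refine ⟨W, σ₀, σ₁, ?_, ?_⟩
  · rw [hFN, hW, mul_pow, hmod, pow_add, ← pow_mul, ← pow_mul, pow_succ, mul_comm (p ^ j) p,
      mul_comm a (p ^ j)]
    ring
  · rw [hPρ, hσ₀, hσ₁, ← pow_mul, ← pow_mul, pow_succ, mul_comm (p ^ j) p]

/-- the base of the climbing -/
theorem climb_base {F P : K[X]} {v : ℕ} (hP : Squarefree P) (hP0 : P ≠ 0)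
    (h : derivative F * P = C (v : K) * derivative P * F)
    (h2 : derivative (derivative P) = 0) :
    ∃ N ρ₀ ρ₁ : K[X], F = P ^ (v % p ^ 1) * N ^ p ^ 1 ∧ P = ρ₀ ^ p ^ 1 + X * ρ₁ ^ p ^ 1 := by
  have hp0 : 0 < p := hp.out.pos
  obtain ⟨ρ₀, ρ₁, hρ, -⟩ := exists_of_derivative2 (p := p) h2
  rw [pow_one]
  set a := v % p with ha
  have ha_lt : a < p := Nat.mod_lt _ hp0
  have hcast : (v : K) = (a : K) := by
    rw [ha, CharP.cast_eq_mod K p v]
  obtain ⟨b, hb⟩ : ∃ b, p = a + (b + 1) := ⟨p - a - 1, by omega⟩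
  have hd : derivative (F * P ^ (b + 1)) = 0 := by
    rw [derivative_mul, derivative_pow]
    simp only [Nat.add_sub_cancel]
    have hb' : ((b + 1 : ℕ) : K) = - (v : K) := by
      have : ((a + (b + 1) : ℕ) : K) = 0 := by rw [← hb]; exact CharP.cast_eq_zero K p
      rw [hcast]
      push_cast at this ⊢
      linear_combination this
    rw [hb', C_neg]
    linear_combination (P ^ b) * h
  obtain ⟨Y, hY⟩ := exists_pow_of_derivative_eq_zero (p := p) hd
  have h4 : P ∣ Y := by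
    apply hP.isRadical p
    rw [← hY]
    exact dvd_mul_of_dvd_right (dvd_pow_self P (by omega)) _
  obtain ⟨N, rfl⟩ := h4
  refine ⟨N, ρ₀, ρ₁, ?_, hρ⟩
  have h6 : P ^ (b + 1) ≠ 0 := pow_ne_zero _ hP0
  apply mul_right_cancel₀ h6
  rw [hY, mul_pow]
  have : P ^ p = P ^ a * P ^ (b + 1) := by rw [← pow_add, ← hb]
  rw [this]; ring

end MV286
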