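import Mathlib

/-! Minimal value set polynomials over a finite field. -/

namespace MV286

open Polynomial

variable {K : Type*} [Field K] [Fintype K]

/-- `F` is a minimal value set polynomial over the finite field `K`: it is nonconstant and its
value set has exactly `⌊(q - 1) / deg F⌋ + 1` elements, where `q` is the number of elements
of `K`. -/
def IsMVSP (F : K[X]) : Prop :=
  0 < F.natDegree ∧
    (Set.range fun a : K => F.eval a).ncard = (Fintype.card K - 1) / F.natDegree + 1

/-- `𝒫(S, q)`: the set of minimal value set polynomials over `K` whose value set is `S`. -/
def PSet (S : Set K) : Set K[X] :=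
  {F | IsMVSP F ∧ (Set.range fun a : K => F.eval a) = S}

/-- `S ^ v = {s ^ v : s ∈ S}`. -/
def powSet (v : ℕ) (S : Set K) : Set K := (fun s : K => s ^ v) '' S

end MV286
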