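import Pool.Agent.V11286.MV.Ode
import Pool.Agent.V11286.MV.Defs

/-! Counting lemmas and the passage from `F = κ g ^ v` to the description of `𝒫(U^v, q)`. -/

set_option linter.unusedSectionVars false

namespace MV286

open Polynomial

variable {K : Type*} [Field K] [Fintype K]

theorem exists_primitive {v : ℕ} (hv : v ∣ Fintype.card K - 1) :
    ∃ ζ : K, IsPrimitiveRoot ζ v := by
  classical
  obtain ⟨g, hg⟩ := IsCyclic.exists_ofOrder_eq_natCard (α := Kˣ)
  rw [Nat.card_eq_fintype_card, Fintype.card_units] at hg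
  have h1 : IsPrimitiveRoot (g : K) (Fintype.card K - 1) := by
    rw [← hg]
    exact IsPrimitiveRoot.coe_units_iff.2 (IsPrimitiveRoot.orderOf g)
  obtain ⟨a, ha⟩ := hv
  have hpos : 0 < Fintype.card K - 1 := by
    have := Fintype.one_lt_card (α := K)
    omega
  exact ⟨(g : K) ^ a, h1.pow hpos (by rw [ha]; ring)⟩

theorem ncard_powSet {v : ℕ} (hv : v ∣ Fintype.card K - 1) {U : Set K} (h0 : (0 : K) ∈ U)
    (hμ : ∀ ζ : K, ζ ^ v = 1 → ∀ u ∈ U, ζ * u ∈ U) :
    U.ncard - 1 = v * ((powSet v U).ncard - 1) ∧ 1 ≤ (powSet v U).ncard := by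
  classical
  have hpos : 0 < Fintype.card K - 1 := by
    have := Fintype.one_lt_card (α := K)
    omega
  have hv0 : v ≠ 0 := by rintro rfl; rw [zero_dvd_iff] at hv; omega
  obtain ⟨ζ₀, hζ₀⟩ := exists_primitive hv
  set V : Finset K := (U.toFinset).erase 0 with hV
  have hVmem : ∀ x, x ∈ V ↔ x ≠ 0 ∧ x ∈ U := by
    intro x; rw [hV, Finset.mem_erase, Set.mem_toFinset]
  have hVcard : V.card = U.ncard - 1 := by
    rw [hV, Finset.card_erase_of_mem (Set.mem_toFinset.2 h0), Set.ncard_eq_toFinset_card']
  have h1 : (powSet v U) = insert 0 ((V.image (fun s : K => s ^ v) : Finset K) : Set K) := by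
    ext y
    simp only [powSet, Set.mem_image, Set.mem_insert_iff, Finset.coe_image, Finset.mem_coe]
    constructor
    · rintro ⟨x, hx, rfl⟩
      by_cases hx0 : x = 0
      · left; rw [hx0, zero_pow hv0]
      · right; exact ⟨x, (hVmem x).2 ⟨hx0, hx⟩, rfl⟩
    · rintro (rfl | ⟨x, hx, rfl⟩)
      · exact ⟨0, h0, zero_pow hv0⟩
      · exact ⟨x, ((hVmem x).1 hx).2, rfl⟩
  have h2 : (powSet v U).ncard = (V.image (fun s : K => s ^ v)).card + 1 := by
    rw [h1, Set.ncard_insert_of_notMem, Set.ncard_coe_finset]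
    rw [Finset.mem_coe, Finset.mem_image]
    rintro ⟨x, hx, hx0⟩
    exact ((hVmem x).1 hx).1 (pow_eq_zero_iff hv0 |>.1 hx0)
  have h3 : ∀ y ∈ V.image (fun s : K => s ^ v), (V.filter (fun s : K => s ^ v = y)).card = v := by
    intro y hy
    obtain ⟨u₀, hu₀, rfl⟩ := Finset.mem_image.1 hy
    have hu := (hVmem u₀).1 hu₀
    have hbij : (nthRootsFinset v (1 : K)).card
        = (V.filter (fun s : K => s ^ v = (fun s : K => s ^ v) u₀)).card := by
      apply Finset.card_bij (fun ζ _ => ζ * u₀)
      · intro ζ hζ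
        rw [Polynomial.mem_nthRootsFinset (Nat.pos_of_ne_zero hv0)] at hζ
        rw [Finset.mem_filter, hVmem]
        refine ⟨⟨?_, hμ ζ hζ u₀ hu.2⟩, ?_⟩
        · apply mul_ne_zero _ hu.1
          rintro rfl
          rw [zero_pow hv0] at hζ
          exact zero_ne_one hζ
        · rw [mul_pow, hζ, one_mul]
      · intro ζ _ ζ' _ h
        exact mul_right_cancel₀ hu.1 h
      · intro x hx
        rw [Finset.mem_filter, hVmem] at hx
        refine ⟨x / u₀, ?_, div_mul_cancel₀ _ hu.1⟩
        rw [Polynomial.mem_nthRootsFinset (Nat.pos_of_ne_zero hv0), div_pow, hx.2]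
        exact div_self (pow_ne_zero _ hu.1)
    rw [← hbij]
    exact hζ₀.card_nthRootsFinset
  have h4 : V.card = (V.image (fun s : K => s ^ v)).card * v := by
    rw [Finset.card_eq_sum_card_image (fun s : K => s ^ v) V]
    rw [Finset.sum_congr rfl h3, Finset.sum_const, smul_eq_mul]
  refine ⟨?_, by omega⟩
  rw [← hVcard, h4, h2, Nat.add_sub_cancel, mul_comm]

theorem value_set_lower {f : K[X]} (hf : 0 < f.natDegree) :
    (Fintype.card K - 1) / f.natDegree + 1 ≤ (Set.range fun a : K => f.eval a).ncard := by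
  classical
  have h1 : (Finset.univ : Finset K).card
      ≤ f.natDegree * ((Finset.univ : Finset K).image (fun a => f.eval a)).card := by
    apply Finset.card_le_mul_card_image
    intro y _
    have hne : f - C y ≠ 0 := by
      intro h
      have := congrArg natDegree (sub_eq_zero.1 h)
      rw [natDegree_C] at this
      omega
    have h2 : (Finset.univ.filter (fun x : K => f.eval x = y)) ⊆ (f - C y).roots.toFinset := by
      intro x hx
      rw [Finset.mem_filter] at hx
      rw [Multiset.mem_toFinset, mem_roots hne, IsRoot.def, eval_sub, eval_C, hx.2, sub_self]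
    calc (Finset.univ.filter (fun x : K => f.eval x = y)).card
        ≤ (f - C y).roots.toFinset.card := Finset.card_le_card h2
      _ ≤ Multiset.card (f - C y).roots := Multiset.toFinset_card_le _
      _ ≤ (f - C y).natDegree := card_roots' _
      _ = f.natDegree := natDegree_sub_C
  have h3 : (Set.range fun a : K => f.eval a).ncard
      = ((Finset.univ : Finset K).image (fun a => f.eval a)).card := by
    rw [← Set.ncard_coe_finset]
    congr 1
    ext y; simp
  rw [h3]
  rw [Finset.card_univ] at h1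
  have hpos := Fintype.card_pos (α := K)
  have h4 : (Fintype.card K - 1) / f.natDegree
      < ((Finset.univ : Finset K).image (fun a => f.eval a)).card := by
    rw [Nat.div_lt_iff_lt_mul hf, mul_comm]
    omega
  omega

/-- The passage from the core statement to the equality of sets. -/
theorem pset_eq {v : ℕ} (hv : v ∣ Fintype.card K - 1) {U : Set K} (h0 : (0 : K) ∈ U)
    (h1 : (1 : K) ∈ U) (hμ : ∀ ζ : K, ζ ^ v = 1 → ∀ u ∈ U, ζ * u ∈ U)
    (core : ∀ F : K[X], 0 < F.natDegree → (∀ a : K, ∃ u ∈ U, F.eval a = u ^ v) →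
      F.natDegree * (U.ncard - 1) ≤ v * (Fintype.card K - 1) →
      ∃ (c : K) (g : K[X]), F = C c * g ^ v) :
    PSet (powSet v U) = {F | ∃ f ∈ PSet U, F = f ^ v} := by
  classical
  obtain ⟨hcard, hcard1⟩ := ncard_powSet hv h0 hμ
  have hpos : 0 < Fintype.card K - 1 := by
    have := Fintype.one_lt_card (α := K)
    omega
  have hv0 : v ≠ 0 := by rintro rfl; rw [zero_dvd_iff] at hv; omega
  have hvpos : 0 < v := Nat.pos_of_ne_zero hv0
  ext F
  constructor
  · rintro ⟨⟨hFd, hFn⟩, hFr⟩
    have hS : (powSet v U).ncard - 1 = (Fintype.card K - 1) / F.natDegree := by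
      rw [← hFr, hFn, Nat.add_sub_cancel]
    have hdeg : F.natDegree * (U.ncard - 1) ≤ v * (Fintype.card K - 1) := by
      rw [hcard, hS]
      calc F.natDegree * (v * ((Fintype.card K - 1) / F.natDegree))
          = v * (F.natDegree * ((Fintype.card K - 1) / F.natDegree)) := by ring
        _ ≤ v * (Fintype.card K - 1) := Nat.mul_le_mul_left _ (Nat.mul_div_le _ _)
    have hvals : ∀ a : K, ∃ u ∈ U, F.eval a = u ^ v := by
      intro a
      have : F.eval a ∈ powSet v U := by rw [← hFr]; exact ⟨a, rfl⟩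
      obtain ⟨u, hu, hu'⟩ := this
      exact ⟨u, hu, hu'.symm⟩
    obtain ⟨c, g, hcg⟩ := core F hFd hvals hdeg
    have h1S : (1 : K) ∈ powSet v U := ⟨1, h1, one_pow v⟩
    rw [← hFr] at h1S
    obtain ⟨a, ha⟩ := h1S
    have ha' : c * (g.eval a) ^ v = 1 := by
      have : F.eval a = 1 := ha
      rw [hcg, eval_mul, eval_C, eval_pow] at this
      exact this
    have hga : g.eval a ≠ 0 := by
      intro h; rw [h, zero_pow hv0, mul_zero] at ha'; exact zero_ne_one ha'
    set f := C (g.eval a)⁻¹ * g with hf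
    have hFf : F = f ^ v := by
      rw [hcg, hf, mul_pow, ← C_pow]
      congr 2
      rw [inv_pow]
      exact eq_inv_of_mul_eq_one_left ha'
    have hdF : F.natDegree = v * f.natDegree := by rw [hFf, natDegree_pow]
    have hfd : 0 < f.natDegree := by
      rw [hdF] at hFd
      exact Nat.pos_of_mul_pos_left hFd
    have hfU : ∀ b : K, f.eval b ∈ U := by
      intro b
      obtain ⟨u, hu, hub⟩ := hvals b
      rw [hFf, eval_pow] at hub
      by_cases hu0 : u = 0
      · rw [hu0, zero_pow hv0] at hub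
        rw [pow_eq_zero_iff hv0 |>.1 hub]
        exact h0
      · have h2 : (f.eval b / u) ^ v = 1 := by
          rw [div_pow, hub, div_self (pow_ne_zero _ hu0)]
        have h3 := hμ _ h2 u hu
        rwa [div_mul_cancel₀ _ hu0] at h3
    have hsub : (Set.range fun b : K => f.eval b) ⊆ U := by
      rintro _ ⟨b, rfl⟩; exact hfU b
    have hfin : U.Finite := Set.toFinite U
    have hle1 : (Set.range fun b : K => f.eval b).ncard ≤ U.ncard := Set.ncard_le_ncard hsub hfin
    have hlow := value_set_lower hfd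
    have hUcard : U.ncard - 1 ≤ (Fintype.card K - 1) / f.natDegree := by
      rw [Nat.le_div_iff_mul_le hfd]
      apply Nat.le_of_mul_le_mul_left _ hvpos
      calc v * ((U.ncard - 1) * f.natDegree) = F.natDegree * (U.ncard - 1) := by rw [hdF]; ring
        _ ≤ v * (Fintype.card K - 1) := hdeg
    have hUpos : 1 ≤ U.ncard := by
      rw [Nat.one_le_iff_ne_zero, Ne, Set.ncard_eq_zero hfin]
      exact (Set.nonempty_of_mem h0).ne_empty
    have hVU : (Set.range fun b : K => f.eval b) = U :=
      Set.eq_of_subset_of_ncard_le hsub (by omega) hfin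
    refine ⟨f, ⟨⟨hfd, ?_⟩, hVU⟩, hFf⟩
    rw [hVU] at hlow ⊢
    omega
  · rintro ⟨f, ⟨⟨hfd, hfn⟩, hfr⟩, rfl⟩
    have hrange : (Set.range fun a : K => (f ^ v).eval a) = powSet v U := by
      rw [← hfr]
      ext y
      simp only [powSet, Set.mem_range, Set.mem_image, eval_pow]
      constructor
      · rintro ⟨a, rfl⟩; exact ⟨_, ⟨a, rfl⟩, rfl⟩
      · rintro ⟨_, ⟨a, rfl⟩, rfl⟩; exact ⟨a, rfl⟩
    refine ⟨⟨?_, ?_⟩, hrange⟩
    · rw [natDegree_pow]; exact Nat.mul_pos hvpos hfd
    · rw [hrange, natDegree_pow, mul_comm v, ← Nat.div_div_eq_div_mul]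
      rw [hfr] at hfn
      have h2 : (Fintype.card K - 1) / f.natDegree = v * ((powSet v U).ncard - 1) := by
        rw [← hcard, hfn, Nat.add_sub_cancel]
      rw [h2, Nat.mul_div_cancel_left _ hvpos]
      omega

/-- elements of a subfield are the fixed points of the Frobenius power. -/
theorem mem_subfield_iff {E : Subfield K} {Q : ℕ} (hE : Nat.card E = Q) (x : K) :
    x ∈ E ↔ x ^ Q = x := by
  classical
  have hfin : Finite E := inferInstance
  let _ : Fintype E := Fintype.ofFinite E
  have hEQ : Fintype.card E = Q := by rw [← hE, Nat.card_eq_fintype_card]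
  have hsub : (E : Set K) ⊆ {x | x ^ Q = x} := by
    intro x hx
    have := FiniteField.pow_card (⟨x, hx⟩ : E)
    rw [hEQ] at this
    exact congrArg Subtype.val this
  have hQ1 : 1 < Q := by rw [← hEQ]; exact Fintype.one_lt_card
  have hcard : ({x : K | x ^ Q = x} : Set K).ncard ≤ (E : Set K).ncard := by
    have h1 : (E : Set K).ncard = Q := by
      rw [← hE]; rfl
    rw [h1]
    have hne : (X ^ Q - X : K[X]) ≠ 0 := FiniteField.X_pow_card_sub_X_ne_zero K hQ1
    have h2 : ({x : K | x ^ Q = x} : Set K) ⊆ ((X ^ Q - X : K[X]).roots.toFinset : Set K) := by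
      intro x hx
      rw [Finset.mem_coe, Multiset.mem_toFinset, mem_roots hne, IsRoot.def, eval_sub, eval_pow,
        eval_X]
      rw [Set.mem_ofPred_eq] at hx
      rw [hx, sub_self]
    calc ({x : K | x ^ Q = x} : Set K).ncard
        ≤ ((X ^ Q - X : K[X]).roots.toFinset : Set K).ncard :=
          Set.ncard_le_ncard h2 (Finset.finite_toSet _)
      _ = (X ^ Q - X : K[X]).roots.toFinset.card := Set.ncard_coe_finset _
      _ ≤ Multiset.card (X ^ Q - X : K[X]).roots := Multiset.toFinset_card_le _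
      _ ≤ (X ^ Q - X : K[X]).natDegree := card_roots' _
      _ = Q := FiniteField.X_pow_card_sub_X_natDegree_eq K hQ1
  have heq := Set.eq_of_subset_of_ncard_le hsub hcard (Set.toFinite _)
  constructor
  · intro hx; exact hsub hx
  · intro hx
    have : x ∈ ({x | x ^ Q = x} : Set K) := hx
    rw [← heq] at this
    exact this

/-- the `v`-th powers of a subfield -/
theorem powSet_subfield {L : Subfield K} {P r v : ℕ} (hL : Nat.card L = P) (hrv : r * v = P - 1)
    (hv0 : v ≠ 0) (hvq : v ∣ Fintype.card K - 1)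
    (hr0 : r ≠ 0) : powSet v (L : Set K) = {x | x = 0 ∨ x ^ r = 1} := by
  classical
  have hfin : Finite L := inferInstance
  let _ : Fintype L := Fintype.ofFinite L
  have hLP : Fintype.card L = P := by rw [← hL, Nat.card_eq_fintype_card]
  have hP1 : 1 < P := by rw [← hLP]; exact Fintype.one_lt_card
  have hsub : powSet v (L : Set K) ⊆ {x | x = 0 ∨ x ^ r = 1} := by
    rintro _ ⟨u, hu, rfl⟩
    by_cases hu0 : u = 0
    · left; simp only; rw [hu0, zero_pow hv0]
    · right
      simp only
      rw [← pow_mul, mul_comm, hrv]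
      have h1 := (mem_subfield_iff hL u).1 hu
      have h2 : u ^ (P - 1) * u = 1 * u := by
        rw [← pow_succ, one_mul]
        have : P - 1 + 1 = P := by omega
        rw [this, h1]
      exact mul_right_cancel₀ hu0 h2
  have hμ : ∀ ζ : K, ζ ^ v = 1 → ∀ u ∈ (L : Set K), ζ * u ∈ (L : Set K) := by
    intro ζ hζ u hu
    apply L.mul_mem _ hu
    rw [mem_subfield_iff hL]
    have h1 : ζ ^ (P - 1) = 1 := by rw [← hrv, mul_comm, pow_mul, hζ, one_pow]
    have : P = P - 1 + 1 := by omega
    rw [this, pow_succ, h1, one_mul]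
  obtain ⟨hc, hc1⟩ := ncard_powSet hvq (U := (L : Set K)) L.zero_mem hμ
  have hLn : (L : Set K).ncard = P := by rw [← hL]; rfl
  rw [hLn, ← hrv, mul_comm r v] at hc
  have hc2 : (powSet v (L : Set K)).ncard = r + 1 := by
    have := Nat.eq_of_mul_eq_mul_left (Nat.pos_of_ne_zero hv0) hc
    omega
  have hcard : ({x : K | x = 0 ∨ x ^ r = 1} : Set K).ncard ≤ (powSet v (L : Set K)).ncard := by
    rw [hc2]
    have h1 : ({x : K | x = 0 ∨ x ^ r = 1} : Set K)
        ⊆ ((insert 0 (nthRootsFinset r (1 : K)) : Finset K) : Set K) := by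
      intro x hx
      rw [Finset.coe_insert, Set.mem_insert_iff, Finset.mem_coe,
        Polynomial.mem_nthRootsFinset (Nat.pos_of_ne_zero hr0)]
      exact hx
    calc ({x : K | x = 0 ∨ x ^ r = 1} : Set K).ncard
        ≤ ((insert 0 (nthRootsFinset r (1 : K)) : Finset K) : Set K).ncard :=
          Set.ncard_le_ncard h1 (Finset.finite_toSet _)
      _ = (insert 0 (nthRootsFinset r (1 : K)) : Finset K).card := Set.ncard_coe_finset _
      _ ≤ (nthRootsFinset r (1 : K)).card + 1 := Finset.card_insert_le _ _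
      _ ≤ r + 1 := by
          apply Nat.add_le_add_right
          rw [nthRootsFinset]
          exact (Multiset.toFinset_card_le _).trans (card_nthRoots r 1)
  exact Set.eq_of_subset_of_ncard_le hsub hcard (Set.toFinite _)

end MV286
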