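import Pool.Agent.V11286.MV.Count
import Pool.Agent.V11286.MV.CaseII

/-! Subspaces of dimension at least two. -/

set_option linter.unusedSectionVars false

namespace MV286

open Polynomial

variable {K : Type*} [Field K] [Fintype K] {p : ℕ} [hp : Fact p.Prime] [CharP K p]

theorem base_two {κ v r₁ : ℕ} (hκ : 1 ≤ κ) (hrv : r₁ * v + 1 = p ^ κ) {E : Subfield K}
    (hE : Nat.card E = p ^ κ) {U : Submodule E K} (hU : Module.finrank E U = 2) {F : K[X]}
    (hF : 0 < F.natDegree) (hval : ∀ a : K, ∃ u ∈ U, F.eval a = u ^ v)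
    (hdeg : F.natDegree * ((p ^ κ) ^ 2 - 1) ≤ v * (Fintype.card K - 1)) :
    ∃ (c : K) (g : K[X]), F = C c * g ^ v := by
  classical
  have hQ1 : 1 < p ^ κ := Nat.one_lt_pow (by omega) hp.out.one_lt
  have hv0 : v ≠ 0 := by rintro rfl; omega
  set b := Module.finBasisOfFinrankEq E U hU with hb
  set w₁ : K := (b 0 : K) with hw₁
  set w₂ : K := (b 1 : K) with hw₂
  have hw₁0 : w₁ ≠ 0 := by
    intro h
    have : b 0 = 0 := Subtype.ext h
    exact b.ne_zero 0 this
  have hrepr : ∀ u ∈ U, ∃ x y : E, u = (x : K) * w₁ + (y : K) * w₂ := by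
    intro u hu
    refine ⟨b.repr ⟨u, hu⟩ 0, b.repr ⟨u, hu⟩ 1, ?_⟩
    have h1 := b.sum_repr ⟨u, hu⟩
    rw [Fin.sum_univ_two] at h1
    have h2 := congrArg Subtype.val h1
    simp only [Submodule.coe_add, Submodule.coe_smul] at h2
    exact h2.symm
  have hθ : (w₂ / w₁) ^ p ^ κ ≠ w₂ / w₁ := by
    intro h
    have h1 : w₂ / w₁ ∈ E := (mem_subfield_iff hE _).2 h
    have h2 : (⟨w₂ / w₁, h1⟩ : E) • b 0 + (-1 : E) • b 1 = 0 := by
      apply Subtype.ext
      simp only [Submodule.coe_add, Submodule.coe_smul, Submodule.coe_zero]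
      change (w₂ / w₁) * w₁ + ((-1 : E) : K) * w₂ = 0
      rw [div_mul_cancel₀ _ hw₁0]
      push_cast
      ring
    have h3 := b.linearIndependent
    rw [Fintype.linearIndependent_iff] at h3
    have h4 := h3 ![⟨w₂ / w₁, h1⟩, -1] (by rw [Fin.sum_univ_two]; exact h2) 1
    simp at h4
  have hcardK : Fintype.card K = (p ^ κ) ^ (Module.finrank E K) := by
    have h1 := Module.natCard_eq_pow_finrank (K := E) (V := K)
    rw [hE, Nat.card_eq_fintype_card] at h1
    exact h1
  have hd : r₁ * (p ^ κ + 1) * F.natDegree < Fintype.card K := by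
    have h1 : (p ^ κ) ^ 2 - 1 = r₁ * v * (p ^ κ + 1) := by
      have h2 : (p ^ κ) ^ 2 = r₁ * v * (p ^ κ + 1) + 1 := by
        rw [← hrv]; ring
      omega
    rw [h1] at hdeg
    have h3 : v * (r₁ * (p ^ κ + 1) * F.natDegree) ≤ v * (Fintype.card K - 1) := by
      calc v * (r₁ * (p ^ κ + 1) * F.natDegree)
          = F.natDegree * (r₁ * v * (p ^ κ + 1)) := by ring
        _ ≤ v * (Fintype.card K - 1) := hdeg
    have h4 := Nat.le_of_mul_le_mul_left h3 (Nat.pos_of_ne_zero hv0)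
    have := Fintype.card_pos (α := K)
    omega
  have hs : (w₁ ^ v)⁻¹ ≠ 0 := inv_ne_zero (pow_ne_zero _ hw₁0)
  obtain ⟨c, g, hcg⟩ := caseII (K := K) (p := p) (κ := κ) (N := Module.finrank E K) (v := v)
    (r₁ := r₁) hcardK hκ hrv hθ (F := C (w₁ ^ v)⁻¹ * F)
    (by rw [natDegree_C_mul hs]; exact hF)
    (by
      intro a
      obtain ⟨u, hu, hua⟩ := hval a
      obtain ⟨x, y, hxy⟩ := hrepr u hu
      refine ⟨x, y, (mem_subfield_iff hE _).1 x.2, (mem_subfield_iff hE _).1 y.2, ?_⟩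
      rw [eval_mul, eval_C, hua, ← inv_pow, ← mul_pow, hxy]
      congr 1
      field_simp)
    (by rw [natDegree_C_mul hs]; exact hd)
  refine ⟨w₁ ^ v * c, g, ?_⟩
  rw [C_mul, mul_assoc, ← hcg, ← mul_assoc, ← C_mul, mul_inv_cancel₀ (pow_ne_zero _ hw₁0), C_1,
    one_mul]

/-- the linear map `u ↦ u ^ Q - w ^ (Q - 1) u` -/
noncomputable def Lmap {E : Subfield K} {κ : ℕ} (hE : Nat.card E = p ^ κ) (c : K) : K →ₗ[E] K where
  toFun u := u ^ p ^ κ - c * u
  map_add' x y := by rw [add_pow_char_pow]; ring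
  map_smul' e x := by
    have h1 := (mem_subfield_iff hE (e : K)).1 e.2
    rw [RingHom.id_apply]
    change ((e : K) * x) ^ p ^ κ - c * ((e : K) * x) = (e : K) * (x ^ p ^ κ - c * x)
    rw [mul_pow, h1]; ring

theorem finrank_map_Lmap {E : Subfield K} {κ m : ℕ} (hE : Nat.card E = p ^ κ) (hκ : 1 ≤ κ)
    {U : Submodule E K} (hU : Module.finrank E U = m + 1) {w : K} (hw : w ∈ U) (hw0 : w ≠ 0) :
    Module.finrank E (U.map (Lmap hE (w ^ (p ^ κ - 1)))) = m := by
  have hQ1 : 1 < p ^ κ := Nat.one_lt_pow (by omega) hp.out.one_lt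
  have hwQ : w ^ (p ^ κ - 1) * w = w ^ p ^ κ := by
    rw [← pow_succ]; congr 1; omega
  set L := Lmap hE (w ^ (p ^ κ - 1)) with hL
  have hLapp : ∀ u, L u = u ^ p ^ κ - w ^ (p ^ κ - 1) * u := fun u => rfl
  have h1 := LinearMap.finrank_range_add_finrank_ker (L.domRestrict U)
  rw [LinearMap.range_domRestrict, hU] at h1
  have h2 : Module.finrank E (LinearMap.ker (L.domRestrict U)) = 1 := by
    have hwk : (⟨w, hw⟩ : U) ∈ LinearMap.ker (L.domRestrict U) := by
      rw [LinearMap.mem_ker, LinearMap.domRestrict_apply, hLapp]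
      change w ^ p ^ κ - w ^ (p ^ κ - 1) * w = 0
      rw [hwQ, sub_self]
    refine finrank_eq_one (⟨⟨w, hw⟩, hwk⟩ : LinearMap.ker (L.domRestrict U)) ?_ ?_
    · intro h
      have h3 := congrArg (fun z : LinearMap.ker (L.domRestrict U) => ((z : U) : K)) h
      exact hw0 h3
    · rintro ⟨⟨u, hu⟩, huk⟩
      rw [LinearMap.mem_ker, LinearMap.domRestrict_apply, hLapp] at huk
      change u ^ p ^ κ - w ^ (p ^ κ - 1) * u = 0 at huk
      have h3 : u ^ p ^ κ = w ^ (p ^ κ - 1) * u := sub_eq_zero.1 huk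
      have h4 : (u / w) ^ p ^ κ = u / w := by
        rw [div_pow, h3, div_eq_div_iff (pow_ne_zero _ hw0) hw0, ← hwQ]; ring
      refine ⟨⟨u / w, (mem_subfield_iff hE _).2 h4⟩, ?_⟩
      apply Subtype.ext
      apply Subtype.ext
      change (u / w) * w = u
      exact div_mul_cancel₀ _ hw0
  omega

theorem core_dim {κ v r₁ : ℕ} (hκ : 1 ≤ κ) (hrv : r₁ * v + 1 = p ^ κ) {E : Subfield K}
    (hE : Nat.card E = p ^ κ) : ∀ m, 2 ≤ m → ∀ U : Submodule E K, Module.finrank E U = m →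
    ∀ F : K[X], 0 < F.natDegree → (∀ a : K, ∃ u ∈ U, F.eval a = u ^ v) →
    F.natDegree * ((p ^ κ) ^ m - 1) ≤ v * (Fintype.card K - 1) →
    ∃ (c : K) (g : K[X]), F = C c * g ^ v := by
  intro m hm
  induction m, hm using Nat.le_induction with
  | base =>
    intro U hU F hF hval hdeg
    exact base_two hκ hrv hE hU hF hval hdeg
  | succ m hm ih =>
    intro U hU F hF hval hdeg
    have hQ1 : 1 < p ^ κ := Nat.one_lt_pow (by omega) hp.out.one_lt
    have hv0 : v ≠ 0 := by rintro rfl; omega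
    have hr0 : r₁ ≠ 0 := by rintro rfl; omega
    have hF0 : F ≠ 0 := by rintro rfl; simp at hF
    -- a nonzero element
    obtain ⟨w, hw, hw0⟩ : ∃ w ∈ U, w ≠ 0 := by
      by_contra hne
      push Not at hne
      have : U = ⊥ := by
        rw [Submodule.eq_bot_iff]; exact hne
      rw [this, finrank_bot] at hU
      omega
    set c := w ^ (p ^ κ - 1) with hc
    set L := Lmap (p := p) hE c with hL
    have hfin := finrank_map_Lmap (p := p) hE hκ hU hw hw0
    set A := F ^ r₁ - C c with hA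
    have hAdeg : A.natDegree = r₁ * F.natDegree := by
      rw [hA, natDegree_sub_C, natDegree_pow]
    have hA0 : A ≠ 0 := by
      intro h
      rw [h, natDegree_zero] at hAdeg
      have := Nat.mul_pos (Nat.pos_of_ne_zero hr0) hF
      omega
    have hF1deg : (F * A ^ v).natDegree = p ^ κ * F.natDegree := by
      rw [natDegree_mul hF0 (pow_ne_zero _ hA0), natDegree_pow, hAdeg, ← hrv]; ring
    obtain ⟨c₁, g, hcg⟩ := ih (U.map L) hfin (F * A ^ v)
      (by rw [hF1deg]; exact Nat.mul_pos (by omega) hF)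
      (by
        intro a
        obtain ⟨u, hu, hua⟩ := hval a
        refine ⟨L u, Submodule.mem_map_of_mem hu, ?_⟩
        rw [eval_mul, eval_pow, hA, eval_sub, eval_pow, eval_C, hua, ← mul_pow]
        congr 1
        change u * ((u ^ v) ^ r₁ - c) = u ^ p ^ κ - c * u
        have : u * (u ^ v) ^ r₁ = u ^ p ^ κ := by
          rw [← pow_mul, ← pow_succ', mul_comm v r₁, hrv]
        rw [← this]; ring)
      (by
        rw [hF1deg]
        refine le_trans ?_ hdeg
        calc p ^ κ * F.natDegree * ((p ^ κ) ^ m - 1)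
            = F.natDegree * (p ^ κ * ((p ^ κ) ^ m - 1)) := by ring
          _ ≤ F.natDegree * ((p ^ κ) ^ (m + 1) - 1) := by
              apply Nat.mul_le_mul_left
              rw [Nat.mul_sub, mul_one, ← pow_succ']
              omega)
    have hc1 : c₁ ≠ 0 := by
      rintro rfl
      rw [C_0, zero_mul] at hcg
      exact (mul_ne_zero hF0 (pow_ne_zero _ hA0)) hcg
    have h1 : A ^ v ∣ g ^ v := by
      have h2 : A ^ v ∣ C c₁ * g ^ v := ⟨F, by rw [← hcg]; ring⟩
      exact (isUnit_C.2 (IsUnit.mk0 c₁ hc1)).dvd_mul_left.1 h2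
    obtain ⟨g₁, rfl⟩ := (UniqueFactorizationMonoid.pow_dvd_pow_iff_dvd hv0).1 h1
    refine ⟨c₁, g₁, ?_⟩
    apply mul_right_cancel₀ (pow_ne_zero v hA0)
    rw [hcg, mul_pow]; ring

end MV286
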