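import Pool.Agent.V11286.MV.Hasse

/-! The lifted polynomial has a repeated factor. -/

set_option linter.unusedSectionVars false

namespace MV286

open Polynomial

theorem choose_pow_mul_mod (p : ℕ) [Fact p.Prime] (m i : ℕ) :
    (p ^ i * m).choose (p ^ i) ≡ m [MOD p] := by
  have hp : 0 < p := (Fact.out : p.Prime).pos
  induction i with
  | zero => simp [Nat.ModEq]
  | succ i ih =>
    have h1 := Choose.choose_modEq_choose_mod_mul_choose_div_nat (p := p)
      (n := p ^ (i + 1) * m) (k := p ^ (i + 1))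
    have e1 : p ^ (i + 1) * m % p = 0 := by
      rw [pow_succ, mul_right_comm]; exact Nat.mul_mod_left _ _
    have e2 : p ^ (i + 1) % p = 0 := by
      rw [pow_succ]; exact Nat.mul_mod_left _ _
    have e3 : p ^ (i + 1) * m / p = p ^ i * m := by
      rw [pow_succ, mul_right_comm]; exact Nat.mul_div_cancel _ hp
    have e4 : p ^ (i + 1) / p = p ^ i := by
      rw [pow_succ]; exact Nat.mul_div_cancel _ hp
    rw [e1, e2, e3, e4, Nat.choose_self, one_mul] at h1
    exact h1.trans ih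

theorem choose_succ_mod (p : ℕ) [Fact p.Prime] (m i : ℕ) (hi : i ≠ 0) :
    (p ^ i * m + 1).choose (p ^ i) ≡ m [MOD p] := by
  have hp : 0 < p := (Fact.out : p.Prime).pos
  have hp2 : 1 < p := (Fact.out : p.Prime).one_lt
  obtain ⟨k, rfl⟩ := Nat.exists_eq_succ_of_ne_zero hi
  have h1 := Choose.choose_modEq_choose_mod_mul_choose_div_nat (p := p)
    (n := p ^ (k + 1) * m + 1) (k := p ^ (k + 1))
  have e0 : p ^ (k + 1) * m + 1 = 1 + p * (p ^ k * m) := by rw [pow_succ]; ring
  have e1 : (p ^ (k + 1) * m + 1) % p = 1 := by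
    rw [e0, Nat.add_mul_mod_self_left, Nat.mod_eq_of_lt hp2]
  have e2 : p ^ (k + 1) % p = 0 := by
    rw [pow_succ]; exact Nat.mul_mod_left _ _
  have e3 : (p ^ (k + 1) * m + 1) / p = p ^ k * m := by
    rw [e0, Nat.add_mul_div_left _ _ hp, Nat.div_eq_of_lt hp2, zero_add]
  have e4 : p ^ (k + 1) / p = p ^ k := by
    rw [pow_succ]; exact Nat.mul_div_cancel _ hp
  rw [e1, e2, e3, e4, Nat.choose_zero_right, one_mul] at h1
  exact h1.trans (choose_pow_mul_mod p m k)

variable {K : Type*} [Field K]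

theorem hasseDeriv_map' {R S : Type*} [CommRing R] [CommRing S] (f : R →+* S) (G : R[X]) (j : ℕ) :
    (hasseDeriv j G).map f = hasseDeriv j (G.map f) := by
  ext i
  rw [coeff_map, hasseDeriv_coeff, hasseDeriv_coeff, coeff_map, map_mul, map_natCast]

theorem lift_relation {n b v j : ℕ} (hv : v ≠ 0) (hj : j ≤ v) (hjb : (j + 1) * v < b)
    {Fh : (MvPolynomial (Fin n) K)[X]} {N ρ₀ ρ₁ : K[X]} (hdeg : CDeg v Fh)
    (hmap : Fh.map (sb K b n).toRingHom = C N * (C ρ₁ * X + C ρ₀) ^ v) :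
    hasseDeriv j Fh * (C (MvPolynomial.C (v : K) * Fh.coeff v) * X + C (Fh.coeff (v - 1))) ^ j
      = C (MvPolynomial.C (v.choose j : K)) * Fh
        * C (MvPolynomial.C (v : K) * Fh.coeff v) ^ j := by
  have h0 : ∀ k, (MvPolynomial.C (v : K) * Fh.coeff v).degreeOf k ≤ v := fun k =>
    (MvPolynomial.degreeOf_C_mul_le _ _ _).trans (hdeg _ _)
  apply CDeg.inj (b := b) hjb
  · have h1 : CDeg (v + 0) (C (MvPolynomial.C (v : K) * Fh.coeff v) * X
        : (MvPolynomial (Fin n) K)[X]) := (CDeg.C' h0).mul CDeg.X'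
    have h2 : CDeg v (C (MvPolynomial.C (v : K) * Fh.coeff v) * X + C (Fh.coeff (v - 1))) :=
      CDeg.add h1 (CDeg.C' (fun k => hdeg _ _))
    exact ((hdeg.hasse j).mul (h2.pow j)).mono (by ring_nf; exact le_rfl)
  · have h3 : CDeg 0 (C (MvPolynomial.C (v.choose j : K)) : (MvPolynomial (Fin n) K)[X]) := by
      apply CDeg.C'
      intro k
      rw [MvPolynomial.degreeOf_C]
    exact ((h3.mul hdeg).mul ((CDeg.C' h0).pow j)).mono (by ring_nf; exact le_rfl)
  · set μ := (sb K b n).toRingHom with hμ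
    obtain ⟨w, hw⟩ := Nat.exists_eq_succ_of_ne_zero hv
    have hμC : ∀ c : K, μ (MvPolynomial.C c) = C c := fun c => sb_C b n c
    have hcv : μ (Fh.coeff v) = N * ρ₁ ^ v := by
      rw [← coeff_map, hmap, coeff_C_mul, coeff_lin_pow, Nat.sub_self, Nat.choose_self]
      simp
    have hcv1 : μ (Fh.coeff (v - 1)) = N * (ρ₁ ^ w * ρ₀ * C (v : K)) := by
      rw [← coeff_map, hmap, coeff_C_mul, coeff_lin_pow]
      have e1 : v - 1 = w := by omega
      have e2 : v - w = 1 := by omega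
      rw [e1, e2, pow_one]
      congr 2
      rw [hw, Nat.succ_eq_add_one, Nat.choose_succ_self_right, C_eq_natCast]
    have m1 : (hasseDeriv j Fh).map μ = hasseDeriv j (C N * (C ρ₁ * X + C ρ₀) ^ v) := by
      rw [hasseDeriv_map', hmap]
    have m2 : (C (MvPolynomial.C (v : K) * Fh.coeff v) * X + C (Fh.coeff (v - 1))).map μ
        = C (C (v : K) * (N * ρ₁ ^ v)) * X + C (N * (ρ₁ ^ w * ρ₀ * C (v : K))) := by
      rw [Polynomial.map_add, Polynomial.map_mul, map_C, map_C, map_X, map_mul, hcv, hcv1, hμC]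
    have m3 : (C (MvPolynomial.C (v : K) * Fh.coeff v)).map μ = C (C (v : K) * (N * ρ₁ ^ v)) := by
      rw [map_C, map_mul, hcv, hμC]
    have m4 : (C (MvPolynomial.C (v.choose j : K)) : (MvPolynomial (Fin n) K)[X]).map μ
        = C (C (v.choose j : K)) := by
      rw [map_C, hμC]
    rw [Polynomial.map_mul, Polynomial.map_pow, m1, m2, Polynomial.map_mul, Polynomial.map_mul,
      Polynomial.map_pow, m3, m4, hmap]
    have e3 : hasseDeriv j (C N * (C ρ₁ * X + C ρ₀) ^ v)
        = C N * (C (((v.choose j : ℕ) : K[X]) * ρ₁ ^ j) * (C ρ₁ * X + C ρ₀) ^ (v - j)) := by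
      rw [← hasseDeriv_lin_pow, ← smul_eq_C_mul, map_smul, smul_eq_C_mul]
    rw [e3]
    have e4 : (C (C (v : K) * (N * ρ₁ ^ v)) * X + C (N * (ρ₁ ^ w * ρ₀ * C (v : K))) : K[X][X])
        = C (C (v : K) * N * ρ₁ ^ w) * (C ρ₁ * X + C ρ₀) := by
      have : ρ₁ ^ v = ρ₁ ^ w * ρ₁ := by rw [hw, pow_succ]
      rw [this]
      simp only [C_mul, C_pow]
      ring
    have e5 : ρ₁ ^ v = ρ₁ ^ w * ρ₁ := by rw [hw, pow_succ]
    have e6 : (C ρ₁ * X + C ρ₀ : K[X][X]) ^ v
        = (C ρ₁ * X + C ρ₀) ^ (v - j) * (C ρ₁ * X + C ρ₀) ^ j := by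
      rw [← pow_add]; congr 1; omega
    rw [e4, e5, e6]
    simp only [C_mul, C_pow, mul_pow, C_eq_natCast]
    ring

/-- The lifted polynomial has a repeated factor, linear in the top variable. -/
theorem exists_sq_factor {p : ℕ} [hp : Fact p.Prime] [CharP K p] {n κ v r : ℕ}
    (hrv : r * v + 1 = p ^ κ) (hr : 2 ≤ r) (hv : 1 < v)
    (hmin : ∀ j, 1 ≤ j → j < κ → ¬ r ∣ p ^ j - 1)
    {Fh : (MvPolynomial (Fin n) K)[X]} {N ρ₀ ρ₁ : K[X]} (hN : N ≠ 0) (hρ₁ : ρ₁ ≠ 0)
    (hdeg : CDeg v Fh)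
    (hmap : Fh.map (sb K (p ^ κ) n).toRingHom = C N * (C ρ₁ * X + C ρ₀) ^ v) :
    ∃ π : (MvPolynomial (Fin n) K)[X], Prime π ∧ π.natDegree = 1 ∧ π ^ 2 ∣ Fh := by
  have hv0 : v ≠ 0 := by omega
  have hκ0 : κ ≠ 0 := by
    rintro rfl
    rw [pow_zero] at hrv
    have : r * v = 0 := by omega
    rcases Nat.mul_eq_zero.1 this with h | h <;> omega
  have hvK : (v : K) ≠ 0 := by
    intro h
    have h1 : ((r * v + 1 : ℕ) : K) = 0 := by
      rw [hrv]; push_cast; rw [CharP.cast_eq_zero K p, zero_pow hκ0]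
    push_cast at h1
    rw [h, mul_zero, zero_add] at h1
    exact one_ne_zero h1
  set cv := MvPolynomial.C (v : K) * Fh.coeff v with hcvdef
  have hcoeff : Fh.coeff v ≠ 0 := by
    intro h
    have h1 : (sb K (p ^ κ) n).toRingHom (Fh.coeff v) = N * ρ₁ ^ v := by
      rw [← coeff_map, hmap, coeff_C_mul, coeff_lin_pow, Nat.sub_self, Nat.choose_self]
      simp
    rw [h, map_zero] at h1
    exact (mul_ne_zero hN (pow_ne_zero _ hρ₁)) h1.symm
  have hcv : cv ≠ 0 := mul_ne_zero (by rw [Ne, MvPolynomial.C_eq_zero]; exact hvK) hcoeff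
  clear_value cv
  obtain ⟨a', b', g, hrel, hg1, hg2⟩ :=
    UniqueFactorizationMonoid.exists_reduced_factors cv hcv (Fh.coeff (v - 1))
  have hg0 : g ≠ 0 := by rintro rfl; rw [zero_mul] at hg1; exact hcv hg1.symm
  have ha0 : a' ≠ 0 := by rintro rfl; rw [mul_zero] at hg1; exact hcv hg1.symm
  set π : (MvPolynomial (Fin n) K)[X] := C a' * X + C b' with hπ
  have hprime : Prime π := (irreducible_C_mul_X_add_C ha0 hrel).prime
  have hπdeg : π.natDegree = 1 := natDegree_linear ha0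
  have hπℓ : C cv * X + C (Fh.coeff (v - 1)) = C g * π := by
    rw [hπ, ← hg1, ← hg2, C_mul, C_mul]; ring
  have hnd : ∀ e : MvPolynomial (Fin n) K, e ≠ 0 → ¬ π ∣ C e := by
    intro e he hdvd
    have := natDegree_le_of_dvd hdvd (C_ne_zero.2 he)
    rw [hπdeg, natDegree_C] at this
    omega
  refine ⟨π, hprime, hπdeg, ?_⟩
  have hcase : (v - 1 : K) = 0 ∨ (v - 1 : K) ≠ 0 := em _
  rcases hcase with h1 | h1
  · -- `v ≡ 1 mod p`
    have hpdvd : p ∣ v - 1 := by
      have h2 : ((v - 1 : ℕ) : K) = 0 := by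
        rw [Nat.cast_sub (by omega), Nat.cast_one]; exact h1
      exact (CharP.cast_eq_zero_iff K p _).1 h2
    obtain ⟨i, m, hm, him⟩ := Nat.exists_eq_pow_mul_and_not_dvd (n := v - 1) (by omega) p
      hp.out.ne_one
    have hi : i ≠ 0 := by
      rintro rfl
      rw [pow_zero, one_mul] at him
      rw [him] at hpdvd
      exact hm hpdvd
    have hm0 : 1 ≤ m := by
      rw [Nat.one_le_iff_ne_zero]; rintro rfl; exact hm (dvd_zero p)
    have hvm : v = p ^ i * m + 1 := by omega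
    have hp2 : 2 ≤ p ^ i := by
      calc 2 ≤ p := hp.out.two_le
        _ ≤ p ^ i := Nat.le_self_pow hi p
    have hpiv : p ^ i < v := by
      have : p ^ i * 1 ≤ p ^ i * m := Nat.mul_le_mul_left _ hm0
      omega
    have hvr : v ≤ r * v := Nat.le_mul_of_pos_left v (by omega)
    have hiκ : i < κ := by
      have h2 : p ^ i < p ^ κ := by omega
      exact (Nat.pow_lt_pow_iff_right hp.out.one_lt).1 h2
    have hdvd : p ^ i ∣ r + 1 := by
      have h2 : p ^ i ∣ (r + 1) + p ^ i * (r * m) := by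
        have : (r + 1) + p ^ i * (r * m) = p ^ κ := by rw [← hrv, hvm]; ring
        rw [this]; exact pow_dvd_pow p hiκ.le
      exact (Nat.dvd_add_left (dvd_mul_right _ _)).1 h2
    obtain ⟨c, hc⟩ := hdvd
    have hc2 : 2 ≤ c := by
      by_contra hlt
      have hc01 : c = 0 ∨ c = 1 := by omega
      rcases hc01 with rfl | rfl
      · omega
      · apply hmin i (by omega) hiκ
        rw [mul_one] at hc
        have : p ^ i - 1 = r := by omega
        rw [this]
    have hjr : p ^ i + 1 ≤ r := by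
      have : p ^ i * 2 ≤ p ^ i * c := Nat.mul_le_mul_left _ hc2
      omega
    have hjb : (p ^ i + 1) * v < p ^ κ := by
      have : (p ^ i + 1) * v ≤ r * v := Nat.mul_le_mul_right _ hjr
      omega
    have hR := lift_relation (K := K) hv0 hpiv.le hjb hdeg hmap
    rw [← hcvdef, hπℓ] at hR
    have hch : ((v.choose (p ^ i) : ℕ) : K) ≠ 0 := by
      intro h0
      have h2 := (CharP.cast_eq_zero_iff K p _).1 h0
      rw [hvm] at h2
      have h3 := choose_succ_mod p m i hi
      exact hm ((Nat.ModEq.dvd_iff h3 dvd_rfl).1 h2)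
    have hdiv : π ^ (p ^ i) ∣ Fh * C (MvPolynomial.C (v.choose (p ^ i) : K) * cv ^ p ^ i) := by
      refine ⟨hasseDeriv (p ^ i) Fh * C g ^ p ^ i, ?_⟩
      rw [C_mul, C_pow]
      calc Fh * (C (MvPolynomial.C (v.choose (p ^ i) : K)) * C cv ^ p ^ i)
          = C (MvPolynomial.C (v.choose (p ^ i) : K)) * Fh * C cv ^ p ^ i := by ring
        _ = hasseDeriv (p ^ i) Fh * (C g * π) ^ p ^ i := hR.symm
        _ = π ^ p ^ i * (hasseDeriv (p ^ i) Fh * C g ^ p ^ i) := by rw [mul_pow]; ring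
    have h5 : π ^ (p ^ i) ∣ Fh := by
      refine hprime.pow_dvd_of_dvd_mul_right _ (hnd _ ?_) hdiv
      exact mul_ne_zero (by rw [Ne, MvPolynomial.C_eq_zero]; exact hch) (pow_ne_zero _ hcv)
    exact (pow_dvd_pow π hp2).trans h5
  · -- `v ≢ 1 mod p`
    have hjb : (1 + 1) * v < p ^ κ := by
      have : (1 + 1) * v ≤ r * v := Nat.mul_le_mul_right _ hr
      omega
    have hR := lift_relation (K := K) hv0 (by omega : 1 ≤ v) hjb hdeg hmap
    rw [← hcvdef, hasseDeriv_one', pow_one, pow_one, Nat.choose_one_right, hπℓ] at hR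
    have hvC : (MvPolynomial.C (v : K) : MvPolynomial (Fin n) K) ≠ 0 := by
      rw [Ne, MvPolynomial.C_eq_zero]; exact hvK
    have hdiv : π ∣ Fh * C (MvPolynomial.C (v : K) * cv) := by
      refine ⟨derivative Fh * C g, ?_⟩
      rw [C_mul]
      calc Fh * (C (MvPolynomial.C (v : K)) * C cv)
          = C (MvPolynomial.C (v : K)) * Fh * C cv := by ring
        _ = derivative Fh * (C g * π) := hR.symm
        _ = π * (derivative Fh * C g) := by ring
    have h2 : π ∣ Fh :=
      (hprime.dvd_or_dvd hdiv).resolve_right (hnd _ (mul_ne_zero hvC hcv))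
    obtain ⟨F2, hF2⟩ := h2
    have hπ' : derivative π = C a' := by
      rw [hπ, derivative_add, derivative_C, derivative_C_mul, derivative_X]; ring
    have h3 : C (MvPolynomial.C ((v : K) - 1) * cv) * F2 = π * (derivative F2 * C g) := by
      apply mul_left_cancel₀ hprime.ne_zero
      have e1 : derivative Fh = C a' * F2 + π * derivative F2 := by
        rw [hF2, derivative_mul, hπ']
      rw [e1] at hR
      have e2 : (C cv : (MvPolynomial (Fin n) K)[X]) = C g * C a' := by rw [← C_mul, hg1]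
      rw [C_mul, e2]
      rw [hF2, e2] at hR
      have e3 : (C (MvPolynomial.C ((v : K) - 1)) : (MvPolynomial (Fin n) K)[X])
          = C (MvPolynomial.C (v : K)) - 1 := by
        rw [MvPolynomial.C_sub, C_sub, MvPolynomial.C_1, C_1]
      rw [e3]
      linear_combination - hR
    have h4 : π ∣ F2 := by
      have h5 : π ∣ C (MvPolynomial.C ((v : K) - 1) * cv) * F2 := ⟨_, h3⟩
      refine (hprime.dvd_or_dvd h5).resolve_left (hnd _ (mul_ne_zero ?_ hcv))
      rw [Ne, MvPolynomial.C_eq_zero]; exact h1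
    obtain ⟨F3, hF3⟩ := h4
    exact ⟨F3, by rw [hF2, hF3]; ring⟩

end MV286
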