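import Pool.Agent.V11286.MV.Dim
import Pool.Agent.V11286.MV.CaseI

/-! The case where the subspace is a field, and the final equalities. -/

set_option linter.unusedSectionVars false

namespace MV286

open Polynomial

variable {K : Type*} [Field K] [Fintype K] {p : ℕ} [hp : Fact p.Prime] [CharP K p]

theorem card_eq_pow_of_subfield {M : Subfield K} {Q : ℕ} (hM : Nat.card M = Q) :
    ∃ n, Fintype.card K = Q ^ (n + 1) := by
  have h1 := Module.natCard_eq_pow_finrank (K := M) (V := K)
  rw [hM, Nat.card_eq_fintype_card] at h1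
  have h2 : Module.finrank M K ≠ 0 := by
    intro h
    rw [h, pow_zero] at h1
    have := Fintype.one_lt_card (α := K)
    omega
  obtain ⟨n, hn⟩ := Nat.exists_eq_succ_of_ne_zero h2
  exact ⟨n, by rw [h1, hn]⟩

theorem sub_one_dvd_card {M : Subfield K} {Q : ℕ} (hM : Nat.card M = Q) :
    Q - 1 ∣ Fintype.card K - 1 := by
  obtain ⟨n, hn⟩ := card_eq_pow_of_subfield hM
  rw [hn]
  have := Nat.sub_dvd_pow_sub_pow Q 1 (n + 1)
  rwa [one_pow] at this

theorem one_lt_card_subfield {M : Subfield K} {Q : ℕ} (hM : Nat.card M = Q) : 1 < Q := by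
  rw [← hM]
  exact Finite.one_lt_card

theorem core_field {e r t : ℕ} (hr : 2 ≤ r) {M : Subfield K} (hM : Nat.card M = p ^ e)
    (ht : r * t = p ^ e - 1) (hmin : ∀ j, 1 ≤ j → j < e → ¬ r ∣ p ^ j - 1)
    (F : K[X]) (hF : 0 < F.natDegree) (hval : ∀ a : K, ∃ u ∈ (M : Set K), F.eval a = u ^ t)
    (hdeg : F.natDegree * ((M : Set K).ncard - 1) ≤ t * (Fintype.card K - 1)) :
    ∃ (c : K) (g : K[X]), F = C c * g ^ t := by
  have hQ1 := one_lt_card_subfield hM
  have he : 1 ≤ e := by
    rw [Nat.one_le_iff_ne_zero]; rintro rfl; simp at hQ1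
  have ht0 : t ≠ 0 := by
    rintro rfl; omega
  obtain ⟨n, hn⟩ := card_eq_pow_of_subfield hM
  refine caseI (K := K) (p := p) (κ := e) (n := n) hn he t r (by omega) hr hmin F hF ?_ ?_
  · intro a
    obtain ⟨u, hu, hua⟩ := hval a
    by_cases hu0 : u = 0
    · left; rw [hua, hu0, zero_pow ht0]
    · right
      rw [hua, ← pow_mul, mul_comm, ht]
      have h1 := (mem_subfield_iff hM u).1 hu
      have h2 : u ^ (p ^ e - 1) * u = 1 * u := by
        rw [← pow_succ, one_mul]
        have : p ^ e - 1 + 1 = p ^ e := by omega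
        rw [this, h1]
      exact mul_right_cancel₀ hu0 h2
  · have hMn : (M : Set K).ncard = p ^ e := by rw [← hM]; rfl
    rw [hMn, ← ht] at hdeg
    have h1 : t * (r * F.natDegree) ≤ t * (Fintype.card K - 1) := by
      calc t * (r * F.natDegree) = F.natDegree * (r * t) := by ring
        _ ≤ _ := hdeg
    have h2 := Nat.le_of_mul_le_mul_left h1 (Nat.pos_of_ne_zero ht0)
    have := Fintype.card_pos (α := K)
    omega

/-- Non-field case. -/
theorem nonfield_case {k v m : ℕ} (hk0 : 0 < k) (hv : v ∣ p ^ k - 1) {E : Subfield K}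
    (hE : Nat.card E = p ^ k) {U : Submodule E K} (hm : Module.finrank E U = m)
    (h1 : (1 : K) ∈ U) (hnf : ¬ ∃ L : Subfield K, (L : Set K) = (U : Set K)) :
    PSet (powSet v (U : Set K)) = {F | ∃ f ∈ PSet (U : Set K), F = f ^ v} := by
  have hQ1 := one_lt_card_subfield hE
  obtain ⟨r₁, hr₁⟩ := hv
  have hrv : r₁ * v + 1 = p ^ k := by rw [mul_comm r₁ v, ← hr₁]; omega
  have hvq : v ∣ Fintype.card K - 1 := (Dvd.intro r₁ hr₁.symm).trans (sub_one_dvd_card hE)
  -- dimension at least two
  have hm2 : 2 ≤ m := by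
    by_contra hlt
    have hm01 : m = 0 ∨ m = 1 := by omega
    rcases hm01 with rfl | rfl
    · have h2 : U = ⊥ := Submodule.finrank_eq_zero.1 hm
      rw [h2, Submodule.mem_bot] at h1
      exact one_ne_zero h1
    · apply hnf
      refine ⟨E, ?_⟩
      have hne : (⟨1, h1⟩ : U) ≠ 0 := by
        intro h
        exact one_ne_zero (congrArg Subtype.val h)
      have h3 := (finrank_eq_one_iff_of_nonzero' (⟨1, h1⟩ : U) hne).1 hm
      ext x
      constructor
      · intro hx
        have : (⟨x, hx⟩ : E) • (1 : K) ∈ U := U.smul_mem _ h1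
        have e1 : (⟨x, hx⟩ : E) • (1 : K) = x := by
          change x * 1 = x
          rw [mul_one]
        rwa [e1] at this
      · intro hx
        obtain ⟨c, hc⟩ := h3 ⟨x, hx⟩
        have e1 : (c : K) * 1 = x := congrArg Subtype.val hc
        rw [mul_one] at e1
        rw [← e1]
        exact c.2
  apply pset_eq hvq U.zero_mem h1
  · intro ζ hζ u hu
    have h2 : ζ ∈ E := by
      rw [mem_subfield_iff hE]
      rw [← hrv, pow_succ, mul_comm r₁ v, pow_mul, hζ, one_pow, one_mul]
    exact U.smul_mem (⟨ζ, h2⟩ : E) hu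
  · intro F hF hval hdeg
    refine core_dim (p := p) hk0 hrv hE m hm2 U hm F hF hval ?_
    have h2 : (U : Set K).ncard = (p ^ k) ^ m := by
      have h3 := Module.natCard_eq_pow_finrank (K := E) (V := U)
      rw [hE, hm] at h3
      exact h3
    rw [h2] at hdeg
    exact hdeg

/-- Field case. -/
theorem field_case {k v m : ℕ} (hv : v ∣ p ^ k - 1) {E : Subfield K}
    (hE : Nat.card E = p ^ k) {U : Submodule E K} (hm : Module.finrank E U = m)
    (hU : 2 < (powSet v (U : Set K)).ncard) {L : Subfield K} (hL : (L : Set K) = (U : Set K))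
    {M : Subfield K} {e : ℕ} (hM : IsLeast {M' : Subfield K | powSet v (U : Set K) ⊆ M'} M)
    (he : Nat.card M = p ^ e) :
    PSet (powSet v (U : Set K)) =
      {F | ∃ f ∈ PSet (M : Set K), F = f ^ ((p ^ e - 1) * v / (p ^ (m * k) - 1))} := by
  classical
  have hQ1 := one_lt_card_subfield hE
  have hM1 := one_lt_card_subfield he
  have hUn : (U : Set K).ncard = (p ^ k) ^ m := by
    have h3 := Module.natCard_eq_pow_finrank (K := E) (V := U)
    rw [hE, hm] at h3
    exact h3
  have hLc : Nat.card L = p ^ (m * k) := by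
    have h2 : Nat.card L = (L : Set K).ncard := rfl
    rw [h2, hL, hUn, ← pow_mul, mul_comm]
  have hL1 := one_lt_card_subfield hLc
  have hv0 : v ≠ 0 := by
    rintro rfl
    rw [zero_dvd_iff] at hv
    omega
  -- v divides |L| - 1
  have hvL : v ∣ p ^ (m * k) - 1 := by
    refine hv.trans ?_
    rw [mul_comm, pow_mul]
    have := Nat.sub_dvd_pow_sub_pow (p ^ k) 1 m
    rwa [one_pow] at this
  obtain ⟨r, hr⟩ := hvL
  have hr' : r * v = p ^ (m * k) - 1 := by rw [hr, mul_comm]
  have hr0 : r ≠ 0 := by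
    rintro rfl; rw [zero_mul] at hr'; omega
  have hvq : v ∣ Fintype.card K - 1 := (Dvd.intro r hr.symm).trans (sub_one_dvd_card hLc)
  have hrq : r ∣ Fintype.card K - 1 := (Dvd.intro v hr').trans (sub_one_dvd_card hLc)
  have hS : powSet v (U : Set K) = {x | x = 0 ∨ x ^ r = 1} := by
    rw [← hL]
    exact powSet_subfield hLc hr' hv0 hvq hr0
  obtain ⟨ζ, hζ⟩ := exists_primitive (K := K) hrq
  have hζM : ζ ∈ M := by
    apply hM.1
    rw [hS]
    right; exact hζ.pow_eq_one
  have hrM : r ∣ p ^ e - 1 := by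
    apply hζ.dvd_of_pow_eq_one
    have h2 := (mem_subfield_iff he ζ).1 hζM
    have hζ0 : ζ ≠ 0 := hζ.ne_zero hr0
    have h3 : ζ ^ (p ^ e - 1) * ζ = 1 * ζ := by
      rw [← pow_succ, one_mul]
      have : p ^ e - 1 + 1 = p ^ e := by omega
      rw [this, h2]
    exact mul_right_cancel₀ hζ0 h3
  obtain ⟨t, ht⟩ := hrM
  have ht0 : t ≠ 0 := by
    rintro rfl; rw [mul_zero] at ht; omega
  have htq : t ∣ Fintype.card K - 1 := (Dvd.intro_left r ht.symm).trans (sub_one_dvd_card he)
  have hexp : (p ^ e - 1) * v / (p ^ (m * k) - 1) = t := by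
    rw [← hr', ht]
    have : r * t * v = t * (r * v) := by ring
    rw [this]
    apply Nat.mul_div_cancel
    rw [hr']; omega
  have hSM : powSet t (M : Set K) = {x | x = 0 ∨ x ^ r = 1} :=
    powSet_subfield he ht.symm ht0 htq hr0
  -- r ≥ 2
  have hr2 : 2 ≤ r := by
    by_contra hlt
    have hr1 : r = 1 := by omega
    rw [hS, hr1] at hU
    have h2 : ({x : K | x = 0 ∨ x ^ 1 = 1} : Set K) ⊆ {0, 1} := by
      intro x hx
      rcases hx with h | h
      · left; exact h
      · right; rw [pow_one] at h; exact h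
    have h3 := Set.ncard_le_ncard h2 (Set.toFinite _)
    have h4 : ({0, 1} : Set K).ncard ≤ 2 := by
      refine (Set.ncard_insert_le (0 : K) {1}).trans ?_
      rw [Set.ncard_singleton]
    omega
  -- minimality
  have hmin : ∀ j, 1 ≤ j → j < e → ¬ r ∣ p ^ j - 1 := by
    intro j hj1 hje hdvd
    obtain ⟨s, hs⟩ := hdvd
    have hpj : 1 < p ^ j := Nat.one_lt_pow (by omega) hp.out.one_lt
    let M' : Subfield K := (iterateFrobenius K p j).eqLocusField (RingHom.id K)
    have hM' : ∀ x, x ∈ M' ↔ x ^ p ^ j = x := by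
      intro x
      rw [RingHom.mem_eqLocusField, iterateFrobenius_def]; rfl
    have h2 : M ≤ M' := by
      apply hM.2
      change powSet v (U : Set K) ⊆ (M' : Set K)
      rw [hS]
      rintro x (h | h)
      · change x ∈ M'
        rw [h]; exact M'.zero_mem
      · change x ∈ M'
        rw [hM']
        have : p ^ j = r * s + 1 := by omega
        rw [this, pow_succ, pow_mul, h, one_pow, one_mul]
    have h3 : (M : Set K) ⊆ ((X ^ p ^ j - X : K[X]).roots.toFinset : Set K) := by
      intro x hx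
      have h4 := (hM' x).1 (h2 hx)
      rw [Finset.mem_coe, Multiset.mem_toFinset,
        mem_roots (FiniteField.X_pow_card_sub_X_ne_zero K hpj), IsRoot.def, eval_sub, eval_pow,
        eval_X, h4, sub_self]
    have h4 : (M : Set K).ncard ≤ p ^ j := by
      calc (M : Set K).ncard ≤ ((X ^ p ^ j - X : K[X]).roots.toFinset : Set K).ncard :=
            Set.ncard_le_ncard h3 (Finset.finite_toSet _)
        _ = (X ^ p ^ j - X : K[X]).roots.toFinset.card := Set.ncard_coe_finset _
        _ ≤ Multiset.card (X ^ p ^ j - X : K[X]).roots := Multiset.toFinset_card_le _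
        _ ≤ (X ^ p ^ j - X : K[X]).natDegree := card_roots' _
        _ = p ^ j := FiniteField.X_pow_card_sub_X_natDegree_eq K hpj
    have h5 : (M : Set K).ncard = p ^ e := by rw [← he]; rfl
    rw [h5] at h4
    have h6 : p ^ j < p ^ e := Nat.pow_lt_pow_right hp.out.one_lt hje
    omega
  rw [hexp, hS, ← hSM]
  apply pset_eq htq M.zero_mem M.one_mem
  · intro ζ hζ u hu
    apply M.mul_mem _ hu
    rw [mem_subfield_iff he]
    have h2 : ζ ^ (p ^ e - 1) = 1 := by rw [ht, mul_comm, pow_mul, hζ, one_pow]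
    have : p ^ e = p ^ e - 1 + 1 := by omega
    rw [this, pow_succ, h2, one_mul]
  · intro F hF hval hdeg
    exact core_field (p := p) hr2 he ht.symm hmin F hF hval hdeg

end MV286
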