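import Pool.Agent.V11286.MV.FormA

/-! From an equation `(F')^v = c F^(v-1) E` with `E` in `K[x^b]` to `F = κ g^v`. -/

set_option linter.unusedSectionVars false

namespace MV286

open Polynomial

variable {K : Type*} [Field K] [Fintype K] {p : ℕ} [hp : Fact p.Prime] [CharP K p]

theorem final_lift {β n v : ℕ} (hβ : β ≠ 0) (hq : Fintype.card K = (p ^ β) ^ (n + 1))
    {F E : K[X]} {c : K} (hv : v ≠ 0) (hvb : v < p ^ β) (hF0 : F ≠ 0)
    (hFd : F.natDegree < Fintype.card K)
    (hval : ∀ a : K, (F.eval a) ^ p ^ β = F.eval a)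
    (hE : (derivative F) ^ v = C c * F ^ (v - 1) * E) (hE0 : E ≠ 0) (hc : c ≠ 0)
    (hEs : ∀ t ∈ E.support, p ^ β ∣ t ∧ v + t ∈ F.support)
    (hδ : ∀ δ, δ * (p ^ β) ^ n ≤ F.natDegree → v * δ < p ^ β) :
    ∃ (c' : K) (g : K[X]), F = C c' * g ^ v := by
  classical
  set b := p ^ β with hb
  have hb0 : 0 < b := pow_pos hp.out.pos β
  obtain ⟨A, hA, hAF, hArot⟩ := exists_inv_lift (p := p) (β := β) (n := n) hq hFd hval
  have hA0 : A ≠ 0 := by
    rintro rfl
    rw [map_zero] at hAF
    exact hF0 hAF.symm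
  have hdeg0 := degreeOf_zero_mul_le hA hA0
  set δ := A.degreeOf 0 with hδdef
  have hvδ : v * δ < b := by
    apply hδ
    rw [hAF] at hdeg0
    exact hdeg0
  have hAdeg : ∀ j, A.degreeOf j = δ := fun j => degreeOf_inv hArot j
  -- lift of E
  have hEd : E.natDegree < Fintype.card K := by
    have h1 : E.natDegree ∈ E.support := natDegree_mem_support_of_nonzero hE0
    have h2 := le_natDegree_of_mem_supp _ (hEs _ h1).2
    omega
  obtain ⟨B, hB, hBE⟩ := exists_lift (K := K) hb0 (n + 1) (F := E) (by rw [← hq]; exact hEd)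
  have hBlast0 : ∀ m ∈ B.support, m (Fin.last n) = 0 := by
    intro m hm
    have h1 := sb_supp hB hm
    rw [hBE] at h1
    have h2 := val_mod b (fun j => hB.supp hm j)
    rw [← h2]
    exact Nat.mod_eq_zero_of_dvd (hEs _ h1).1
  have hBlast : B.degreeOf (Fin.last n) = 0 := by
    apply Nat.le_zero.1
    rw [MvPolynomial.degreeOf_le_iff]
    intro m hm
    rw [hBlast0 m hm]
  have hBdeg : ∀ j, B.degreeOf j ≤ δ := by
    intro j
    rw [MvPolynomial.degreeOf_le_iff]
    intro m hm
    by_cases hj : j = Fin.last n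
    · rw [hj, hBlast0 m hm]; exact Nat.zero_le _
    have h1 := sb_supp hB hm
    rw [hBE] at h1
    -- the digit vector of `v + val m`
    set m' : Fin (n + 1) →₀ ℕ := m + Finsupp.single (Fin.last n) v with hm'
    have hm'j : m' j = m j := by
      rw [hm', Finsupp.add_apply, Finsupp.single_eq_of_ne hj, add_zero]
    have hm'lt : ∀ i, m' i < b := by
      intro i
      by_cases hi : i = Fin.last n
      · rw [hi, hm', Finsupp.add_apply, Finsupp.single_eq_same, hBlast0 m hm, zero_add]
        exact hvb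
      · rw [hm', Finsupp.add_apply, Finsupp.single_eq_of_ne hi, add_zero]
        exact hB.supp hm i
    have hval' : val b m' = v + val b m := by
      unfold val
      rw [Fin.sum_univ_castSucc, Fin.sum_univ_castSucc]
      have e1 : ∀ i : Fin n, m' i.castSucc = m i.castSucc := by
        intro i
        rw [hm', Finsupp.add_apply,
          Finsupp.single_eq_of_ne (Fin.castSucc_lt_last i).ne, add_zero]
      simp_rw [e1]
      have e2 : m' (Fin.last n) = m (Fin.last n) + v := by
        rw [hm', Finsupp.add_apply, Finsupp.single_eq_same]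
      rw [e2]
      have e3 : ((Fin.last n).rev : ℕ) = 0 := by simp
      rw [e3, pow_zero]; ring
    have h3 : m' ∈ A.support := by
      rw [MvPolynomial.mem_support_iff, ← coeff_sb hA hm'lt, hval', hAF]
      exact mem_support_iff.1 (hEs _ h1).2
    rw [← hm'j]
    have h4 := MvPolynomial.monomial_le_degreeOf j h3
    rw [hAdeg j] at h4
    exact h4
  -- lifted identity
  obtain ⟨w, hw⟩ := Nat.exists_eq_succ_of_ne_zero hv
  have hlift : (MvPolynomial.pderiv (Fin.last n) A) ^ v
      = MvPolynomial.C c * A ^ (v - 1) * B := by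
    apply sb_inj (b := b)
    · intro j
      refine lt_of_le_of_lt (MvPolynomial.degreeOf_pow_le _ _ _) ?_
      refine lt_of_le_of_lt (Nat.mul_le_mul_left v (degreeOf_pderiv_le _ _ _)) ?_
      rw [hAdeg j]; exact hvδ
    · intro j
      refine lt_of_le_of_lt (MvPolynomial.degreeOf_mul_le _ _ _) ?_
      have h1 : (MvPolynomial.C c * A ^ (v - 1)).degreeOf j ≤ (v - 1) * δ := by
        refine (MvPolynomial.degreeOf_C_mul_le _ _ _).trans ?_
        refine (MvPolynomial.degreeOf_pow_le _ _ _).trans ?_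
        rw [hAdeg j]
      have h2 := hBdeg j
      have h3 : (v - 1) * δ + δ = v * δ := by
        rw [hw]; simp only [Nat.succ_eq_add_one, Nat.add_sub_cancel]; ring
      omega
    · rw [map_pow, sb_pderiv hβ, map_mul, map_mul, map_pow, sb_C, hAF, hBE, hE]
  obtain ⟨G, D, hGD, hD⟩ := split_of_ode hv hA0 hlift
  have hB0 : B ≠ 0 := by
    rintro rfl
    rw [map_zero] at hBE
    exact hE0 hBE.symm
  have hCB0 : MvPolynomial.C c * B ≠ 0 :=
    mul_ne_zero (by rw [Ne, MvPolynomial.C_eq_zero]; exact hc) hB0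
  have hDlast : D.degreeOf (Fin.last n) = 0 := by
    apply degreeOf_eq_zero_of_dvd hCB0 hD
    apply Nat.le_zero.1
    refine (MvPolynomial.degreeOf_C_mul_le _ _ _).trans ?_
    rw [hBlast]
  have hall : ∀ j, ∃ B' D' : MvPolynomial (Fin (n + 1)) K, A = B' ^ v * D' ∧
      D'.degreeOf j = 0 := by
    have step : ∀ i, (∃ B' D' : MvPolynomial (Fin (n + 1)) K, A = B' ^ v * D' ∧
      D'.degreeOf i = 0) → (∃ B' D' : MvPolynomial (Fin (n + 1)) K, A = B' ^ v * D' ∧
      D'.degreeOf (rfun n i) = 0) := by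
      rintro i ⟨B', D', h1, h2⟩
      refine ⟨rot K p β n B', rot K p β n D', ?_, ?_⟩
      · rw [← map_pow, ← map_mul, ← h1, hArot]
      · rw [degreeOf_rot]; exact h2
    intro j
    induction j using Fin.reverseInduction with
    | last => exact ⟨G, D, hGD, hDlast⟩
    | cast i ih =>
      have := step i.succ ih
      rwa [rfun_succ] at this
  obtain ⟨G', D', h1, h2⟩ := all_vars hA0 hv hall
  obtain ⟨c', rfl⟩ := const_of_degreeOf h2
  refine ⟨c', sb K b (n + 1) G', ?_⟩
  rw [← hAF, h1, map_mul, map_pow, sb_C]; ring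

end MV286
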