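import Pool.Agent.V11286.MV.Comb
import Pool.Agent.V11286.MV.Common

/-! Coefficient formulas. -/

set_option linter.unusedSectionVars false

namespace MV286

open Polynomial

variable {K : Type*} [Field K] {p : ℕ} [hp : Fact p.Prime] [CharP K p]

theorem coeff_pow_char (W : K[X]) {κ k : ℕ} (h : ¬ p ^ κ ∣ k) : (W ^ p ^ κ).coeff k = 0 := by
  rw [← map_iterateFrobenius_expand (p := p) W κ, coeff_map, coeff_expand (pow_pos hp.out.pos κ),
    if_neg h, map_zero]

theorem coeff_form {N S ρ : K[X]} {c : K} {v κ t : ℕ} (hv : v < p ^ κ) (ht : p ^ κ ∣ t) :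
    (N ^ p ^ κ * (C c * X * ρ ^ p ^ κ + S ^ p ^ κ) ^ v).coeff (v + t)
      = c ^ v * ((N * ρ ^ v) ^ p ^ κ).coeff t := by
  rw [add_pow, Finset.mul_sum, finsetSum_coeff, Finset.sum_eq_single v]
  · rw [Nat.choose_self, Nat.sub_self, pow_zero]
    have : N ^ p ^ κ * ((C c * X * ρ ^ p ^ κ) ^ v * 1 * ((1 : ℕ) : K[X]))
        = C (c ^ v) * (X ^ v * (N * ρ ^ v) ^ p ^ κ) := by
      rw [C_pow, mul_pow, mul_pow, mul_pow, ← pow_mul, ← pow_mul, mul_comm v (p ^ κ)]
      push_cast; ring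
    rw [this, coeff_C_mul, add_comm v t, coeff_X_pow_mul]
  · intro i hi hiv
    have hi' : i < v := lt_of_le_of_ne (Nat.lt_succ_iff.1 (Finset.mem_range.1 hi)) hiv
    have : N ^ p ^ κ * ((C c * X * ρ ^ p ^ κ) ^ i * (S ^ p ^ κ) ^ (v - i)
          * ((v.choose i : ℕ) : K[X]))
        = C (c ^ i * (v.choose i : K)) * (X ^ i * (N * ρ ^ i * S ^ (v - i)) ^ p ^ κ) := by
      rw [C_mul, C_pow, mul_pow, mul_pow, mul_pow, mul_pow, ← pow_mul, ← pow_mul, ← pow_mul,
        ← pow_mul, mul_comm i (p ^ κ), mul_comm (v - i) (p ^ κ), C_eq_natCast]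
      ring
    rw [this, coeff_C_mul, coeff_X_pow_mul', if_pos (by omega), coeff_pow_char, mul_zero]
    intro hdvd
    have h1 : p ^ κ ∣ v - i := by
      have h2 : v + t - i = (v - i) + t := by omega
      rw [h2] at hdvd
      exact (Nat.dvd_add_left ht).1 hdvd
    have := Nat.le_of_dvd (by omega) h1
    omega
  · intro h
    exact absurd (Finset.mem_range.2 (Nat.lt_succ_self v)) h

/-- reduction of `F ^ (Q ^ s)` modulo `X ^ q - X` -/
theorem exists_reduced_pow [Fintype K] {κ N s : ℕ} (hq : Fintype.card K = (p ^ κ) ^ N)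
    (hs : 1 ≤ s) (hsN : s ≤ N) {F : K[X]} (hF : F.natDegree < (p ^ κ) ^ (N - 1)) :
    ∃ G : K[X], (∀ a, G.eval a = (F.eval a) ^ (p ^ κ) ^ s) ∧ G.natDegree < Fintype.card K ∧
      ∀ k ∈ G.support, k % (p ^ κ) ^ s < (p ^ κ) ^ (s - 1) := by
  classical
  set Q := p ^ κ with hQ
  have hQ0 : 0 < Q := pow_pos hp.out.pos κ
  have hQs : Q ^ s = p ^ (κ * s) := by rw [hQ, ← pow_mul]
  clear_value Q
  set M := Q ^ (N - s) with hM
  have hM0 : 0 < M := pow_pos hQ0 _
  have hMs : M * Q ^ s = Q ^ N := by rw [hM, ← pow_add]; congr 1; omega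
  have hMs' : M * Q ^ (s - 1) = Q ^ (N - 1) := by rw [hM, ← pow_add]; congr 1; omega
  have hi1 : ∀ i ∈ F.support, i / M < Q ^ (s - 1) := by
    intro i hi
    apply Nat.div_lt_of_lt_mul
    rw [hMs']
    exact lt_of_le_of_lt (le_natDegree_of_mem_supp i hi) hF
  have hss : Q ^ (s - 1) ≤ Q ^ s := Nat.pow_le_pow_right hQ0 (Nat.sub_le _ _)
  have hbd : ∀ i ∈ F.support, i / M + (i % M) * Q ^ s < Q ^ N := by
    intro i hi
    have h1 := hi1 i hi
    have h2 : i % M < M := Nat.mod_lt _ hM0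
    have h3 : (i % M + 1) * Q ^ s ≤ M * Q ^ s := Nat.mul_le_mul_right _ h2
    rw [hMs] at h3
    have h4 : (i % M + 1) * Q ^ s = (i % M) * Q ^ s + Q ^ s := by ring
    omega
  refine ⟨∑ i ∈ F.support, monomial (i / M + (i % M) * Q ^ s) ((F.coeff i) ^ Q ^ s), ?_, ?_, ?_⟩
  · intro a
    rw [eval_finsetSum]
    have h1 : (F.eval a) ^ Q ^ s = ∑ i ∈ F.support, (F.coeff i * a ^ i) ^ Q ^ s := by
      rw [eval_eq_sum, sum_def, hQs, sum_pow_char_pow]
    rw [h1]
    apply Finset.sum_congr rfl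
    intro i _
    rw [eval_monomial, mul_pow]
    congr 1
    rw [← pow_mul, pow_add]
    have h2 : a ^ (i * Q ^ s) = a ^ (M * Q ^ s * (i / M)) * a ^ (i % M * Q ^ s) := by
      rw [← pow_add]
      congr 1
      conv_lhs => rw [← Nat.div_add_mod i M]
      ring
    rw [h2, hMs, ← hq, pow_mul a (Fintype.card K), FiniteField.pow_card]
  · have hpos : 0 < Q ^ N := pow_pos hQ0 N
    rw [hq]
    have : (∑ i ∈ F.support, monomial (i / M + (i % M) * Q ^ s) ((F.coeff i) ^ Q ^ s)).natDegree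
        ≤ Q ^ N - 1 := by
      apply natDegree_sum_le_of_forall_le
      intro i hi
      refine (natDegree_monomial_le _).trans ?_
      have := hbd i hi
      omega
    omega
  · intro k hk
    have h1 : ∃ i ∈ F.support, k = i / M + (i % M) * Q ^ s := by
      by_contra hne
      push Not at hne
      rw [mem_support_iff, finsetSum_coeff] at hk
      apply hk
      apply Finset.sum_eq_zero
      intro i hi
      rw [coeff_monomial, if_neg (fun h => hne i hi h.symm)]
    obtain ⟨i, hi, rfl⟩ := h1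
    rw [Nat.add_mul_mod_self_right, Nat.mod_eq_of_lt (lt_of_lt_of_le (hi1 i hi) hss)]
    exact hi1 i hi

end MV286
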