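import Pool.Agent.V11286.MV.Rot

/-! Expansions in a top variable, Hasse derivatives of powers of linear polynomials, and
injectivity of the substitution on polynomials with small digits. -/

set_option linter.unusedSectionVars false

namespace MV286

open Polynomial

theorem eval_X_pow_coeff_eq_zero {K : Type*} [Field K] {M : ℕ} (i : ℕ) :
    ∀ B : K[X][X], (∀ i, (B.coeff i).natDegree < M) → B.eval (X ^ M) = 0 → B.coeff i = 0 := by
  have key : ∀ B : K[X][X], (∀ i, (B.coeff i).natDegree < M) → B.eval (X ^ M) = 0 →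
      B.coeff 0 = 0 ∧ B.divX.eval (X ^ M) = 0 := by
    intro B hB h0
    have h1 : B.divX.eval (X ^ M) * X ^ M + B.coeff 0 = 0 := by
      have h2 := congrArg (eval (X ^ M)) (divX_mul_X_add B)
      rw [eval_add, eval_mul, eval_X, eval_C, h0] at h2
      exact h2
    have h2 : B.coeff 0 = 0 := by
      by_contra hne
      have h3 : (X ^ M : K[X]) ∣ B.coeff 0 :=
        ⟨- B.divX.eval (X ^ M), by linear_combination h1⟩
      have h4 := natDegree_le_of_dvd h3 hne
      rw [natDegree_X_pow] at h4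
      have := hB 0
      omega
    refine ⟨h2, ?_⟩
    rw [h2, add_zero] at h1
    exact (mul_eq_zero.1 h1).resolve_right (pow_ne_zero _ X_ne_zero)
  induction i with
  | zero => intro B hB h0; exact (key B hB h0).1
  | succ i ih =>
    intro B hB h0
    rw [← coeff_divX]
    apply ih _ _ (key B hB h0).2
    intro k
    rw [coeff_divX]
    exact hB _

theorem eval_X_pow_inj {K : Type*} [Field K] {M : ℕ} {A B : K[X][X]}
    (hA : ∀ i, (A.coeff i).natDegree < M) (hB : ∀ i, (B.coeff i).natDegree < M)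
    (h : A.eval (X ^ M) = B.eval (X ^ M)) : A = B := by
  rw [← sub_eq_zero]
  ext1 i
  rw [coeff_zero]
  apply eval_X_pow_coeff_eq_zero i (A - B)
  · intro k
    rw [coeff_sub]
    exact lt_of_le_of_lt (natDegree_sub_le _ _) (max_lt (hA k) (hB k))
  · rw [eval_sub, h, sub_self]

theorem coeff_lin_pow {R : Type*} [CommRing R] (a b : R) (v n : ℕ) :
    ((C a * X + C b) ^ v).coeff n = a ^ n * b ^ (v - n) * (v.choose n : R) := by
  rw [add_pow, finsetSum_coeff]
  have h1 : ∀ m ∈ Finset.range (v + 1),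
      ((C a * X) ^ m * C b ^ (v - m) * ((v.choose m : ℕ) : R[X])).coeff n
        = if n = m then a ^ m * b ^ (v - m) * (v.choose m : R) else 0 := by
    intro m _
    have : (C a * X) ^ m * C b ^ (v - m) * ((v.choose m : ℕ) : R[X])
        = C (a ^ m * b ^ (v - m) * (v.choose m : R)) * X ^ m := by
      rw [C_mul, C_mul, C_pow, C_pow, mul_pow, C_eq_natCast]; ring
    rw [this, coeff_C_mul_X_pow]
  rw [Finset.sum_congr rfl h1, Finset.sum_ite_eq]
  split_ifs with h
  · rfl
  · rw [Finset.mem_range, not_lt] at h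
    rw [Nat.choose_eq_zero_of_lt (by omega)]
    simp

theorem hasseDeriv_lin_pow {R : Type*} [CommRing R] (a b : R) (v j : ℕ) :
    hasseDeriv j ((C a * X + C b) ^ v)
      = C ((v.choose j : R) * a ^ j) * (C a * X + C b) ^ (v - j) := by
  ext n
  rw [hasseDeriv_coeff, coeff_lin_pow, coeff_C_mul, coeff_lin_pow]
  have hch : ((n + j).choose j) * (v.choose (n + j)) = (v.choose j) * ((v - j).choose n) := by
    by_cases h : n + j ≤ v
    · have := Nat.choose_mul (n := v) (Nat.le_add_left j n)
      rw [Nat.add_sub_cancel] at this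
      rw [mul_comm, this]
    · rw [Nat.choose_eq_zero_of_lt (by omega : v < n + j), mul_zero]
      by_cases h2 : j ≤ v
      · rw [Nat.choose_eq_zero_of_lt (by omega : v - j < n), mul_zero]
      · rw [Nat.choose_eq_zero_of_lt (by omega : v < j), zero_mul]
  have hch' := congrArg (Nat.cast (R := R)) hch
  push_cast at hch'
  have hsub : v - j - n = v - (n + j) := by omega
  rw [hsub, pow_add]
  linear_combination (a ^ n * a ^ j * b ^ (v - (n + j))) * hch'

/-- coefficientwise degree bound -/
def CDeg {K : Type*} [Field K] {n : ℕ} (δ : ℕ) (G : (MvPolynomial (Fin n) K)[X]) : Prop :=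
  ∀ i k, (G.coeff i).degreeOf k ≤ δ

section CDeg

variable {K : Type*} [Field K] {n : ℕ}

theorem CDeg.mul {a b : ℕ} {G H : (MvPolynomial (Fin n) K)[X]} (hG : CDeg a G) (hH : CDeg b H) :
    CDeg (a + b) (G * H) := by
  intro i k
  rw [coeff_mul]
  refine (MvPolynomial.degreeOf_sum_le _ _ _).trans ?_
  apply Finset.sup_le
  intro x _
  refine (MvPolynomial.degreeOf_mul_le _ _ _).trans ?_
  exact add_le_add (hG _ _) (hH _ _)

theorem CDeg.one : CDeg 0 (1 : (MvPolynomial (Fin n) K)[X]) := by
  intro i k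
  rw [coeff_one]
  split_ifs
  · rw [MvPolynomial.degreeOf_one]
  · rw [MvPolynomial.degreeOf_zero]

theorem CDeg.pow {a : ℕ} {G : (MvPolynomial (Fin n) K)[X]} (hG : CDeg a G) (m : ℕ) :
    CDeg (m * a) (G ^ m) := by
  induction m with
  | zero => rw [pow_zero, zero_mul]; exact CDeg.one
  | succ m ih =>
    rw [pow_succ, Nat.succ_mul]
    exact ih.mul hG

theorem CDeg.hasse {a : ℕ} {G : (MvPolynomial (Fin n) K)[X]} (hG : CDeg a G) (j : ℕ) :
    CDeg a (hasseDeriv j G) := by
  intro i k
  rw [hasseDeriv_coeff]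
  have : (((i + j).choose j : ℕ) : MvPolynomial (Fin n) K)
      = MvPolynomial.C (((i + j).choose j : ℕ) : K) := by
    rw [map_natCast]
  rw [this]
  exact (MvPolynomial.degreeOf_C_mul_le _ _ _).trans (hG _ _)

theorem CDeg.C' {a : ℕ} {g : MvPolynomial (Fin n) K} (hg : ∀ k, g.degreeOf k ≤ a) :
    CDeg a (C g) := by
  intro i k
  rw [coeff_C]
  split_ifs
  · exact hg k
  · rw [MvPolynomial.degreeOf_zero]; exact Nat.zero_le _

theorem CDeg.add {a : ℕ} {G H : (MvPolynomial (Fin n) K)[X]} (hG : CDeg a G) (hH : CDeg a H) :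
    CDeg a (G + H) := by
  intro i k
  rw [coeff_add]
  exact (MvPolynomial.degreeOf_add_le _ _ _).trans (max_le (hG _ _) (hH _ _))

theorem CDeg.X' : CDeg 0 (X : (MvPolynomial (Fin n) K)[X]) := by
  intro i k
  rw [coeff_X]
  split_ifs
  · rw [MvPolynomial.degreeOf_one]
  · rw [MvPolynomial.degreeOf_zero]

theorem CDeg.mono {a b : ℕ} {G : (MvPolynomial (Fin n) K)[X]} (hG : CDeg a G) (h : a ≤ b) :
    CDeg b G := fun i k => (hG i k).trans h

theorem CDeg.inj {b δ : ℕ} (hδ : δ < b) {G H : (MvPolynomial (Fin n) K)[X]} (hG : CDeg δ G)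
    (hH : CDeg δ H) (h : G.map (sb K b n).toRingHom = H.map (sb K b n).toRingHom) : G = H := by
  ext1 i
  apply sb_inj (b := b)
  · intro k; exact lt_of_le_of_lt (hG i k) hδ
  · intro k; exact lt_of_le_of_lt (hH i k) hδ
  · have h1 := congrArg (fun f => f.coeff i) h
    simp only [coeff_map] at h1
    exact h1

end CDeg

end MV286
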