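import Pool.Agent.V11286.MV.Ode

/-! Lifting one variable polynomials to several variables through base `b` digits. -/

set_option linter.unusedSectionVars false

namespace MV286

open Polynomial

/-- value of a digit vector, most significant digit first -/
def val (b : ℕ) {n : ℕ} (m : Fin n → ℕ) : ℕ := ∑ j, m j * b ^ (j.rev : ℕ)

theorem val_succ (b : ℕ) {n : ℕ} (m : Fin (n + 1) → ℕ) :
    val b m = m 0 * b ^ n + val b (fun j => m j.succ) := by
  unfold val
  rw [Fin.sum_univ_succ]
  congr 1
  apply Finset.sum_congr rfl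
  intro j _
  congr 2
  simp [Fin.val_rev]

theorem val_lt {b : ℕ} {n : ℕ} {m : Fin n → ℕ} (hm : ∀ j, m j < b) : val b m < b ^ n := by
  induction n with
  | zero => simp [val]
  | succ n ih =>
    rw [val_succ]
    have h1 := ih (m := fun j => m j.succ) (fun j => hm _)
    have h2 : (m 0 + 1) * b ^ n ≤ b * b ^ n := Nat.mul_le_mul_right _ (hm 0)
    have h3 : b ^ (n + 1) = b * b ^ n := by ring
    have h4 : (m 0 + 1) * b ^ n = m 0 * b ^ n + b ^ n := by ring
    omega

theorem val_inj {b : ℕ} {n : ℕ} {m m' : Fin n → ℕ} (hm : ∀ j, m j < b) (hm' : ∀ j, m' j < b)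
    (h : val b m = val b m') : m = m' := by
  induction n with
  | zero => ext j; exact j.elim0
  | succ n ih =>
    rw [val_succ, val_succ] at h
    have h1 := val_lt (m := fun j => m j.succ) (fun j => hm _)
    have h2 := val_lt (m := fun j => m' j.succ) (fun j => hm' _)
    have hpos : 0 < b ^ n := by omega
    have h3 : m 0 = m' 0 := by
      have e1 : (m 0 * b ^ n + val b (fun j => m j.succ)) / b ^ n = m 0 := by
        rw [add_comm, Nat.add_mul_div_right _ _ hpos, Nat.div_eq_of_lt h1, zero_add]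
      have e2 : (m' 0 * b ^ n + val b (fun j => m' j.succ)) / b ^ n = m' 0 := by
        rw [add_comm, Nat.add_mul_div_right _ _ hpos, Nat.div_eq_of_lt h2, zero_add]
      rw [← e1, ← e2, h]
    have h4 : val b (fun j => m j.succ) = val b (fun j => m' j.succ) := by
      rw [h3] at h; omega
    have h5 := ih (fun j => hm _) (fun j => hm' _) h4
    ext j
    refine Fin.cases h3 (fun i => ?_) j
    exact congrFun h5 i

theorem exists_digits {b : ℕ} (n : ℕ) {e : ℕ} (he : e < b ^ n) :
    ∃ m : Fin n → ℕ, (∀ j, m j < b) ∧ val b m = e := by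
  induction n generalizing e with
  | zero =>
    refine ⟨fun j => j.elim0, fun j => j.elim0, ?_⟩
    rw [pow_zero] at he
    simp [val]; omega
  | succ n ih =>
    have hb : 0 < b ^ n := by
      rcases Nat.eq_zero_or_pos (b ^ n) with h | h
      · rw [pow_succ, h, zero_mul] at he; omega
      · exact h
    obtain ⟨m, hm, hv⟩ := ih (e := e % b ^ n) (Nat.mod_lt _ hb)
    refine ⟨Fin.cons (e / b ^ n) m, ?_, ?_⟩
    · intro j
      refine Fin.cases ?_ (fun i => ?_) j
      · rw [Fin.cons_zero]
        apply Nat.div_lt_of_lt_mul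
        rw [← pow_succ]; exact he
      · rw [Fin.cons_succ]; exact hm i
    · rw [val_succ]
      simp only [Fin.cons_zero, Fin.cons_succ]
      rw [hv]
      exact Nat.div_add_mod' e (b ^ n)

theorem val_mod (b : ℕ) {n : ℕ} {m : Fin (n + 1) → ℕ} (hm : ∀ j, m j < b) :
    val b m % b = m (Fin.last n) := by
  unfold val
  rw [Fin.sum_univ_castSucc]
  have h1 : ((Fin.last n).rev : ℕ) = 0 := by simp
  rw [h1, pow_zero, mul_one]
  have h2 : b ∣ ∑ i : Fin n, m i.castSucc * b ^ ((i.castSucc).rev : ℕ) := by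
    apply Finset.dvd_sum
    intro i _
    apply dvd_mul_of_dvd_right
    apply dvd_pow_self
    rw [Fin.val_rev]
    have := i.2
    simp only [Fin.val_castSucc]
    omega
  obtain ⟨k, hk⟩ := h2
  rw [hk, Nat.mul_add_mod, Nat.mod_eq_of_lt (hm _)]

variable {K : Type*} [Field K]

variable (K) in
/-- substitution `X_j ↦ X ^ (b ^ (n-1-j))` -/
noncomputable def sb (b n : ℕ) : MvPolynomial (Fin n) K →ₐ[K] K[X] :=
  MvPolynomial.aeval (fun j => X ^ (b ^ (j.rev : ℕ)))

theorem sb_monomial (b n : ℕ) (m : Fin n →₀ ℕ) (c : K) :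
    sb K b n (MvPolynomial.monomial m c) = monomial (val b m) c := by
  unfold sb
  rw [MvPolynomial.aeval_monomial, Finsupp.prod_fintype _ _ (by intro i; simp)]
  have h1 : ∀ j : Fin n, ((X : K[X]) ^ (b ^ (j.rev : ℕ))) ^ (m j)
      = X ^ (m j * b ^ (j.rev : ℕ)) := by
    intro j; rw [← pow_mul, mul_comm]
  simp_rw [h1]
  rw [Finset.prod_pow_eq_pow_sum]
  rw [← C_mul_X_pow_eq_monomial]
  rfl

theorem sb_X (b n : ℕ) (j : Fin n) :
    sb K b n (MvPolynomial.X j) = X ^ (b ^ (j.rev : ℕ)) := by
  unfold sb; rw [MvPolynomial.aeval_X]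

theorem sb_C (b n : ℕ) (c : K) : sb K b n (MvPolynomial.C c) = C c := by
  unfold sb; rw [MvPolynomial.aeval_C]; rfl

/-- all digits `< b` -/
def Box (b : ℕ) {n : ℕ} (A : MvPolynomial (Fin n) K) : Prop := ∀ j, A.degreeOf j < b

theorem Box.supp {b n : ℕ} {A : MvPolynomial (Fin n) K} (hA : Box b A) {m : Fin n →₀ ℕ}
    (hm : m ∈ A.support) (j : Fin n) : m j < b :=
  lt_of_le_of_lt (MvPolynomial.monomial_le_degreeOf j hm) (hA j)

theorem coeff_sb {b n : ℕ} {A : MvPolynomial (Fin n) K} (hA : Box b A) {m : Fin n →₀ ℕ}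
    (hm : ∀ j, m j < b) : (sb K b n A).coeff (val b m) = MvPolynomial.coeff m A := by
  classical
  conv_lhs => rw [MvPolynomial.as_sum A]
  rw [map_sum, finsetSum_coeff]
  simp_rw [sb_monomial, coeff_monomial]
  rw [Finset.sum_eq_single m]
  · rw [if_pos rfl]
  · intro m' hm' hne
    rw [if_neg]
    intro h
    apply hne
    have := val_inj (fun j => hA.supp hm' j) hm h
    exact DFunLike.coe_injective this
  · intro h
    rw [if_pos rfl]
    exact MvPolynomial.notMem_support_iff.1 h

theorem sb_inj {b n : ℕ} {A B : MvPolynomial (Fin n) K} (hA : Box b A) (hB : Box b B)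
    (h : sb K b n A = sb K b n B) : A = B := by
  ext m
  by_cases hm : ∀ j, m j < b
  · rw [← coeff_sb hA hm, ← coeff_sb hB hm, h]
  · have h1 : m ∉ A.support := fun h => hm (fun j => hA.supp h j)
    have h2 : m ∉ B.support := fun h => hm (fun j => hB.supp h j)
    rw [MvPolynomial.notMem_support_iff.1 h1, MvPolynomial.notMem_support_iff.1 h2]

theorem sb_supp {b n : ℕ} {A : MvPolynomial (Fin n) K} (hA : Box b A) {m : Fin n →₀ ℕ}
    (hm : m ∈ A.support) : val b m ∈ (sb K b n A).support := by
  rw [mem_support_iff, coeff_sb hA (fun j => hA.supp hm j)]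
  exact MvPolynomial.mem_support_iff.1 hm

theorem natDegree_sb_lt {b n : ℕ} (hb : 0 < b) {A : MvPolynomial (Fin n) K} (hA : Box b A) :
    (sb K b n A).natDegree < b ^ n := by
  have hpos : 0 < b ^ n := pow_pos hb n
  have h1 : (sb K b n A).natDegree ≤ b ^ n - 1 := by
    conv_lhs => rw [MvPolynomial.as_sum A]
    rw [map_sum]
    apply natDegree_sum_le_of_forall_le
    intro m hm
    rw [sb_monomial]
    refine (natDegree_monomial_le _).trans ?_
    have := val_lt (fun j => hA.supp hm j)
    omega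
  omega

theorem exists_lift {b : ℕ} (hb : 0 < b) (n : ℕ) {F : K[X]} (hF : F.natDegree < b ^ n) :
    ∃ A : MvPolynomial (Fin n) K, Box b A ∧ sb K b n A = F := by
  classical
  choose! dg hdg1 hdg2 using fun (e : ℕ) (he : e < b ^ n) => exists_digits (b := b) n he
  refine ⟨∑ i ∈ Finset.range (b ^ n),
    MvPolynomial.monomial (Finsupp.equivFunOnFinite.symm (dg i)) (F.coeff i), ?_, ?_⟩
  · intro j
    rw [MvPolynomial.degreeOf_lt_iff hb]
    intro m hm
    have h1 := MvPolynomial.support_sum hm
    rw [Finset.mem_biUnion] at h1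
    obtain ⟨i, hi, hmi⟩ := h1
    have h2 := MvPolynomial.support_monomial_subset hmi
    rw [Finset.mem_singleton] at h2
    rw [h2]
    exact hdg1 i (Finset.mem_range.1 hi) j
  · rw [map_sum]
    conv_rhs => rw [as_sum_range' F (b ^ n) hF]
    apply Finset.sum_congr rfl
    intro i hi
    rw [sb_monomial]
    have h2 : val b (Finsupp.equivFunOnFinite.symm (dg i)) = i := hdg2 i (Finset.mem_range.1 hi)
    rw [h2]

theorem degreeOf_zero_mul_le {b n : ℕ} {A : MvPolynomial (Fin (n + 1)) K} (hA : Box b A)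
    (hA0 : A ≠ 0) : A.degreeOf 0 * b ^ n ≤ (sb K b (n + 1) A).natDegree := by
  obtain ⟨m, hm, hm'⟩ := Finset.exists_mem_eq_sup A.support
    (MvPolynomial.support_nonempty.2 hA0) (fun m => m 0)
  rw [MvPolynomial.degreeOf_eq_sup, hm']
  refine le_trans ?_ (le_natDegree_of_mem_supp _ (sb_supp hA hm))
  rw [val_succ]
  exact Nat.le_add_right _ _

theorem sb_succ (b n : ℕ) (A : MvPolynomial (Fin (n + 1)) K) :
    sb K b (n + 1) A
      = ((MvPolynomial.finSuccEquiv K n A).map (sb K b n).toRingHom).eval (X ^ b ^ n) := by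
  have h : ((sb K b (n + 1)) : MvPolynomial (Fin (n + 1)) K →+* K[X])
      = (evalRingHom (X ^ b ^ n)).comp ((mapRingHom (sb K b n).toRingHom).comp
        ((MvPolynomial.finSuccEquiv K n) : MvPolynomial (Fin (n + 1)) K →+*
          (MvPolynomial (Fin n) K)[X])) := by
    apply MvPolynomial.ringHom_ext
    · intro c
      simp only [RingHom.coe_coe, RingHom.comp_apply, coe_evalRingHom, coe_mapRingHom]
      rw [sb_C, MvPolynomial.finSuccEquiv_apply]
      simp only [MvPolynomial.eval₂Hom_C, RingHom.comp_apply, map_C, eval_C]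
      exact (sb_C b n c).symm
    · intro j
      simp only [RingHom.coe_coe, RingHom.comp_apply, coe_evalRingHom, coe_mapRingHom]
      rw [sb_X]
      refine Fin.cases ?_ (fun i => ?_) j
      · rw [MvPolynomial.finSuccEquiv_X_zero, map_X, eval_X]
        simp
      · rw [MvPolynomial.finSuccEquiv_X_succ, map_C, eval_C]
        change _ = sb K b n (MvPolynomial.X i)
        rw [sb_X]
        congr 2
        simp [Fin.val_rev]
  exact congrArg (fun f => f A) h

end MV286
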