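import Pool.Agent.V11286.MV.Root

/-! The differential equation satisfied by a polynomial with few values. -/

set_option linter.unusedSectionVars false

namespace MV286

open Polynomial

variable {K : Type*} [Field K] [Fintype K]


theorem monic_Xq : (X ^ (Fintype.card K) - X : K[X]).Monic :=
  monic_X_pow_sub (by rw [degree_X]; exact_mod_cast Fintype.one_lt_card)

theorem natDegree_Xq : (X ^ (Fintype.card K) - X : K[X]).natDegree = Fintype.card K :=
  FiniteField.X_pow_card_sub_X_natDegree_eq K Fintype.one_lt_card

/-- a polynomial of degree `< q` vanishing on `K` is zero -/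
theorem eq_zero_of_eval {G : K[X]} (hd : G.natDegree < Fintype.card K)
    (h : ∀ a : K, G.eval a = 0) : G = 0 := by
  classical
  by_contra hG
  have h1 : (Finset.univ : Finset K).card ≤ G.roots.toFinset.card := by
    apply Finset.card_le_card
    intro a _
    rw [Multiset.mem_toFinset, mem_roots hG]
    exact h a
  have h2 := G.roots.toFinset_card_le
  have h3 := G.card_roots'
  rw [Finset.card_univ] at h1
  omega

theorem Xq_dvd_of_eval {G : K[X]} (h : ∀ a : K, G.eval a = 0) :
    (X ^ (Fintype.card K) - X : K[X]) ∣ G := by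
  rw [← modByMonic_eq_zero_iff_dvd monic_Xq]
  apply eq_zero_of_eval
  · have h1 := natDegree_modByMonic_lt G (monic_Xq (K := K)) (by
      intro h1
      have h2 := natDegree_Xq (K := K)
      rw [h1, natDegree_one] at h2
      have := Fintype.card_pos (α := K)
      omega)
    rwa [natDegree_Xq] at h1
  · intro a
    have h1 := modByMonic_add_div G (X ^ (Fintype.card K) - X : K[X])
    have h2 := congrArg (eval a) h1
    rw [eval_add, eval_mul, h a] at h2
    simpa [FiniteField.pow_card] using h2

theorem derivative_Xq {p : ℕ} [CharP K p] : derivative (X ^ (Fintype.card K) - X : K[X]) = -1 := by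
  rw [derivative_sub, derivative_X, derivative_X_pow, FiniteField.cast_card_eq_zero]
  simp

theorem eq_of_eval {F G : K[X]} (hF : F.natDegree < Fintype.card K)
    (hG : G.natDegree < Fintype.card K) (h : ∀ a : K, F.eval a = G.eval a) : F = G := by
  rw [← sub_eq_zero]
  apply eq_zero_of_eval
  · exact lt_of_le_of_lt (natDegree_sub_le _ _) (max_lt hF hG)
  · intro a
    rw [eval_sub, h a, sub_self]

/-- the ODE. -/
theorem ode_of_values {F : K[X]} {v r₁ r₂ R : ℕ} {β₁ β₂ : K}
    (hF : 0 < F.natDegree)
    (hv1 : (v : K) * r₁ = -1) (hv2 : (v : K) * r₂ = -1)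
    (hR : (F * (1 + C β₁ * F ^ r₁ + C β₂ * F ^ r₂)).natDegree ≤ F.natDegree * (R + 1))
    (hR2 : 2 ≤ R) (hd : R * F.natDegree < Fintype.card K)
    (hT : ∀ a : K, (F * (1 + C β₁ * F ^ r₁ + C β₂ * F ^ r₂)).eval a = 0) :
    (X ^ (Fintype.card K) - X) * derivative F
      = - (C (v : K) * (F * (1 + C β₁ * F ^ r₁ + C β₂ * F ^ r₂))) := by
  obtain ⟨H, hH⟩ := Xq_dvd_of_eval hT
  set TF := F * (1 + C β₁ * F ^ r₁ + C β₂ * F ^ r₂) with hTF
  set Y := (X ^ (Fintype.card K) - X : K[X]) with hY
  have hYd : Y.natDegree = Fintype.card K := natDegree_Xq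
  have hY0 : Y ≠ 0 := (monic_Xq (K := K)).ne_zero
  have hF0 : F ≠ 0 := by rintro rfl; simp at hF
  set d := F.natDegree with hdd
  -- degree of H
  have hHd : H = 0 ∨ H.natDegree < d := by
    by_cases hH0 : H = 0
    · exact Or.inl hH0
    right
    have h1 : TF.natDegree = Fintype.card K + H.natDegree := by
      rw [hH, natDegree_mul hY0 hH0, hYd]
    have h2 : d * (R + 1) = R * d + d := by ring
    omega
  have hHd' : H.natDegree < d := by
    rcases hHd with h | h
    · rw [h]; simpa using hF
    · exact h
  -- derivative identity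
  have e1 : C (v : K) * F * derivative TF = derivative F * ((C (v : K) - 1) * TF + F) := by
    have hc1 : C (v : K) * C (r₁ : K) = (-1 : K[X]) := by
      rw [← C_mul, hv1]; simp
    have hc2 : C (v : K) * C (r₂ : K) = (-1 : K[X]) := by
      rw [← C_mul, hv2]; simp
    have hd1 : F * derivative (F ^ r₁) = C (r₁ : K) * F ^ r₁ * derivative F := by
      rcases Nat.eq_zero_or_pos r₁ with h | h
      · subst h; simp
      · obtain ⟨s, rfl⟩ := Nat.exists_eq_succ_of_ne_zero h.ne'
        rw [derivative_pow]; simp only [Nat.succ_eq_add_one, Nat.add_sub_cancel]; ring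
    have hd2 : F * derivative (F ^ r₂) = C (r₂ : K) * F ^ r₂ * derivative F := by
      rcases Nat.eq_zero_or_pos r₂ with h | h
      · subst h; simp
      · obtain ⟨s, rfl⟩ := Nat.exists_eq_succ_of_ne_zero h.ne'
        rw [derivative_pow]; simp only [Nat.succ_eq_add_one, Nat.add_sub_cancel]; ring
    have hd3 : derivative TF = derivative F * (1 + C β₁ * F ^ r₁ + C β₂ * F ^ r₂)
        + (C β₁ * (F * derivative (F ^ r₁)) + C β₂ * (F * derivative (F ^ r₂))) := by
      rw [hTF, derivative_mul, derivative_add, derivative_add, derivative_C_mul, derivative_C_mul,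
        derivative_one]
      ring
    rw [hd3, hd1, hd2, hTF]
    linear_combination (C β₁ * F ^ r₁ * F * derivative F) * hc1
      + (C β₂ * F ^ r₂ * F * derivative F) * hc2
  have e2 : derivative TF = - H + Y * derivative H := by
    rw [hH, derivative_mul]
    obtain ⟨p, hp⟩ := CharP.exists K
    rw [hY, derivative_Xq (K := K) (p := p)]; ring
  have e3 : F * (derivative F + C (v : K) * H)
      = Y * (C (v : K) * F * derivative H - (C (v : K) - 1) * H * derivative F) := by
    rw [e2] at e1
    rw [hH] at e1
    linear_combination (-1) * e1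
  have e4 : derivative F + C (v : K) * H = 0 := by
    by_contra hne
    have h1 : (F * (derivative F + C (v : K) * H)).natDegree < Fintype.card K := by
      have h2 : (derivative F + C (v : K) * H).natDegree ≤ d - 1 := by
        refine (natDegree_add_le _ _).trans (max_le (natDegree_derivative_le F) ?_)
        refine (natDegree_C_mul_le _ _).trans ?_
        omega
      have h3 := natDegree_mul_le (p := F) (q := derivative F + C (v : K) * H)
      have h4 : 2 * d ≤ R * d := Nat.mul_le_mul_right d hR2
      omega
    have h5 : (C (v : K) * F * derivative H - (C (v : K) - 1) * H * derivative F) ≠ 0 := by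
      intro h0
      rw [h0, mul_zero] at e3
      exact (mul_ne_zero hF0 hne) e3
    rw [e3, natDegree_mul hY0 h5, hYd] at h1
    omega
  have e5 : derivative F = - (C (v : K) * H) := by linear_combination e4
  rw [e5, hH]; ring

end MV286
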