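import Pool.Agent.V11286.MV.Ode

/-! The squarefree polynomial `P₀ = F / gcd(F, F')`. -/

set_option linter.unusedSectionVars false

namespace MV286

open Polynomial

variable {K : Type*} [Field K] [Fintype K]

theorem exists_P0 {F Ψ S : K[X]} {v : ℕ} (hF0 : F ≠ 0) (hv : (v : K) ≠ 0)
    (hΨ : Ψ = 1 + F * S)
    (hode : (X ^ (Fintype.card K) - X) * derivative F = - (C (v : K) * (F * Ψ))) :
    ∃ P : K[X], P ∣ F ∧ Squarefree P ∧ P ≠ 0 ∧
      derivative F * P = C (v : K) * derivative P * F ∧
      P + (X ^ (Fintype.card K) - X) * derivative P = P * (1 - Ψ) := by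
  obtain ⟨P, F1, g, hrel, hg1, hg2⟩ :=
    UniqueFactorizationMonoid.exists_reduced_factors F hF0 (derivative F)
  have hcop : IsCoprime P F1 := hrel.isCoprime
  set Y := (X ^ (Fintype.card K) - X : K[X]) with hY
  have hY0 : Y ≠ 0 := (monic_Xq (K := K)).ne_zero
  have hg0 : g ≠ 0 := by rintro rfl; rw [zero_mul] at hg1; exact hF0 hg1.symm
  have hP0 : P ≠ 0 := by rintro rfl; rw [mul_zero] at hg1; exact hF0 hg1.symm
  have hCv : C (v : K) ≠ 0 := C_ne_zero.2 hv
  have e1 : Y * F1 = - (C (v : K) * (P * Ψ)) := by
    apply mul_left_cancel₀ hg0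
    calc g * (Y * F1) = Y * (g * F1) := by ring
      _ = - (C (v : K) * (F * Ψ)) := by rw [hg2, hode]
      _ = g * -(C (v : K) * (P * Ψ)) := by rw [← hg1]; ring
  have hPY : P ∣ Y := by
    have h1 : P ∣ Y * F1 := by
      rw [e1]; exact ⟨-(C (v : K) * Ψ), by ring⟩
    exact hcop.dvd_of_dvd_mul_right h1
  obtain ⟨P1, hP1⟩ := hPY
  have e2 : P1 * F1 = - (C (v : K) * Ψ) := by
    apply mul_left_cancel₀ hP0
    calc P * (P1 * F1) = Y * F1 := by rw [hP1]; ring
      _ = P * -(C (v : K) * Ψ) := by rw [e1]; ring
  have e3 : derivative P * P1 + P * derivative P1 = -1 := by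
    rw [← derivative_mul, ← hP1]
    obtain ⟨p, hp⟩ := CharP.exists K
    exact derivative_Xq (K := K) (p := p)
  have hPP1 : IsCoprime P P1 := ⟨- derivative P1, - derivative P, by linear_combination - e3⟩
  have hPP' : IsCoprime P (derivative P) := ⟨- derivative P1, - P1, by linear_combination - e3⟩
  have hPF : P ∣ F := ⟨g, by rw [← hg1]; ring⟩
  -- degree comparison
  have hdeg : (F1 - C (v : K) * derivative P).degree < P.degree := by
    have h1 : F1.degree < P.degree := by
      have h2 : (derivative F).degree < F.degree := degree_derivative_lt hF0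
      rw [← hg2, ← hg1, degree_mul, degree_mul] at h2
      exact lt_of_add_lt_add_left h2
    have h2 : (C (v : K) * derivative P).degree < P.degree := by
      rw [degree_C_mul hv]
      exact degree_derivative_lt hP0
    exact lt_of_le_of_lt (degree_sub_le _ _) (max_lt h1 h2)
  have hdvd : P ∣ F1 - C (v : K) * derivative P := by
    have h1 : P ∣ (F1 - C (v : K) * derivative P) * P1 := by
      refine ⟨C (v : K) * (derivative P1 - g * S), ?_⟩
      rw [← hg1] at hΨ
      have : (F1 - C (v : K) * derivative P) * P1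
          = -(C (v : K) * Ψ) - C (v : K) * (derivative P * P1) := by
        rw [← e2]; ring
      rw [this, hΨ]
      linear_combination (-C (v : K)) * e3
    exact hPP1.dvd_of_dvd_mul_right h1
  have hzero := eq_zero_of_dvd_of_degree_lt hdvd hdeg
  have hF1 : F1 = C (v : K) * derivative P := sub_eq_zero.1 hzero
  have e4 : derivative P * P1 = - Ψ := by
    apply mul_left_cancel₀ hCv
    rw [hF1] at e2
    linear_combination e2
  refine ⟨P, hPF, ?_, hP0, ?_, ?_⟩
  · exact Separable.squarefree hPP'
  · rw [← hg2, hF1, ← hg1]; ring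
  · rw [hP1]; linear_combination P * e4

/-- `P F^r` has zero derivative when `v r = -1`. -/
theorem derivative_mul_pow_eq_zero {F P : K[X]} {v r : ℕ} (hF0 : F ≠ 0)
    (hvr : (v : K) * r = -1)
    (h : derivative F * P = C (v : K) * derivative P * F) : derivative (P * F ^ r) = 0 := by
  have hc : C (v : K) * C (r : K) = (-1 : K[X]) := by
    rw [← C_mul, hvr]; simp
  have hd1 : F * derivative (F ^ r) = C (r : K) * F ^ r * derivative F := by
    rcases Nat.eq_zero_or_pos r with h | h
    · subst h; simp
    · obtain ⟨s, rfl⟩ := Nat.exists_eq_succ_of_ne_zero h.ne'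
      rw [derivative_pow]; simp only [Nat.succ_eq_add_one, Nat.add_sub_cancel]; ring
  apply mul_left_cancel₀ hF0
  rw [mul_zero, derivative_mul]
  calc F * (derivative P * F ^ r + P * derivative (F ^ r))
      = F * derivative P * F ^ r + P * (F * derivative (F ^ r)) := by ring
    _ = F * derivative P * F ^ r + C (r : K) * F ^ r * (derivative F * P) := by rw [hd1]; ring
    _ = 0 := by rw [h]; linear_combination (derivative P * F * F ^ r) * hc

/-- `P'' = 0`. -/
theorem derivative2_P {F P : K[X]} {v r₁ r₂ : ℕ} {β₁ β₂ : K} (hF0 : F ≠ 0)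
    (hv1 : (v : K) * r₁ = -1) (hv2 : (v : K) * r₂ = -1)
    (h : derivative F * P = C (v : K) * derivative P * F)
    (hA : P + (X ^ (Fintype.card K) - X) * derivative P
      = - (C β₁ * (P * F ^ r₁) + C β₂ * (P * F ^ r₂))) :
    derivative (derivative P) = 0 := by
  have h1 := congrArg derivative hA
  obtain ⟨p, hp⟩ := CharP.exists K
  rw [derivative_neg, derivative_add, derivative_add, derivative_C_mul, derivative_C_mul,
    derivative_mul_pow_eq_zero hF0 hv1 h, derivative_mul_pow_eq_zero hF0 hv2 h,
    derivative_mul, derivative_Xq (K := K) (p := p)] at h1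
  have h2 : (X ^ (Fintype.card K) - X : K[X]) * derivative (derivative P) = 0 := by
    linear_combination h1
  exact (mul_eq_zero.1 h2).resolve_left (monic_Xq (K := K)).ne_zero

end MV286
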