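import Mathlib

/-! Root extraction lemmas in one variable polynomial rings over a perfect field. -/

set_option linter.unusedSectionVars false

namespace MV286

open Polynomial

variable {K : Type*} [Field K]

/-- if `A * B ^ n = D ^ n` then `A` is an `n`-th power -/
theorem pow_root {A B D : K[X]} {n : ℕ} (hn : n ≠ 0) (hB : B ≠ 0) (h : A * B ^ n = D ^ n) :
    ∃ M : K[X], A = M ^ n := by
  have h1 : B ^ n ∣ D ^ n := ⟨A, by rw [← h]; ring⟩
  have h2 : B ∣ D := (UniqueFactorizationMonoid.pow_dvd_pow_iff_dvd hn).1 h1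
  obtain ⟨M, rfl⟩ := h2
  refine ⟨M, ?_⟩
  have h3 : B ^ n ≠ 0 := pow_ne_zero _ hB
  apply mul_right_cancel₀ h3
  rw [h]; ring

/-- `P ^ c * Y ^ β = Z ^ n` with `c + β a = n c'`, `a < n`, `gcd(β, n) = 1`, `P` squarefree
gives `Y = P ^ a * W ^ n`. -/
theorem lemL {P Y Z : K[X]} {n c c' β a : ℕ} (hP : Squarefree P) (hP0 : P ≠ 0)
    (ha : a < n) (hc : c + β * a = n * c') (hβ : Nat.Coprime β n) (hn1 : 1 < n)
    (h : P ^ c * Y ^ β = Z ^ n) : ∃ W : K[X], Y = P ^ a * W ^ n := by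
  have hn : n ≠ 0 := by omega
  -- step 1: (Y P^{n-a})^β is an n-th power
  have h1 : (Y * P ^ (n - a)) ^ β * (P ^ c') ^ n = (Z * P ^ β) ^ n := by
    have e1 : (P ^ c') ^ n = P ^ c * P ^ (β * a) := by
      rw [← pow_mul, mul_comm c' n, ← hc, pow_add]
    have e2 : (n - a) * β + β * a = β * n := by
      have : n - a + a = n := by omega
      calc (n - a) * β + β * a = β * (n - a + a) := by ring
        _ = β * n := by rw [this]
    calc (Y * P ^ (n - a)) ^ β * (P ^ c') ^ n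
        = (P ^ c * Y ^ β) * P ^ ((n - a) * β + β * a) := by
          rw [e1, mul_pow, ← pow_mul, pow_add]; ring
      _ = (Z * P ^ β) ^ n := by rw [h, e2, mul_pow, ← pow_mul]
  obtain ⟨Z1, hZ1⟩ := pow_root hn (pow_ne_zero _ hP0) h1
  obtain ⟨β', _, hβ'⟩ := Nat.exists_mul_mod_eq_one_of_coprime hβ hn1
  -- β * β' = 1 + n * l
  have h2 : β * β' = n * (β * β' / n) + 1 := by
    conv_lhs => rw [← Nat.div_add_mod (β * β') n, hβ']
  set l := β * β' / n with hl
  by_cases hY : Y = 0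
  · refine ⟨0, ?_⟩
    rw [hY, zero_pow hn, mul_zero]
  have hYP : Y * P ^ (n - a) ≠ 0 := mul_ne_zero hY (pow_ne_zero _ hP0)
  have h3 : (Y * P ^ (n - a)) * ((Y * P ^ (n - a)) ^ l) ^ n = (Z1 ^ β') ^ n := by
    calc (Y * P ^ (n - a)) * ((Y * P ^ (n - a)) ^ l) ^ n
        = (Y * P ^ (n - a)) ^ (n * l + 1) := by
          rw [pow_succ, pow_mul, ← pow_mul, mul_comm l n, ← pow_mul]; ring
      _ = ((Y * P ^ (n - a)) ^ β) ^ β' := by rw [← h2, pow_mul]
      _ = (Z1 ^ β') ^ n := by rw [hZ1, ← pow_mul, ← pow_mul, mul_comm]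
  obtain ⟨Z2, hZ2⟩ := pow_root hn (pow_ne_zero _ hYP) h3
  have h4 : P ∣ Z2 ^ n := by
    rw [← hZ2]
    exact dvd_mul_of_dvd_right (dvd_pow_self P (by omega)) _
  have h5 : P ∣ Z2 := hP.isRadical n _ h4
  obtain ⟨W, rfl⟩ := h5
  refine ⟨W, ?_⟩
  have h6 : P ^ (n - a) ≠ 0 := pow_ne_zero _ hP0
  apply mul_right_cancel₀ h6
  rw [hZ2, mul_pow]
  have : P ^ n = P ^ a * P ^ (n - a) := by rw [← pow_add]; congr 1; omega
  rw [this]; ring

variable {p : ℕ} [hp : Fact p.Prime] [CharP K p] [PerfectRing K p]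

theorem exists_pow_of_derivative_eq_zero {f : K[X]} (hf : derivative f = 0) :
    ∃ g : K[X], f = g ^ p := by
  refine ⟨(contract p f).map (frobeniusEquiv K p).symm, ?_⟩
  rw [← polynomial_expand_eq, expand_contract p hf hp.out.ne_zero]

theorem derivative_pow_char_eq_zero (f : K[X]) : derivative (f ^ p) = 0 := by
  rw [derivative_pow, CharP.cast_eq_zero]; simp

theorem derivative_pow_char_pow_eq_zero (f : K[X]) {j : ℕ} (hj : j ≠ 0) :
    derivative (f ^ p ^ j) = 0 := by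
  obtain ⟨i, rfl⟩ := Nat.exists_eq_succ_of_ne_zero hj
  rw [pow_succ, pow_mul]
  exact derivative_pow_char_eq_zero _

theorem pow_char_pow_inj {f g : K[X]} (j : ℕ) (h : f ^ p ^ j = g ^ p ^ j) : f = g := by
  have h1 : (f - g) ^ p ^ j = 0 := by
    rw [sub_pow_char_pow, h, sub_self]
  exact sub_eq_zero.1 (pow_eq_zero_iff (pow_ne_zero _ hp.out.ne_zero) |>.1 h1)

theorem exists_root_C (β : K) (j : ℕ) : ∃ β' : K, β' ^ p ^ j = β := by
  induction j with
  | zero => exact ⟨β, by simp⟩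
  | succ j ih =>
    obtain ⟨γ, hγ⟩ := ih
    refine ⟨(frobeniusEquiv K p).symm γ, ?_⟩
    rw [pow_succ', pow_mul, ← hγ]
    congr 1
    have := frobeniusEquiv_symm_pow_p (R := K) (p := p) γ
    exact this

/-- if `f'' = 0` then `f = a ^ p + X * b ^ p` -/
theorem exists_of_derivative2 {f : K[X]} (hf : derivative (derivative f) = 0) :
    ∃ a b : K[X], f = a ^ p + X * b ^ p ∧ derivative f = b ^ p := by
  obtain ⟨b, hb⟩ := exists_pow_of_derivative_eq_zero (p := p) hf
  have h1 : derivative (f - X * derivative f) = 0 := by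
    rw [derivative_sub, derivative_mul, derivative_X, hf]; ring
  obtain ⟨a, ha⟩ := exists_pow_of_derivative_eq_zero (p := p) h1
  refine ⟨a, b, ?_, hb⟩
  rw [← ha, ← hb]; ring

end MV286
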