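import Pool.Agent.V11286.MV.Lift

/-! The rotation of variables. -/

set_option linter.unusedSectionVars false

namespace MV286

open Polynomial

/-- rotation of the indices: `0 ↦ last`, `j + 1 ↦ j` -/
def rfun (n : ℕ) : Fin (n + 1) → Fin (n + 1) := Fin.cases (Fin.last n) Fin.castSucc

@[simp] theorem rfun_zero (n : ℕ) : rfun n 0 = Fin.last n := rfl

@[simp] theorem rfun_succ (n : ℕ) (j : Fin n) : rfun n j.succ = j.castSucc := rfl

theorem rfun_injective (n : ℕ) : Function.Injective (rfun n) := by
  intro i j h
  induction i using Fin.cases with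
  | zero =>
    induction j using Fin.cases with
    | zero => rfl
    | succ j =>
      rw [rfun_zero, rfun_succ] at h
      exact absurd h.symm (Fin.castSucc_lt_last j).ne
  | succ i =>
    induction j using Fin.cases with
    | zero =>
      rw [rfun_zero, rfun_succ] at h
      exact absurd h (Fin.castSucc_lt_last i).ne
    | succ j =>
      rw [rfun_succ, rfun_succ] at h
      rw [Fin.castSucc_injective n h]

theorem rfun_bijective (n : ℕ) : Function.Bijective (rfun n) :=
  Finite.injective_iff_bijective.1 (rfun_injective n)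

theorem rev_castSucc_val {n : ℕ} (i : Fin n) : ((i.castSucc).rev : ℕ) = (i.rev : ℕ) + 1 := by
  simp only [Fin.val_rev, Fin.val_castSucc]
  have := i.2
  omega

theorem rev_succ_val {n : ℕ} (i : Fin n) : ((i.succ).rev : ℕ) = (i.rev : ℕ) := by
  simp only [Fin.val_rev, Fin.val_succ]
  have := i.2
  omega

theorem pow_pow_succ' {M : Type*} [Monoid M] (x : M) (b k : ℕ) :
    (x ^ b ^ k) ^ b = x ^ b ^ (k + 1) := by
  rw [← pow_mul, ← pow_succ]

variable {K : Type*} [Field K] {p : ℕ} [hp : Fact p.Prime] [CharP K p]

variable (K p) in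
/-- rotation of the variables together with `c ↦ c ^ (p ^ β)` on the coefficients -/
noncomputable def rot (β n : ℕ) : MvPolynomial (Fin (n + 1)) K →+* MvPolynomial (Fin (n + 1)) K :=
  ((MvPolynomial.rename (rfun n) : MvPolynomial (Fin (n + 1)) K →ₐ[K] _) :
    MvPolynomial (Fin (n + 1)) K →+* MvPolynomial (Fin (n + 1)) K).comp
    (MvPolynomial.map (iterateFrobenius K p β))

theorem rot_C (β n : ℕ) (c : K) : rot K p β n (MvPolynomial.C c) = MvPolynomial.C (c ^ p ^ β) := by
  unfold rot
  simp [iterateFrobenius_def]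

theorem rot_X (β n : ℕ) (j : Fin (n + 1)) :
    rot K p β n (MvPolynomial.X j) = MvPolynomial.X (rfun n j) := by
  unfold rot
  simp

theorem degreeOf_rot (β n : ℕ) (A : MvPolynomial (Fin (n + 1)) K) (j : Fin (n + 1)) :
    (rot K p β n A).degreeOf (rfun n j) = A.degreeOf j := by
  unfold rot
  rw [RingHom.comp_apply]
  change MvPolynomial.degreeOf (rfun n j) (MvPolynomial.rename (rfun n) _) = _
  rw [MvPolynomial.degreeOf_rename_of_injective (rfun_injective n), MvPolynomial.degreeOf_eq_sup,
    MvPolynomial.degreeOf_eq_sup, MvPolynomial.support_map_of_injective]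
  exact (iterateFrobenius K p β).injective

theorem rot_bijective [PerfectRing K p] (β n : ℕ) : Function.Bijective (rot K p β n) := by
  unfold rot
  rw [RingHom.coe_comp]
  apply Function.Bijective.comp
  · exact ⟨MvPolynomial.rename_injective _ (rfun_injective n),
      MvPolynomial.rename_surjective _ (rfun_bijective n).2⟩
  · have h := bijective_iterateFrobenius (R := K) (p := p) (n := β)
    exact ⟨MvPolynomial.map_injective _ h.1, MvPolynomial.map_surjective _ h.2⟩

theorem Box.rot {β n : ℕ} {b : ℕ} {A : MvPolynomial (Fin (n + 1)) K} (hA : Box b A) :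
    Box b (rot K p β n A) := by
  intro j
  obtain ⟨i, rfl⟩ := (rfun_bijective n).2 j
  rw [degreeOf_rot]
  exact hA i

theorem sb_rot (β n : ℕ) (A : MvPolynomial (Fin (n + 1)) K) :
    sb K (p ^ β) (n + 1) (rot K p β n A)
      = (MvPolynomial.finSuccEquiv K n A).eval₂
        ((iterateFrobenius K[X] p β).comp (sb K (p ^ β) n).toRingHom) X := by
  have h : (((sb K (p ^ β) (n + 1)) : MvPolynomial (Fin (n + 1)) K →+* K[X])).comp (rot K p β n)
      = (eval₂RingHom ((iterateFrobenius K[X] p β).comp (sb K (p ^ β) n).toRingHom) X).comp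
        ((MvPolynomial.finSuccEquiv K n) : MvPolynomial (Fin (n + 1)) K →+*
          (MvPolynomial (Fin n) K)[X]) := by
    apply MvPolynomial.ringHom_ext
    · intro c
      simp only [RingHom.coe_coe, RingHom.comp_apply, coe_eval₂RingHom]
      rw [rot_C, sb_C, MvPolynomial.finSuccEquiv_apply]
      simp only [MvPolynomial.eval₂Hom_C, RingHom.comp_apply, eval₂_C]
      change _ = iterateFrobenius K[X] p β (sb K (p ^ β) n (MvPolynomial.C c))
      rw [sb_C, iterateFrobenius_def, C_pow]
    · intro j
      simp only [RingHom.coe_coe, RingHom.comp_apply, coe_eval₂RingHom]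
      rw [rot_X, sb_X]
      refine Fin.cases ?_ (fun i => ?_) j
      · rw [MvPolynomial.finSuccEquiv_X_zero, eval₂_X]
        simp
      · rw [MvPolynomial.finSuccEquiv_X_succ, eval₂_C]
        change _ = iterateFrobenius K[X] p β (sb K (p ^ β) n (MvPolynomial.X i))
        rw [sb_X, iterateFrobenius_def, rfun_succ, rev_castSucc_val, pow_pow_succ']
  exact congrArg (fun f => f A) h

theorem eval_sb_rot [Fintype K] {β n : ℕ} (hq : Fintype.card K = (p ^ β) ^ (n + 1))
    (A : MvPolynomial (Fin (n + 1)) K) (a : K) :
    (sb K (p ^ β) (n + 1) (rot K p β n A)).eval a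
      = ((sb K (p ^ β) (n + 1) A).eval a) ^ p ^ β := by
  have h : (evalRingHom a).comp
      ((((sb K (p ^ β) (n + 1)) : MvPolynomial (Fin (n + 1)) K →+* K[X])).comp (rot K p β n))
      = (iterateFrobenius K p β).comp ((evalRingHom a).comp
        (((sb K (p ^ β) (n + 1)) : MvPolynomial (Fin (n + 1)) K →+* K[X]))) := by
    apply MvPolynomial.ringHom_ext
    · intro c
      simp only [RingHom.coe_coe, RingHom.comp_apply, coe_evalRingHom]
      rw [rot_C, sb_C, sb_C, eval_C, eval_C, iterateFrobenius_def]
    · intro j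
      simp only [RingHom.coe_coe, RingHom.comp_apply, coe_evalRingHom]
      rw [rot_X, sb_X, sb_X, iterateFrobenius_def]
      simp only [eval_pow, eval_X]
      refine Fin.cases ?_ (fun i => ?_) j
      · rw [pow_pow_succ']
        simp only [rfun_zero, Fin.rev_last, Fin.rev_zero, Fin.val_last]
        rw [← hq, FiniteField.pow_card]
        simp
      · rw [rfun_succ, rev_castSucc_val, pow_pow_succ', rev_succ_val]
  have h2 := congrArg (fun f => f A) h
  simpa [iterateFrobenius_def] using h2

/-- a polynomial with values in the fixed field of `x ↦ x ^ b` lifts to a rotation invariant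
polynomial. -/
theorem exists_inv_lift [Fintype K] {β n : ℕ} (hq : Fintype.card K = (p ^ β) ^ (n + 1))
    {F : K[X]} (hF : F.natDegree < Fintype.card K) (hv : ∀ a : K, (F.eval a) ^ p ^ β = F.eval a) :
    ∃ A : MvPolynomial (Fin (n + 1)) K, Box (p ^ β) A ∧ sb K (p ^ β) (n + 1) A = F ∧
      rot K p β n A = A := by
  have hb : 0 < p ^ β := pow_pos hp.out.pos β
  obtain ⟨A, hA, hAF⟩ := exists_lift (K := K) hb (n + 1) (F := F) (by rw [← hq]; exact hF)
  refine ⟨A, hA, hAF, ?_⟩
  apply sb_inj (hA.rot) hA
  apply eq_of_eval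
  · have := natDegree_sb_lt hb (hA.rot (p := p) (β := β))
    rw [hq]; exact this
  · rw [hAF]; exact hF
  · intro a
    rw [eval_sb_rot hq, hAF, hv a]

/-- all variables have the same degree in a rotation invariant polynomial. -/
theorem degreeOf_inv {β n : ℕ} {A : MvPolynomial (Fin (n + 1)) K}
    (hA : rot K p β n A = A) (j : Fin (n + 1)) : A.degreeOf j = A.degreeOf 0 := by
  have h : ∀ i, A.degreeOf (rfun n i) = A.degreeOf i := by
    intro i
    conv_lhs => rw [← hA]
    exact degreeOf_rot β n A i
  have h0 : A.degreeOf (Fin.last n) = A.degreeOf 0 := h 0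
  induction j using Fin.reverseInduction with
  | last => exact h0
  | cast i ih =>
    have := h i.succ
    rw [rfun_succ] at this
    rw [this, ih]

end MV286
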